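import Pool.Agent.W_bbc525_b1.Pt

/-!
# The path inequality, one exponent, open at the end

PROOF. The proof of `path_lt` (W_bbc525_b1/Pt.lean) with one exponent: `A v = ((v/r)^a - 1)/((q/r)^a
- 1)`, `A q = 1`, `A u ≥ 0`, `v A' v * ((q^a - r^a)/(a v^a)) = 1`. `R > 0`: use `h` at
`v = (u + q)/2` (left side positive since `logit v > logit p`, `logit_strictMono`, and
`q^a > r^a`). `B v = relEnt p v - R A v` is continuous on `[u, q]` and
`v B' v = v (logit v - logit p) - R v A' v < 0` on `(u, q)` by `h`, so `B q < B u`.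
(You may apply `path_lt` only to `[u, q']`, `q' < q`, and pass to the limit, but then the
inequality is not strict; it is better to copy its proof.)
-/

set_option autoImplicit false

namespace Pool.Agent.W_bbc525_c1

open Finset Pool.Agent.W_MP_bbc525_pr Pool.Agent.W_bbc525_h89 Pool.Agent.W_bbc525_td
  Pool.Agent.W_bbc525_b1

theorem path_lt1 {a : ℕ} (ha : 1 ≤ a) {p q r u R : ℝ} (hp : 0 < p) (hr : 0 < r) (hru : r ≤ u)
    (hpu : p ≤ u) (huq : u < q) (hq1 : q < 1)
    (h : ∀ v, u < v → v < q →
      v * (logit v - logit p) * ((q ^ a - r ^ a) / (a * v ^ a)) < R) :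
    relEnt p q - relEnt p u < R := by
  have hu : 0 < u := lt_of_lt_of_le hr hru
  have hrq : r < q := lt_of_le_of_lt hru huq
  have hp1 : p < 1 := by linarith
  have hQ : 0 < (q / r) ^ a - 1 := Pt_pow_sub_pos hr hrq ha
  have hQr : 0 < q ^ a - r ^ a := by
    have := pow_lt_pow_left₀ hrq hr.le (by omega : a ≠ 0)
    linarith
  have ha0 : (0 : ℝ) < (a : ℝ) := by exact_mod_cast ha
  have hRpos : 0 < R := by
    have hm1 : u < (u + q) / 2 := by linarith
    have hm2 : (u + q) / 2 < q := by linarith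
    have h1 := h _ hm1 hm2
    have h2 : 0 < logit ((u + q) / 2) - logit p := logit_strictMono hp (by linarith) (by linarith)
    refine lt_of_le_of_lt ?_ h1
    have h3 : 0 < (u + q) / 2 := by linarith
    exact mul_nonneg (mul_nonneg h3.le h2.le) (div_nonneg hQr.le (by positivity))
  let A : ℝ → ℝ := fun v => ((v / r) ^ a - 1) / ((q / r) ^ a - 1)
  have hAq : A q = 1 := div_self hQ.ne'
  have hAu : 0 ≤ A u := by
    refine div_nonneg ?_ hQ.le
    have h1 : 1 ≤ u / r := (one_le_div hr).2 hru
    have h2 := one_le_pow₀ h1 (n := a)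
    linarith
  have hA : ∀ v, 0 < v → HasDerivAt A (((a : ℝ) * (v / r) ^ (a - 1) * (1 / r)) /
      ((q / r) ^ a - 1)) v := by
    intro v hv
    refine HasDerivAt.div_const ?_ _
    refine HasDerivAt.sub_const _ ?_
    have h1 : HasDerivAt (fun v : ℝ => v / r) (1 / r) v := (hasDerivAt_id v).div_const r
    exact h1.pow a
  have hvA : ∀ v, 0 < v → v * (((a : ℝ) * (v / r) ^ (a - 1) * (1 / r)) / ((q / r) ^ a - 1)) *
      ((q ^ a - r ^ a) / (a * v ^ a)) = 1 := by
    intro v hv
    have h3 : (v / r) ^ a = (v / r) ^ (a - 1) * (v / r) := by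
      rw [← pow_succ]
      congr 1
      omega
    have h4 : (v / r) ^ (a - 1) = v ^ a / r ^ a * (r / v) := by
      rw [← div_pow, h3]
      field_simp
    have h5 : (q / r) ^ a - 1 = (q ^ a - r ^ a) / r ^ a := by
      rw [div_pow]
      have : r ^ a ≠ 0 := (pow_pos hr a).ne'
      field_simp
    have h6 : r ^ a ≠ 0 := (pow_pos hr a).ne'
    have h7 : v ^ a ≠ 0 := (pow_pos hv a).ne'
    have h8 := hQr.ne'
    rw [h4, h5]
    field_simp
  have hB : StrictAntiOn (fun v => relEnt p v - R * A v) (Set.Icc u q) := by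
    refine strictAntiOn_of_deriv_neg (convex_Icc u q) ?_ ?_
    · refine ContinuousOn.sub ((continuousOn_relEnt hp hp1).mono
        (Set.Icc_subset_Icc hu.le hq1.le)) ?_
      intro v hv
      exact ((hA v (lt_of_lt_of_le hu hv.1)).const_mul R).continuousAt.continuousWithinAt
    · intro v hv
      rw [interior_Icc] at hv
      have hv0 : 0 < v := hu.trans hv.1
      have hd : HasDerivAt (fun x => relEnt p x - R * A x) (logit v - logit p - R *
          (((a : ℝ) * (v / r) ^ (a - 1) * (1 / r)) / ((q / r) ^ a - 1))) v :=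
        (hasDerivAt_relEnt hp hp1 hv0 (hv.2.trans hq1)).sub ((hA v hv0).const_mul R)
      rw [hd.deriv]
      have hW : 0 < (q ^ a - r ^ a) / (a * v ^ a) := by positivity
      have h1 := h v hv.1 hv.2
      have h2 := hvA v hv0
      have h3 : v * (logit v - logit p - R * (((a : ℝ) * (v / r) ^ (a - 1) * (1 / r)) /
          ((q / r) ^ a - 1))) * ((q ^ a - r ^ a) / (a * v ^ a)) < 0 := by
        have h4 : v * (logit v - logit p - R * (((a : ℝ) * (v / r) ^ (a - 1) * (1 / r)) /
          ((q / r) ^ a - 1))) * ((q ^ a - r ^ a) / (a * v ^ a)) =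
          v * (logit v - logit p) * ((q ^ a - r ^ a) / (a * v ^ a)) -
          R * (v * (((a : ℝ) * (v / r) ^ (a - 1) * (1 / r)) / ((q / r) ^ a - 1)) *
            ((q ^ a - r ^ a) / (a * v ^ a))) := by ring
        rw [h4, h2]
        linarith
      exact neg_of_mul_neg_right (neg_of_mul_neg_left h3 hW.le) hv0.le
  have h1 := hB (Set.left_mem_Icc.2 huq.le) (Set.right_mem_Icc.2 huq.le) huq
  simp only at h1
  rw [hAq] at h1
  have h2 : 0 ≤ R * A u := mul_nonneg hRpos.le hAu
  linarith

end Pool.Agent.W_bbc525_c1
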