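import Pool.Agent.W_bbc525_c1.Wi
import Pool.Agent.W_bbc525_c1.Pt2

/-!
# The first transition of a biregular graph of degree ratio above two
-/

set_option autoImplicit false

namespace Pool.Agent.W_bbc525_c1

open MeasureTheory Finset Pool.Agent.W_MP_bbc525_pr Pool.Agent.W_bbc525_h89
  Pool.Agent.W_bbc525_td Pool.Agent.W_bbc525_ends Pool.Agent.W_bbc525_b1

section graph

variable {V : Type*} [Fintype V] [DecidableEq V] {H : SimpleGraph V} [DecidableRel H.Adj]

theorem Fi_psi (hE : 0 < H.edgeFinset.card) {a b : ℕ}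
    (hH : ∀ e ∈ H.edgeFinset, mdeg H e = a ∧ ndeg H e = b) (X : ℝ) :
    2 * PsiV H X = ps a X + ps b X := by
  have hE' : (0 : ℝ) < H.edgeFinset.card := by exact_mod_cast hE
  rw [PsiV_gg hE]
  have e1 : ∑ e ∈ H.edgeFinset, (gg (mdeg H e) X + gg (ndeg H e) X) / 2 =
      ∑ _e ∈ H.edgeFinset, (ps a X + ps b X) / 2 := by
    apply Finset.sum_congr rfl
    intro e he
    rw [(hH e he).1, (hH e he).2]
    rfl
  rw [e1, Finset.sum_const, nsmul_eq_mul]
  field_simp

theorem Fi_mix {q : ℝ} (hq : 0 < q) (W : Graphon)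
    (hW : q ^ H.edgeFinset.card ≤ homDensity H W) (hE : 0 < H.edgeFinset.card) {a b : ℕ}
    (ha : 1 ≤ a) (hH : ∀ e ∈ H.edgeFinset, mdeg H e = a ∧ ndeg H e = b) :
    q ^ a ≤ mix W a b := by
  obtain ⟨hpos, hlog⟩ := feas_log hq W hW
  have hE' : (0 : ℝ) < H.edgeFinset.card := by exact_mod_cast hE
  have ha' : (0 : ℝ) < a := by exact_mod_cast ha
  obtain ⟨e, he⟩ := Finset.card_pos.1 hE
  have h1 := hpos e he
  rw [(hH e he).1, (hH e he).2] at h1
  have e1 : ∑ e ∈ H.edgeFinset,
      Real.log (mix W (mdeg H e) (ndeg H e) / q ^ mdeg H e) / (mdeg H e : ℝ) =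
      ∑ _e ∈ H.edgeFinset, Real.log (mix W a b / q ^ a) / (a : ℝ) := by
    apply Finset.sum_congr rfl
    intro e he
    rw [(hH e he).1, (hH e he).2]
  rw [e1, Finset.sum_const, nsmul_eq_mul] at hlog
  have h2 : 0 ≤ Real.log (mix W a b / q ^ a) := by
    by_contra hcon
    push Not at hcon
    have h3 : Real.log (mix W a b / q ^ a) / (a : ℝ) < 0 := div_neg_of_neg_of_pos hcon ha'
    have h4 := mul_neg_of_pos_of_neg hE' h3
    linarith
  have h3 : 1 ≤ mix W a b / q ^ a := by
    by_contra hcon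
    push Not at hcon
    have := Real.log_neg h1 hcon
    linarith
  rwa [le_div_iff₀ (by positivity), one_mul] at h3

theorem Fi_mom_pos {W : Graphon} {a b : ℕ} (ha : 1 ≤ a) (hb : 1 ≤ b) (h : 0 < mix W a b) :
    0 < W.mom b := by
  have h0 : 0 ≤ W.mom b := by
    rw [mom_eq_inn]
    exact integral_nonneg fun x => inn_nonneg W b x
  rcases h0.eq_or_lt with h1 | h1
  · exfalso
    have hY := (BK.YY (W := W) (q := 1) one_pos b).iter'
    have hi : Integrable (fun x => inn W b x) := by
      have := hY.integrable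
      simp only [YY_row, one_pow, div_one] at this
      exact this
    have h2 : ∫ x, inn W b x = 0 := by rw [← mom_eq_inn, ← h1]
    have h3 := (integral_eq_zero_iff_of_nonneg (μ := (volume : Measure unitInterval))
      (fun x => inn_nonneg W b x) hi).1 h2
    have h4 : mix W a b = 0 := by
      unfold mix
      rw [integral_congr_ae (g := fun _ => (0 : ℝ))]
      · simp
      · filter_upwards [h3] with x hx
        have hx' : inn W b x = 0 := by simpa using hx
        rw [hx', Real.zero_rpow]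
        have ha' : (0 : ℝ) < a := by exact_mod_cast ha
        have hb' : (0 : ℝ) < b := by exact_mod_cast hb
        positivity
    linarith
  · exact h1

/-- large moment: the constant is the only candidate -/
theorem Fi_large {a b : ℕ} (hb : 1 ≤ b) (hab : b < a) {p q : ℝ} (hp : 0 < p) (hpq : p < q)
    (hq1 : q < 1) (hN : ∀ X, 0 ≤ X → X ≤ 1 / q →
      q * (logit q - logit p) * (ps a X + ps b X) ≤ 2 * dd q X) (W : Graphon)
    (hm : q ^ b ≤ W.mom b) (hc : cost p W ≤ relEnt p q) :
    ∀ᵐ z : unitInterval × unitInterval, W.W z.1 z.2 = q := by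
  have hq : 0 < q := by linarith
  have hp1 : p < 1 := by linarith
  have hb' : (0 : ℝ) < b := by exact_mod_cast hb
  have ha' : (0 : ℝ) < a := by exact_mod_cast (by omega : 0 < a)
  obtain ⟨T, hT⟩ : ∃ T, T = q * (logit q - logit p) := ⟨_, rfl⟩
  have hT0 : 0 < T := by
    rw [hT]
    exact mul_pos hq (logit_strictMono hp hpq hq1)
  rw [← hT] at hN
  -- the integrand
  have hpsK : BK (fun x y => ps b (W.W x y / q)) := by
    apply (BK.XX hq).comp (continuous_ps b).measurable
    obtain ⟨C, hC⟩ := (isCompact_Icc (a := (0 : ℝ)) (b := 1 / q)).exists_bound_of_continuousOn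
      (continuous_ps b).continuousOn
    refine ⟨C, fun x y => ?_⟩
    have := hC (W.W x y / q) ⟨div_nonneg (W.nonneg _ _) hq.le, XX_le hq x y⟩
    rwa [Real.norm_eq_abs] at this
  have hK : BK (fun x y => dd q (W.W x y / q) - T * ps b (W.W x y / q)) :=
    (BK.dd hq hq1 W).sub (BK.const_mul T hpsK)
  have hlow : ∀ x y, T / 2 * (zet ((a : ℝ) / b) ((W.W x y / q) ^ b) / a) ≤
      dd q (W.W x y / q) - T * ps b (W.W x y / q) := by
    intro x y
    have h0 : 0 ≤ W.W x y / q := div_nonneg (W.nonneg _ _) hq.le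
    have h1 := hN _ h0 (XX_le hq x y)
    rw [← ps_sub hb hab.le h0]
    linarith
  have hθ : 1 < (a : ℝ) / b := by
    rw [lt_div_iff₀ hb', one_mul]
    exact_mod_cast hab
  have hz0 : ∀ x y, 0 ≤ T / 2 * (zet ((a : ℝ) / b) ((W.W x y / q) ^ b) / a) := by
    intro x y
    have h0 : 0 ≤ W.W x y / q := div_nonneg (W.nonneg _ _) hq.le
    have h1 := zet_nonneg hθ.le (pow_nonneg h0 b)
    positivity
  have hnn : ∀ z : unitInterval × unitInterval,
      0 ≤ dd q (W.W z.1 z.2 / q) - T * ps b (W.W z.1 z.2 / q) := fun z =>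
    (hz0 z.1 z.2).trans (hlow z.1 z.2)
  obtain ⟨C, hC⟩ := hK.bdd
  have hint : Integrable (fun z : unitInterval × unitInterval =>
      dd q (W.W z.1 z.2 / q) - T * ps b (W.W z.1 z.2 / q)) :=
    Graphon.integrable_of_bdd hK.meas (C := C) fun z => hC z.1 z.2
  -- its integral is nonpositive
  have hle : ∫ z : unitInterval × unitInterval,
      (dd q (W.W z.1 z.2 / q) - T * ps b (W.W z.1 z.2 / q)) ≤ 0 := by
    have e0 := hK.prod
    rw [e0]
    have e1 : ∀ x, ∫ y, (dd q (W.W x y / q) - T * ps b (W.W x y / q)) =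
        (∫ y, dd q (W.W x y / q)) - T * ∫ y, ps b (W.W x y / q) := by
      intro x
      rw [BF.isub ((BK.dd hq hq1 W).row x) (BF.const_mul T (hpsK.row x)), BF.imul]
    simp only [e1]
    rw [BF.isub (BK.dd hq hq1 W).iter' (BF.const_mul T hpsK.iter'), BF.imul,
      ← cost_eq_dd hq hq1]
    have e2 : ∀ x, ∫ y, ps b (W.W x y / q) = 1 / (b : ℝ) * ((∫ y, YY W q b x y) - 1) -
        ((∫ y, YY W q 1 x y) - 1) := by
      intro x
      have i1 := (BK.YY (W := W) hq b).row x
      have i2 := (BK.YY (W := W) hq 1).row x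
      have e3 : ∀ y, ps b (W.W x y / q) = 1 / (b : ℝ) * (YY W q b x y - 1) -
          (YY W q 1 x y - 1) := by
        intro y
        unfold ps YY
        rw [pow_one]
        ring
      simp only [e3]
      rw [BF.isub (BF.const_mul _ (i1.sub (BF.const 1))) (i2.sub (BF.const 1)), BF.imul,
        BF.isub i1 (BF.const 1), BF.isub i2 (BF.const 1), BF.iconst]
    simp only [e2]
    have j1 := (BK.YY (W := W) hq b).iter'
    have j2 := (BK.YY (W := W) hq 1).iter'
    rw [BF.isub (BF.const_mul _ (j1.sub (BF.const 1))) (j2.sub (BF.const 1)), BF.imul,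
        BF.isub j1 (BF.const 1), BF.isub j2 (BF.const 1), BF.iconst, YY_mom hq, YY_mom hq,
        Graphon.mom_one, pow_one]
    have h3 := cost_shift hp hp1 hq hq1 W
    have h4 : cost q W + T * (W.mean / q - 1) ≤ 0 := by
      have e1 : T * (W.mean / q - 1) = (logit q - logit p) * (W.mean - q) := by
        rw [hT]
        field_simp
      rw [e1, ← h3]
      linarith
    have h5 : 0 ≤ T * (1 / (b : ℝ) * (W.mom b / q ^ b - 1)) := by
      have h6 : 1 ≤ W.mom b / q ^ b := by
        rw [le_div_iff₀ (by positivity), one_mul]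
        exact hm
      have h7 : 0 ≤ W.mom b / q ^ b - 1 := by linarith
      positivity
    linarith
  have hzero : ∫ z : unitInterval × unitInterval,
      (dd q (W.W z.1 z.2 / q) - T * ps b (W.W z.1 z.2 / q)) = 0 :=
    le_antisymm hle (integral_nonneg hnn)
  have hae := (integral_eq_zero_iff_of_nonneg
    (μ := (volume : Measure (unitInterval × unitInterval))) hnn hint).1 hzero
  filter_upwards [hae] with z hz
  have hz' : dd q (W.W z.1 z.2 / q) - T * ps b (W.W z.1 z.2 / q) = 0 := by simpa using hz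
  have h0 : 0 ≤ W.W z.1 z.2 / q := div_nonneg (W.nonneg _ _) hq.le
  by_contra hcon
  have h1 := hlow z.1 z.2
  rw [hz'] at h1
  have hX : W.W z.1 z.2 / q ≠ 1 := by
    intro h
    rw [div_eq_one_iff_eq hq.ne'] at h
    exact hcon h
  have hY : (W.W z.1 z.2 / q) ^ b ≠ 1 := by
    intro h
    exact hX ((pow_eq_one_iff_of_nonneg h0 (by omega)).1 h)
  have h2 := zet_pos hθ (pow_nonneg h0 b) hY
  have h3 : 0 < T / 2 * (zet ((a : ℝ) / b) ((W.W z.1 z.2 / q) ^ b) / a) := by positivity
  linarith

/-- **The first transition of a biregular graph, degree ratio above two.** -/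
theorem lower_bireg (hE : 0 < H.edgeFinset.card) {a b : ℕ} (hb : 2 ≤ b) (hab : 2 * b < a)
    (hH : ∀ e ∈ H.edgeFinset, mdeg H e = a ∧ ndeg H e = b)
    {p q : ℝ} (hp : 0 < p) (hpq : p ≤ q) (hq1 : q < 1)
    (hqc : q * ((a : ℝ) * ((a : ℝ) - 1) + (b : ℝ) * ((b : ℝ) - 1)) ≤
      ((a : ℝ) - 1) ^ 2 + ((b : ℝ) - 1) ^ 2)
    (hN : ∀ v, p < v → v ≤ q → Ncond H p v) : UniqueMinimizer H p q := by
  have hq : 0 < q := lt_of_lt_of_le hp hpq
  have hp1 : p < 1 := by linarith
  rcases hpq.eq_or_lt with heq | hlt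
  · rw [← heq]
    exact full_unique_self H hp hp1
  intro W hW hcost
  have hmix := Fi_mix hq W hW hE (by omega : 1 ≤ a) hH
  have hmix0 : 0 < mix W a b := lt_of_lt_of_le (by positivity) hmix
  have hm0 : 0 < W.mom b := Fi_mom_pos (by omega) (by omega) hmix0
  have hb1 : 1 ≤ b := by omega
  have hb' : (0 : ℝ) < b := by exact_mod_cast hb1
  have ha' : (0 : ℝ) < a := by exact_mod_cast (by omega : 0 < a)
  have ha2 : (4 : ℝ) < a := by exact_mod_cast (by omega : 4 < a)
  have hV : ∀ v, p < v → v ≤ q → ∀ X, 0 ≤ X → X ≤ 1 / v →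
      v * (logit v - logit p) * (ps a X + ps b X) ≤ 2 * dd v X := by
    intro v hpv hvq X hX hX1
    have h1 := Ncond.psi hE hp hpv.le (by linarith) (hN v hpv hvq) X hX hX1
    rw [← Fi_psi hE hH X]
    linarith
  by_cases hmq : q ^ b ≤ W.mom b
  · exact Fi_large hb1 (by omega) hp hlt hq1 (hV q hlt le_rfl) W hmq hcost
  · exfalso
    push Not at hmq
    obtain ⟨c, hc⟩ : ∃ c, c = rt b (W.mom b) := ⟨_, rfl⟩
    have hc0 : 0 < c := by
      rw [hc]
      exact rt_pos b hm0
    have hcb : c ^ b = W.mom b := by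
      rw [hc]
      exact rt_pow hb1 hm0.le
    have hcq : c < q := by
      rw [hc]
      exact rt_lt hb1 hm0.le hq.le hmq
    obtain ⟨u, hu⟩ : ∃ u, u = max c p := ⟨_, rfl⟩
    have hcu : c ≤ u := by
      rw [hu]
      exact le_max_left _ _
    have hpu : p ≤ u := by
      rw [hu]
      exact le_max_right _ _
    have huq : u < q := by
      rw [hu]
      exact max_lt hcq hlt
    have hpath : relEnt p q - relEnt p u < cost p W - relEnt p c := by
      apply path_lt1 (by omega : 1 ≤ a) hp hc0 hcu hpu huq hq1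
      intro v huv hvq
      have hpv : p < v := lt_of_le_of_lt hpu huv
      have hcv : c < v := lt_of_le_of_lt hcu huv
      have hv : 0 < v := by linarith
      have hv1 : v < 1 := by linarith
      have hT : 0 < v * (logit v - logit p) := mul_pos hv (logit_strictMono hp hpv hv1)
      have hcon : 0 < (a : ℝ) * ((a : ℝ) - 1) + (b : ℝ) * ((b : ℝ) - 1) := by
        have h1 : (1 : ℝ) ≤ b := by exact_mod_cast hb1
        have h2 : 0 ≤ (b : ℝ) * ((b : ℝ) - 1) := mul_nonneg hb'.le (by linarith)
        have h3 : 0 < (a : ℝ) * ((a : ℝ) - 1) := mul_pos ha' (by linarith)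
        linarith
      have hvc : v * ((a : ℝ) * ((a : ℝ) - 1) + (b : ℝ) * ((b : ℝ) - 1)) <
          ((a : ℝ) - 1) ^ 2 + ((b : ℝ) - 1) ^ 2 :=
        lt_of_lt_of_le (mul_lt_mul_of_pos_right hvq hcon) hqc
      have hmv : W.mom b < v ^ b := by
        rw [← hcb]
        exact pow_lt_pow_left₀ hcv hc0.le (by omega)
      have hca : c ^ a < mix W a b :=
        lt_of_lt_of_le (pow_lt_pow_left₀ hcq hc0.le (by omega)) hmix
      have hne : ¬ ∀ᵐ x, (∫ y, YY W v b x y) = W.mom b / v ^ b := by
        intro hall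
        have h1 := mixS_eq (W := W) hv (a := a) (b := b) hb1
        have h2 : ∫ x, (∫ y, YY W v b x y) ^ ((a : ℝ) / b) = c ^ a / v ^ a := by
          rw [integral_congr_ae (g := fun _ => c ^ a / v ^ a)]
          · simp
          · filter_upwards [hall] with x hx
            rw [hx, ← hcb, ← div_pow, ← div_pow]
            rw [← Real.rpow_natCast (c / v) b, ← Real.rpow_mul (by positivity),
              mul_div_cancel₀ _ hb'.ne', Real.rpow_natCast]
        rw [h2] at h1
        have h3 : 0 < v ^ a := by positivity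
        have h4 : c ^ a = mix W a b := by
          field_simp at h1
          exact h1
        linarith
      have h1 := wi hb hab hp hpv hv1 hvc (hV v hpv hvq.le) W hm0 hmv hne
      rw [← hc] at h1
      refine lt_of_le_of_lt ?_ h1
      apply mul_le_mul_of_nonneg_left _ hT.le
      apply div_le_div_of_nonneg_right _ (by positivity)
      linarith
    have hur : relEnt p u ≤ relEnt p c := by
      rw [hu]
      rcases le_total c p with h | h
      · rw [max_eq_right h, relEnt_self hp hp1]
        exact relEnt_nonneg hp hp1 hc0.le (by linarith)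
      · rw [max_eq_left h]
    linarith

end graph

end Pool.Agent.W_bbc525_c1
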