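import Pool.Agent.W_bbc525_b1.As

/-!
# Monotonicity in the density, for values below

PROOF. Fix `r ≥ 0` and let `G x = relEnt p r - relEnt p x - x (logit x - logit p)
(((r/x)^a - 1)/(2a) + ((r/x)^b - 1)/(2b))` for `w ≤ x ≤ v`; claim `G w ≤ G v`. With `X = r/x ≤ 1`
(`r ≤ w ≤ x`), `L = logit x - logit p ≥ 0`, `A = (1 - X^a)/a`, `B = (1 - X^b)/b`, `0 ≤ A ≤ B`
(`A ≤ B`: `ps a X ≥ ps b X`, or: `t ↦ (1 - X^t)/t` is decreasing; e.g. by induction on `a`, or by
Bernoulli for `X^b`), and the derivatives `relEnt p ' = L` (`hasDerivAt_relEnt`),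
`logit' = 1/(x (1-x))`, `(x ((r/x)^a - 1))' = ((r/x)^a - 1) - a (r/x)^a`:
`G' x = (1/2) ((A + B)/(1 - x) - L ((a-1) A + (b-1) B))`. As `(a-1) A + (b-1) B ≤ N (A + B)/2`,
`N = (a-1) + (b-1)` (because `(a - b)(A - B) ≤ 0`), and `L (1 - x) N ≤ 2` by `hl`, `G' x ≥ 0`.
(`monotoneOn_of_deriv_nonneg` on `Icc w v`.)
-/

set_option autoImplicit false

namespace Pool.Agent.W_bbc525_c1

open Set Pool.Agent.W_MP_bbc525_pr Pool.Agent.W_bbc525_h89 Pool.Agent.W_bbc525_td
  Pool.Agent.W_bbc525_ends Pool.Agent.W_bbc525_b1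

private theorem Tr_geom (X : ℝ) (hX : 0 ≤ X) (hX1 : X ≤ 1) (n : ℕ) : ∀ b : ℕ, b ≤ n →
    b * X ^ n * (1 - X) ≤ 1 - X ^ b := by
  intro b
  induction b with
  | zero => intro _; simp
  | succ k ih =>
    intro hk
    have h1 := ih (by omega)
    have h2 : X ^ n ≤ X ^ k := pow_le_pow_of_le_one hX hX1 (by omega)
    have h3 : X ^ n * (1 - X) ≤ X ^ k * (1 - X) :=
      mul_le_mul_of_nonneg_right h2 (by linarith)
    push_cast
    rw [pow_succ X k]
    nlinarith

private theorem Tr_AB (X : ℝ) (hX : 0 ≤ X) (hX1 : X ≤ 1) (b : ℕ) : ∀ a : ℕ, b ≤ a →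
    b * (1 - X ^ a) ≤ a * (1 - X ^ b) := by
  intro a ha
  induction a, ha using Nat.le_induction with
  | base => exact le_refl _
  | succ k hk ih =>
    have h1 := Tr_geom X hX hX1 k b hk
    push_cast
    rw [pow_succ X k]
    nlinarith

private theorem Tr_hasDerivAt_logit {x : ℝ} (h0 : 0 < x) (h1 : x < 1) :
    HasDerivAt logit (1 / (x * (1 - x))) x := by
  have h1' : (1 : ℝ) - x ≠ 0 := by linarith
  have e1 := Real.hasDerivAt_log h0.ne'
  have e2 : HasDerivAt (fun y : ℝ => Real.log (1 - y)) (-1 / (1 - x)) x := by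
    have := (((hasDerivAt_id x).const_sub 1).log h1')
    simpa using this
  have e3 := e1.sub e2
  have e4 : (x⁻¹ - -1 / (1 - x)) = 1 / (x * (1 - x)) := by
    field_simp
    ring
  rw [e4] at e3
  exact e3

private theorem Tr_pow (n : ℕ) (hn : 1 ≤ n) (r : ℝ) {x : ℝ} (h0 : 0 < x) :
    HasDerivAt (fun y : ℝ => ((r / y) ^ n - 1) / (2 * n)) (-((r / x) ^ n / (2 * x))) x := by
  have hx : x ≠ 0 := h0.ne'
  have hn' : (n : ℝ) ≠ 0 := by positivity
  have e1 : HasDerivAt (fun y : ℝ => r / y) (-(r / x ^ 2)) x := by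
    have := (hasDerivAt_inv hx).const_mul r
    simpa [div_eq_mul_inv] using this
  have e2 := ((e1.pow n).sub_const 1).div_const (2 * (n : ℝ))
  refine e2.congr_deriv ?_
  obtain ⟨m, rfl⟩ : ∃ m, n = m + 1 := ⟨n - 1, by omega⟩
  simp only [Nat.add_sub_cancel, pow_succ]
  push_cast
  push_cast at hn'
  field_simp

private theorem Tr_deriv {a b : ℕ} (hb : 1 ≤ b) (ha : 1 ≤ a) {p r x : ℝ} (hp : 0 < p) (hp1 : p < 1)
    (h0 : 0 < x) (h1 : x < 1) :
    HasDerivAt (fun y => relEnt p r - relEnt p y - y * (logit y - logit p) *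
        (((r / y) ^ a - 1) / (2 * a) + ((r / y) ^ b - 1) / (2 * b)))
      ((1 / 2) * (((1 - (r / x) ^ a) / a + (1 - (r / x) ^ b) / b) / (1 - x) -
        (logit x - logit p) * ((a - 1) * ((1 - (r / x) ^ a) / a) +
          (b - 1) * ((1 - (r / x) ^ b) / b)))) x := by
  have d1 := (hasDerivAt_relEnt hp hp1 h0 h1).const_sub (relEnt p r)
  have d2 := (Tr_hasDerivAt_logit h0 h1).sub_const (logit p)
  have d3 := (hasDerivAt_id x).mul d2
  have d4 := (Tr_pow a ha r h0).add (Tr_pow b hb r h0)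
  have d5 := d1.sub (d3.mul d4)
  refine d5.congr_deriv ?_
  have ha' : (a : ℝ) ≠ 0 := by positivity
  have hb' : (b : ℝ) ≠ 0 := by positivity
  have hx : x ≠ 0 := h0.ne'
  have hx1 : (1 : ℝ) - x ≠ 0 := by linarith
  simp only [id, Pi.add_apply, Pi.mul_apply]
  generalize (r / x) ^ a = P
  generalize (r / x) ^ b = Q
  generalize logit x - logit p = L
  field_simp
  ring

theorem tr {a b : ℕ} (hb : 1 ≤ b) (hab : b < a) {p w v r : ℝ} (hp : 0 < p) (hpw : p ≤ w)
    (hwv : w ≤ v) (hv1 : v < 1) (hr : 0 ≤ r) (hrw : r ≤ w)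
    (hl : ∀ x, w ≤ x → x ≤ v →
      (logit x - logit p) * ((1 - x) * (((a : ℝ) - 1) + ((b : ℝ) - 1))) ≤ 2) :
    relEnt p r - relEnt p w - w * (logit w - logit p) *
        (((r / w) ^ a - 1) / (2 * a) + ((r / w) ^ b - 1) / (2 * b)) ≤
      relEnt p r - relEnt p v - v * (logit v - logit p) *
        (((r / v) ^ a - 1) / (2 * a) + ((r / v) ^ b - 1) / (2 * b)) := by
  have hp1 : p < 1 := by linarith
  have hd : ∀ x ∈ Icc w v, HasDerivAt (fun y => relEnt p r - relEnt p y - y * (logit y - logit p) *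
        (((r / y) ^ a - 1) / (2 * a) + ((r / y) ^ b - 1) / (2 * b)))
      ((1 / 2) * (((1 - (r / x) ^ a) / a + (1 - (r / x) ^ b) / b) / (1 - x) -
        (logit x - logit p) * ((a - 1) * ((1 - (r / x) ^ a) / a) +
          (b - 1) * ((1 - (r / x) ^ b) / b)))) x := fun x hx =>
    Tr_deriv hb (by omega) hp hp1 (by linarith [hx.1]) (by linarith [hx.2])
  have hm : MonotoneOn (fun y => relEnt p r - relEnt p y - y * (logit y - logit p) *
        (((r / y) ^ a - 1) / (2 * a) + ((r / y) ^ b - 1) / (2 * b))) (Icc w v) := by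
    refine monotoneOn_of_deriv_nonneg (convex_Icc w v)
      (fun x hx => (hd x hx).continuousAt.continuousWithinAt)
      (fun x hx => (hd x (interior_subset hx)).differentiableAt.differentiableWithinAt) ?_
    intro x hx
    have hx := interior_subset hx
    rw [(hd x hx).deriv]
    have h0 : 0 < x := by linarith [hx.1]
    have h1 : 0 < 1 - x := by linarith [hx.2]
    have hX : 0 ≤ r / x := by positivity
    have hX1 : r / x ≤ 1 := by
      rw [div_le_one h0]
      linarith [hx.1]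
    have ha' : (0 : ℝ) < a := by
      have : 0 < a := by omega
      exact_mod_cast this
    have hb' : (0 : ℝ) < b := by exact_mod_cast hb
    have hab' : (b : ℝ) ≤ a := by exact_mod_cast hab.le
    have k1 := Tr_AB (r / x) hX hX1 b a hab.le
    have kA : 0 ≤ (1 - (r / x) ^ a) / a :=
      div_nonneg (by linarith [pow_le_one₀ hX hX1 (n := a)]) ha'.le
    have kB : (1 - (r / x) ^ a) / a ≤ (1 - (r / x) ^ b) / b := by
      rw [div_le_div_iff₀ ha' hb']
      nlinarith
    have hL : (logit x - logit p) * ((1 - x) * (((a : ℝ) - 1) + ((b : ℝ) - 1))) ≤ 2 :=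
      hl x hx.1 hx.2
    generalize (1 - (r / x) ^ a) / a = A at *
    generalize (1 - (r / x) ^ b) / b = B at *
    have hL0 : 0 ≤ logit x - logit p := by
      unfold logit
      have e1 : Real.log p ≤ Real.log x := Real.log_le_log hp (by linarith [hx.1])
      have e2 : Real.log (1 - x) ≤ Real.log (1 - p) := Real.log_le_log h1 (by linarith [hx.1])
      linarith
    generalize logit x - logit p = L at *
    have hs : (a - 1 : ℝ) * A + (b - 1) * B ≤ ((a - 1) + (b - 1)) * (A + B) / 2 := by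
      nlinarith [mul_nonneg (sub_nonneg.2 hab') (sub_nonneg.2 kB)]
    have h5 : L * ((a - 1 : ℝ) * A + (b - 1) * B) ≤ (A + B) / (1 - x) := by
      rw [le_div_iff₀ h1]
      have h6 : L * ((a - 1 : ℝ) * A + (b - 1) * B) ≤
          L * (((a - 1) + (b - 1)) * (A + B) / 2) := mul_le_mul_of_nonneg_left hs hL0
      have h7 : L * (((a - 1 : ℝ) + (b - 1)) * (A + B) / 2) * (1 - x) =
          (L * ((1 - x) * ((a - 1) + (b - 1)))) * ((A + B) / 2) := by ring
      have h8 : (L * ((1 - x) * ((a - 1 : ℝ) + (b - 1)))) * ((A + B) / 2) ≤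
          2 * ((A + B) / 2) := mul_le_mul_of_nonneg_right hL (by linarith)
      calc L * ((a - 1 : ℝ) * A + (b - 1) * B) * (1 - x)
          ≤ L * (((a - 1) + (b - 1)) * (A + B) / 2) * (1 - x) :=
            mul_le_mul_of_nonneg_right h6 h1.le
        _ ≤ A + B := by rw [h7]; linarith
    linarith
  exact hm (left_mem_Icc.2 hwv) (right_mem_Icc.2 hwv) hwv

end Pool.Agent.W_bbc525_c1
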