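import Pool.Agent.W_bbc525_b1.As

/-!
# Beyond the cusp there is no contact above 1

PROOF. `α = a - 1 ≥ 1`, `β = b - 1 ≥ 0`, `α > β`, `N = α + β`.
`P X = (1 - v X)(α X^α + β X^β)`, claim (i): `P X ≤ P 1 = (1 - v) N` for `1 ≤ X ≤ 1/v`.
`P' X = α X^(α-1) (α - a v X) + β X^(β-1) (β - b v X)`, so `X^(1-β) P' X = K X` with
`K X = α X^(α-β) (α - a v X) + β (β - b v X)` (all natural exponents: `α - β = a - b`; multiply
`P'` by `X / X^β`). `K 1 = α^2 + β^2 - v (a α + b β) ≤ 0` (`hv`), and `K X ≤ K 1` for `1 ≤ X`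
by `m (X^(m+1) - 1) ≥ (m+1) (X^m - 1)`, `m = α - β`, and `α m ≤ a v (m + 1)`.
So `K ≤ 0` and `P` is antitone on `[1, ∞)`.
(ii) `F X = 2 dd v X - T (ps a X + ps b X)`, `T = v (logit v - logit p) ≥ 0`, has `F 1 = F' 1 = 0` and
`X (1 - v X) F'' X = 2 v - T P X ≥ 2 v - T (1 - v) N ≥ 0` by `hl` for `1 ≤ X < 1/v`
(`hasDerivAt_dd`, `hasDerivAt_dd'`, `dd'' v X = v/(X (1 - v X))`, `hasDerivAt_ps`, `dd_one`,
`dd'_one`, `ps_one`). So `F' ≥ 0` and `F ≥ 0` on `[1, 1/v)`, and at `1/v` by continuity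
(`continuousOn_dd`; `monotoneOn_of_deriv_nonneg` on `Icc 1 (1/v)` gives this at once).
-/

set_option autoImplicit false

namespace Pool.Agent.W_bbc525_c1

open Set Pool.Agent.W_MP_bbc525_pr Pool.Agent.W_bbc525_h89 Pool.Agent.W_bbc525_td
  Pool.Agent.W_bbc525_ends Pool.Agent.W_bbc525_b1

theorem Tx_pow (m : ℕ) {X : ℝ} (hX : 1 ≤ X) :
    ((m : ℝ) + 1) * (X ^ m - 1) ≤ (m : ℝ) * (X ^ (m + 1) - 1) := by
  induction m with
  | zero => simp
  | succ m ih =>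
    have h1 : 1 ≤ X ^ (m + 1) := one_le_pow₀ hX
    have h2 : 0 ≤ (X - 1) * (X ^ (m + 1) - 1) :=
      mul_nonneg (by linarith) (by linarith)
    have h3 := mul_le_mul_of_nonneg_left ih (by linarith : (0 : ℝ) ≤ X)
    push_cast
    have e1 : X ^ (m + 1) = X * X ^ m := by ring
    have e2 : X ^ (m + 1 + 1) = X * (X * X ^ m) := by ring
    rw [e1] at h1 h2 h3 ⊢
    rw [e2]
    nlinarith

theorem Tx_K {α β m : ℕ} (hm : 1 ≤ m) (hα : α = β + m) {v : ℝ} (hv0 : 0 < v)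
    (hv : (α : ℝ) ^ 2 + (β : ℝ) ^ 2 ≤
      v * (((α : ℝ) + 1) * (α : ℝ) + ((β : ℝ) + 1) * (β : ℝ)))
    {X : ℝ} (hX : 1 ≤ X) :
    (α : ℝ) * X ^ m * ((α : ℝ) - ((α : ℝ) + 1) * v * X) +
      (β : ℝ) * ((β : ℝ) - ((β : ℝ) + 1) * v * X) ≤ 0 := by
  have hm' : (1 : ℝ) ≤ m := by exact_mod_cast hm
  have hβ : (0 : ℝ) ≤ β := Nat.cast_nonneg β
  have hαr : (α : ℝ) = β + m := by rw [hα]; push_cast; ring
  have hα1 : (1 : ℝ) ≤ α := by rw [hαr]; linarith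
  have hD : 0 < ((α : ℝ) + 1) * (α : ℝ) + ((β : ℝ) + 1) * (β : ℝ) := by positivity
  -- the inequality for the exponent
  have h2 : (α : ℝ) * m ≤ ((α : ℝ) + 1) * v * (m + 1) := by
    have h3 : (α : ℝ) * m * (((α : ℝ) + 1) * (α : ℝ) + ((β : ℝ) + 1) * (β : ℝ)) ≤
        ((α : ℝ) + 1) * (m + 1) * ((α : ℝ) ^ 2 + (β : ℝ) ^ 2) := by
      have hmα : (m : ℝ) ^ 2 ≤ (α : ℝ) ^ 2 := by
        apply pow_le_pow_left₀ (by linarith)
        rw [hαr]; linarith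
      have h4 : (β : ℝ) * (m : ℝ) ^ 2 ≤ (α : ℝ) * (α : ℝ) ^ 2 :=
        mul_le_mul (by rw [hαr]; linarith) hmα (by positivity) (by linarith)
      have h5 : ((α : ℝ) + 1) * (m + 1) * ((α : ℝ) ^ 2 + (β : ℝ) ^ 2) -
          (α : ℝ) * m * (((α : ℝ) + 1) * (α : ℝ) + ((β : ℝ) + 1) * (β : ℝ)) =
          ((α : ℝ) + 1) * ((α : ℝ) ^ 2 + (β : ℝ) ^ 2) - (β : ℝ) * (m : ℝ) ^ 2 := by
        rw [hαr]; ring
      have h6 : (α : ℝ) * (α : ℝ) ^ 2 ≤ ((α : ℝ) + 1) * ((α : ℝ) ^ 2 + (β : ℝ) ^ 2) :=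
        mul_le_mul (by linarith) (by nlinarith) (by positivity) (by linarith)
      linarith
    have h7 : ((α : ℝ) + 1) * (m + 1) * ((α : ℝ) ^ 2 + (β : ℝ) ^ 2) ≤
        ((α : ℝ) + 1) * (m + 1) *
          (v * (((α : ℝ) + 1) * (α : ℝ) + ((β : ℝ) + 1) * (β : ℝ))) :=
      mul_le_mul_of_nonneg_left hv (by positivity)
    have h8 : (α : ℝ) * m * (((α : ℝ) + 1) * (α : ℝ) + ((β : ℝ) + 1) * (β : ℝ)) ≤
        (((α : ℝ) + 1) * v * (m + 1)) *
          (((α : ℝ) + 1) * (α : ℝ) + ((β : ℝ) + 1) * (β : ℝ)) := by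
      refine (h3.trans h7).trans (le_of_eq ?_)
      ring
    exact le_of_mul_le_mul_right h8 hD
  have hXm : 1 ≤ X ^ m := one_le_pow₀ hX
  have h9 : (α : ℝ) ^ 2 * (X ^ m - 1) ≤
      (α : ℝ) * ((α : ℝ) + 1) * v * (X ^ (m + 1) - 1) := by
    have hp := Tx_pow m hX
    have h10 : (α : ℝ) * ((X ^ m - 1) * ((α : ℝ) * m)) ≤
        (α : ℝ) * ((X ^ m - 1) * (((α : ℝ) + 1) * v * (m + 1))) :=
      mul_le_mul_of_nonneg_left (mul_le_mul_of_nonneg_left h2 (by linarith)) (by linarith)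
    have h11 : ((α : ℝ) * ((α : ℝ) + 1) * v) * (((m : ℝ) + 1) * (X ^ m - 1)) ≤
        ((α : ℝ) * ((α : ℝ) + 1) * v) * ((m : ℝ) * (X ^ (m + 1) - 1)) :=
      mul_le_mul_of_nonneg_left hp (by positivity)
    have h12 : ((α : ℝ) ^ 2 * (X ^ m - 1)) * m ≤
        ((α : ℝ) * ((α : ℝ) + 1) * v * (X ^ (m + 1) - 1)) * m := by
      calc ((α : ℝ) ^ 2 * (X ^ m - 1)) * m = (α : ℝ) * ((X ^ m - 1) * ((α : ℝ) * m)) := by ring
        _ ≤ (α : ℝ) * ((X ^ m - 1) * (((α : ℝ) + 1) * v * (m + 1))) := h10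
        _ = ((α : ℝ) * ((α : ℝ) + 1) * v) * (((m : ℝ) + 1) * (X ^ m - 1)) := by ring
        _ ≤ ((α : ℝ) * ((α : ℝ) + 1) * v) * ((m : ℝ) * (X ^ (m + 1) - 1)) := h11
        _ = _ := by ring
    exact le_of_mul_le_mul_right h12 (by linarith)
  have h13 : 0 ≤ (β : ℝ) * ((β : ℝ) + 1) * v * (X - 1) :=
    mul_nonneg (by positivity) (by linarith)
  have e : (α : ℝ) * X ^ m * ((α : ℝ) - ((α : ℝ) + 1) * v * X) +
      (β : ℝ) * ((β : ℝ) - ((β : ℝ) + 1) * v * X) =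
      ((α : ℝ) ^ 2 + (β : ℝ) ^ 2 -
        v * (((α : ℝ) + 1) * (α : ℝ) + ((β : ℝ) + 1) * (β : ℝ))) +
      ((α : ℝ) ^ 2 * (X ^ m - 1) - (α : ℝ) * ((α : ℝ) + 1) * v * (X ^ (m + 1) - 1)) -
      (β : ℝ) * ((β : ℝ) + 1) * v * (X - 1) := by
    rw [pow_succ]; ring
  rw [e]
  linarith

theorem Tx_anti {α β m : ℕ} (hm : 1 ≤ m) (hα : α = β + m) {v : ℝ} (hv0 : 0 < v)
    (hv : (α : ℝ) ^ 2 + (β : ℝ) ^ 2 ≤
      v * (((α : ℝ) + 1) * (α : ℝ) + ((β : ℝ) + 1) * (β : ℝ))) :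
    AntitoneOn (fun X : ℝ => (1 - v * X) * ((α : ℝ) * X ^ α + (β : ℝ) * X ^ β)) (Ici 1) := by
  have hd : ∀ X : ℝ, HasDerivAt
      (fun X : ℝ => (1 - v * X) * ((α : ℝ) * X ^ α + (β : ℝ) * X ^ β))
      ((-v) * ((α : ℝ) * X ^ α + (β : ℝ) * X ^ β) +
        (1 - v * X) * ((α : ℝ) * ((α : ℝ) * X ^ (α - 1)) + (β : ℝ) * ((β : ℝ) * X ^ (β - 1)))) X := by
    intro X
    have l1 : HasDerivAt (fun X : ℝ => v * X) v X := by
      simpa using (hasDerivAt_id X).const_mul v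
    have l2 : HasDerivAt (fun X : ℝ => 1 - v * X) (-v) X := l1.const_sub 1
    have l3 := ((hasDerivAt_pow α X).const_mul (α : ℝ)).add
      ((hasDerivAt_pow β X).const_mul (β : ℝ))
    exact l2.mul l3
  apply antitoneOn_of_deriv_nonpos (convex_Ici 1)
  · exact fun X _ => (hd X).continuousAt.continuousWithinAt
  · exact fun X _ => (hd X).differentiableAt.differentiableWithinAt
  · intro X hX
    rw [interior_Ici, mem_Ioi] at hX
    rw [(hd X).deriv]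
    have hX0 : 0 < X := by linarith
    have hK := Tx_K hm hα hv0 hv hX.le
    have eα : (α : ℝ) * X ^ α = X * ((α : ℝ) * X ^ (α - 1)) := by
      have : α = (α - 1) + 1 := by omega
      rw [this, pow_succ]
      simp only [Nat.add_sub_cancel]
      ring
    have eβ : (β : ℝ) * X ^ β = X * ((β : ℝ) * X ^ (β - 1)) := by
      rcases Nat.eq_zero_or_pos β with h | h
      · rw [h]; simp
      · have : β = (β - 1) + 1 := by omega
        rw [this, pow_succ]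
        simp only [Nat.add_sub_cancel]
        ring
    have e : X * ((-v) * ((α : ℝ) * X ^ α + (β : ℝ) * X ^ β) +
        (1 - v * X) * ((α : ℝ) * ((α : ℝ) * X ^ (α - 1)) + (β : ℝ) * ((β : ℝ) * X ^ (β - 1)))) =
        X ^ β * ((α : ℝ) * X ^ m * ((α : ℝ) - ((α : ℝ) + 1) * v * X) +
      (β : ℝ) * ((β : ℝ) - ((β : ℝ) + 1) * v * X)) := by
      have e1 : X * ((-v) * ((α : ℝ) * X ^ α + (β : ℝ) * X ^ β) +
        (1 - v * X) * ((α : ℝ) * ((α : ℝ) * X ^ (α - 1)) + (β : ℝ) * ((β : ℝ) * X ^ (β - 1)))) =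
        X * ((-v) * ((α : ℝ) * X ^ α + (β : ℝ) * X ^ β)) +
        (1 - v * X) * ((α : ℝ) * (X * ((α : ℝ) * X ^ (α - 1))) +
          (β : ℝ) * (X * ((β : ℝ) * X ^ (β - 1)))) := by ring
      have e2 : X ^ α = X ^ β * X ^ m := by rw [hα, pow_add]
      rw [e1, ← eα, ← eβ, e2]
      ring
    have h1 : X * ((-v) * ((α : ℝ) * X ^ α + (β : ℝ) * X ^ β) +
        (1 - v * X) * ((α : ℝ) * ((α : ℝ) * X ^ (α - 1)) + (β : ℝ) * ((β : ℝ) * X ^ (β - 1)))) ≤ 0 := by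
      rw [e]
      exact mul_nonpos_of_nonneg_of_nonpos (by positivity) hK
    by_contra hc
    push Not at hc
    exact absurd h1 (not_le.mpr (mul_pos hX0 hc))

theorem tx_P {a b : ℕ} (hb : 1 ≤ b) (hab : b < a) {v : ℝ} (hv0 : 0 < v) (hv1 : v < 1)
    (hv : ((a : ℝ) - 1) ^ 2 + ((b : ℝ) - 1) ^ 2 ≤
      v * ((a : ℝ) * ((a : ℝ) - 1) + (b : ℝ) * ((b : ℝ) - 1)))
    {X : ℝ} (hX : 1 ≤ X) (hX1 : X ≤ 1 / v) :
    (1 - v * X) * (((a : ℝ) - 1) * X ^ (a - 1) + ((b : ℝ) - 1) * X ^ (b - 1)) ≤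
      (1 - v) * (((a : ℝ) - 1) + ((b : ℝ) - 1)) := by
  obtain ⟨α, rfl⟩ : ∃ α, a = α + 1 := ⟨a - 1, by omega⟩
  obtain ⟨β, rfl⟩ : ∃ β, b = β + 1 := ⟨b - 1, by omega⟩
  simp only [Nat.cast_add, Nat.cast_one, add_sub_cancel_right] at hv ⊢
  simp only [Nat.add_sub_cancel]
  have h := Tx_anti (m := α - β) (by omega) (by omega) hv0 hv
    (mem_Ici.mpr le_rfl) (mem_Ici.mpr hX) hX
  simpa using h

theorem tx {a b : ℕ} (hb : 1 ≤ b) (hab : b < a) {p v : ℝ} (hp : 0 < p) (hpv : p ≤ v)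
    (hv1 : v < 1)
    (hv : ((a : ℝ) - 1) ^ 2 + ((b : ℝ) - 1) ^ 2 ≤
      v * ((a : ℝ) * ((a : ℝ) - 1) + (b : ℝ) * ((b : ℝ) - 1)))
    (hl : (logit v - logit p) * ((1 - v) * (((a : ℝ) - 1) + ((b : ℝ) - 1))) ≤ 2)
    {X : ℝ} (hX : 1 ≤ X) (hX1 : X ≤ 1 / v) :
    v * (logit v - logit p) * (ps a X + ps b X) ≤ 2 * dd v X := by
  have hv0 : 0 < v := by linarith
  have h1v : 1 < 1 / v := by rw [lt_div_iff₀ hv0]; linarith
  have hT : 0 ≤ logit v - logit p := by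
    unfold logit
    have l1 := Real.log_le_log hp hpv
    have l2 := Real.log_le_log (by linarith : 0 < 1 - v) (by linarith : 1 - v ≤ 1 - p)
    linarith
  have ha : 0 < a := by omega
  have hb0 : 0 < b := by omega
  set T := v * (logit v - logit p) with hTd
  have hT0 : 0 ≤ T := mul_nonneg hv0.le hT
  -- the second derivative
  have hmono : MonotoneOn (fun Y : ℝ => 2 * dd' v Y - T * ((Y ^ (a - 1) - 1) + (Y ^ (b - 1) - 1)))
      (Ico 1 (1 / v)) := by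
    have hd : ∀ Y ∈ Ico (1 : ℝ) (1 / v), HasDerivAt
        (fun Y : ℝ => 2 * dd' v Y - T * ((Y ^ (a - 1) - 1) + (Y ^ (b - 1) - 1)))
        (2 * dd'' v Y - T * (((a - 1 : ℕ) : ℝ) * Y ^ (a - 1 - 1) +
          ((b - 1 : ℕ) : ℝ) * Y ^ (b - 1 - 1))) Y := by
      intro Y hY
      have hY0 : 0 < Y := by linarith [hY.1]
      exact ((hasDerivAt_dd' hv0 hY0 hY.2).const_mul 2).sub
        ((((hasDerivAt_pow (a - 1) Y).sub_const 1).add
          ((hasDerivAt_pow (b - 1) Y).sub_const 1)).const_mul T)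
    apply monotoneOn_of_deriv_nonneg (convex_Ico 1 (1 / v))
    · exact fun Y hY => (hd Y hY).continuousAt.continuousWithinAt
    · exact fun Y hY => (hd Y (interior_subset hY)).differentiableAt.differentiableWithinAt
    · intro Y hY
      have hY' := interior_subset hY
      rw [(hd Y hY').deriv]
      have hY0 : 0 < Y := by linarith [hY'.1]
      have h1Y := one_sub_pos hv0 hY'.2
      have hP := tx_P hb hab hv0 hv1 hv hY'.1 hY'.2.le
      have ea : ((a - 1 : ℕ) : ℝ) * Y ^ (a - 1 - 1) * Y = ((a : ℝ) - 1) * Y ^ (a - 1) := by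
        obtain ⟨α, rfl⟩ : ∃ α, a = α + 2 := ⟨a - 2, by omega⟩
        have e1 : α + 2 - 1 = α + 1 := by omega
        have e2 : α + 1 - 1 = α := by omega
        rw [e1, e2]
        push_cast
        ring
      have eb : ((b - 1 : ℕ) : ℝ) * Y ^ (b - 1 - 1) * Y = ((b : ℝ) - 1) * Y ^ (b - 1) := by
        rcases Nat.lt_or_ge b 2 with h | h
        · have : b = 1 := by omega
          subst this
          simp
        · obtain ⟨β, rfl⟩ : ∃ β, b = β + 2 := ⟨b - 2, by omega⟩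
          have e1 : β + 2 - 1 = β + 1 := by omega
          have e2 : β + 1 - 1 = β := by omega
          rw [e1, e2]
          push_cast
          ring
      have hden : 0 < Y * (1 - v * Y) := mul_pos hY0 h1Y
      have key : (2 * dd'' v Y - T * (((a - 1 : ℕ) : ℝ) * Y ^ (a - 1 - 1) +
          ((b - 1 : ℕ) : ℝ) * Y ^ (b - 1 - 1))) * (Y * (1 - v * Y)) =
          2 * v - T * ((1 - v * Y) * (((a : ℝ) - 1) * Y ^ (a - 1) + ((b : ℝ) - 1) * Y ^ (b - 1))) := by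
        rw [← ea, ← eb]
        unfold dd''
        field_simp
      have hP2 : T * ((1 - v * Y) * (((a : ℝ) - 1) * Y ^ (a - 1) + ((b : ℝ) - 1) * Y ^ (b - 1))) ≤
          T * ((1 - v) * (((a : ℝ) - 1) + ((b : ℝ) - 1))) := mul_le_mul_of_nonneg_left hP hT0
      have hP3 : T * ((1 - v) * (((a : ℝ) - 1) + ((b : ℝ) - 1))) ≤ 2 * v := by
        have := mul_le_mul_of_nonneg_left hl hv0.le
        calc T * ((1 - v) * (((a : ℝ) - 1) + ((b : ℝ) - 1))) =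
            v * ((logit v - logit p) * ((1 - v) * (((a : ℝ) - 1) + ((b : ℝ) - 1)))) := by
              rw [hTd]; ring
          _ ≤ v * 2 := this
          _ = 2 * v := by ring
      by_contra hc
      push Not at hc
      have := mul_neg_of_neg_of_pos hc hden
      rw [key] at this
      linarith
  have hF' : ∀ Y ∈ Ico (1 : ℝ) (1 / v),
      0 ≤ 2 * dd' v Y - T * ((Y ^ (a - 1) - 1) + (Y ^ (b - 1) - 1)) := by
    intro Y hY
    have h := hmono (left_mem_Ico.mpr h1v) hY hY.1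
    simpa [dd'_one] using h
  have hmono2 : MonotoneOn (fun Y : ℝ => 2 * dd v Y - T * (ps a Y + ps b Y)) (Icc 1 (1 / v)) := by
    have hd : ∀ Y ∈ Ioo (1 : ℝ) (1 / v), HasDerivAt
        (fun Y : ℝ => 2 * dd v Y - T * (ps a Y + ps b Y))
        (2 * dd' v Y - T * ((Y ^ (a - 1) - 1) + (Y ^ (b - 1) - 1))) Y := by
      intro Y hY
      have hY0 : 0 < Y := by linarith [hY.1]
      exact ((hasDerivAt_dd hv0 hv1 hY0 hY.2).const_mul 2).sub
        (((hasDerivAt_ps ha Y).add (hasDerivAt_ps hb0 Y)).const_mul T)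
    apply monotoneOn_of_deriv_nonneg (convex_Icc 1 (1 / v))
    · apply ContinuousOn.sub
      · exact continuousOn_const.mul ((continuousOn_dd hv0 hv1).mono
          (Icc_subset_Icc_left (by norm_num)))
      · exact (continuous_const.mul ((continuous_ps a).add (continuous_ps b))).continuousOn
    · rw [interior_Icc]
      exact fun Y hY => (hd Y hY).differentiableAt.differentiableWithinAt
    · rw [interior_Icc]
      intro Y hY
      rw [(hd Y hY).deriv]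
      exact hF' Y ⟨hY.1.le, hY.2⟩
  have h := hmono2 (left_mem_Icc.mpr h1v.le) ⟨hX, hX1⟩ hX
  simp only [dd_one hv0 hv1, ps_one] at h
  linarith

end Pool.Agent.W_bbc525_c1
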