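import Pool.Agent.W_bbc525_c1.Tl
import Pool.Agent.W_bbc525_c1.Tx
import Pool.Agent.W_bbc525_c1.Tr

/-!
# The condition beyond the cusp
-/

set_option autoImplicit false

namespace Pool.Agent.W_bbc525_c1

open Set Pool.Agent.W_MP_bbc525_pr Pool.Agent.W_bbc525_h89 Pool.Agent.W_bbc525_td
  Pool.Agent.W_bbc525_ends Pool.Agent.W_bbc525_b1

/-- the condition for the degrees `a`, `b` -/
def EC (a b : ℕ) (p q : ℝ) : Prop :=
  ∀ r : ℝ, 0 ≤ r → r ≤ 1 →
    q * (logit q - logit p) * (((r / q) ^ a - 1) / (2 * a) + ((r / q) ^ b - 1) / (2 * b)) ≤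
      relEnt p r - relEnt p q

theorem EC_iff {a b : ℕ} {p q : ℝ} (hp : 0 < p) (hpq : p ≤ q) (hq1 : q < 1) :
    EC a b p q ↔ ∀ X, 0 ≤ X → X ≤ 1 / q →
      q * (logit q - logit p) * (ps a X + ps b X) ≤ 2 * dd q X := by
  have hq : 0 < q := lt_of_lt_of_le hp hpq
  have hp1 : p < 1 := by linarith
  have key : ∀ X, 0 ≤ X → X ≤ 1 / q →
      (q * (logit q - logit p) * (ps a X + ps b X) ≤ 2 * dd q X ↔
        q * (logit q - logit p) * ((X ^ a - 1) / (2 * a) + (X ^ b - 1) / (2 * b)) ≤
          relEnt p (q * X) - relEnt p q) := by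
    intro X hX hX1
    have h1 : q * X ≤ 1 := by
      rw [le_div_iff₀ hq] at hX1
      linarith
    rw [relEnt_shift hp hp1 hq hq1 (by positivity) h1]
    unfold dd ps
    have e1 : (X ^ a - 1) / (2 * (a : ℝ)) = (X ^ a - 1) / a / 2 := by
      rw [div_div, mul_comm]
    have e2 : (X ^ b - 1) / (2 * (b : ℝ)) = (X ^ b - 1) / b / 2 := by
      rw [div_div, mul_comm]
    rw [e1, e2]
    constructor <;> intro h <;> linarith
  constructor
  · intro h X hX hX1
    rw [key X hX hX1]
    have h1 : q * X ≤ 1 := by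
      rw [le_div_iff₀ hq] at hX1
      linarith
    have h2 := h (q * X) (by positivity) h1
    rwa [mul_div_cancel_left₀ _ hq.ne'] at h2
  · intro h r hr hr1
    have hX1 : r / q ≤ 1 / q := div_le_div_of_nonneg_right hr1 hq.le
    have h2 := (key (r / q) (by positivity) hX1).1 (h _ (by positivity) hX1)
    rwa [mul_div_cancel₀ _ hq.ne'] at h2

/-- **The condition at a point beyond the cusp implies the condition at all later points.** -/
theorem tail_cond {a b : ℕ} (hb : 1 ≤ b) (hab : b < a) {p c v : ℝ} (hp : 0 < p) (hpc : p ≤ c)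
    (hcv : c ≤ v) (hv1 : v < 1)
    (hc : ((a : ℝ) - 1) ^ 2 + ((b : ℝ) - 1) ^ 2 ≤
      c * ((a : ℝ) * ((a : ℝ) - 1) + (b : ℝ) * ((b : ℝ) - 1)))
    (h : EC a b p c) : EC a b p v := by
  have hc0 : 0 < c := by linarith
  have hc1 : c < 1 := by linarith
  have hv0 : 0 < v := by linarith
  have hb' : (1 : ℝ) ≤ b := by exact_mod_cast hb
  have ha' : (b : ℝ) + 1 ≤ a := by exact_mod_cast hab
  have hden : 0 ≤ (a : ℝ) * ((a : ℝ) - 1) + (b : ℝ) * ((b : ℝ) - 1) := by
    have h2 : 0 ≤ (b : ℝ) * ((b : ℝ) - 1) := mul_nonneg (by linarith) (by linarith)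
    have h3 : 0 ≤ (a : ℝ) * ((a : ℝ) - 1) := mul_nonneg (by linarith) (by linarith)
    linarith
  have hloc0 := tl_of_psi hb hab hp hpc hc1 (fun X hX hX1 => (EC_iff hp hpc hc1).1 h X hX
    (hX1.trans (by
      rw [le_div_iff₀ hc0]
      linarith)))
  have hloc : ∀ x, c ≤ x → x ≤ v →
      (logit x - logit p) * ((1 - x) * (((a : ℝ) - 1) + ((b : ℝ) - 1))) ≤ 2 := fun x hx hxv =>
    tl_mono hb hab hp hpc hx (by linarith) hc hloc0
  intro r hr hr1
  rcases le_or_gt r v with hrv | hrv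
  · obtain ⟨w, hw⟩ : ∃ w, w = max r c := ⟨_, rfl⟩
    have hrw : r ≤ w := by
      rw [hw]
      exact le_max_left _ _
    have hcw : c ≤ w := by
      rw [hw]
      exact le_max_right _ _
    have hwv : w ≤ v := by
      rw [hw]
      exact max_le hrv hcv
    have h1 := tr hb hab hp (hpc.trans hcw) hwv hv1 hr hrw
      (fun x hx hxv => hloc x (hcw.trans hx) hxv)
    have h2 : 0 ≤ relEnt p r - relEnt p w - w * (logit w - logit p) *
        (((r / w) ^ a - 1) / (2 * a) + ((r / w) ^ b - 1) / (2 * b)) := by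
      rcases le_total r c with h3 | h3
      · have e : w = c := by
          rw [hw]
          exact max_eq_right h3
        rw [e]
        have := h r hr hr1
        linarith
      · have e : w = r := by
          rw [hw]
          exact max_eq_left h3
        have hr0 : 0 < r := by linarith
        rw [e, div_self hr0.ne']
        simp
    linarith
  · have hX : 1 ≤ r / v := by
      rw [le_div_iff₀ hv0]
      linarith
    have hX1 : r / v ≤ 1 / v := div_le_div_of_nonneg_right hr1 hv0.le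
    have h1 := tx hb hab hp (hpc.trans hcv) hv1
      (hc.trans (mul_le_mul_of_nonneg_right hcv hden)) (hloc v hcv le_rfl) hX hX1
    have h1v : v * (r / v) = r := mul_div_cancel₀ _ hv0.ne'
    have hp1 : p < 1 := by linarith
    have h2 := relEnt_shift hp hp1 hv0 hv1 hr hr1
    rw [h2]
    unfold dd ps at h1
    rw [h1v] at h1
    have e1 : ((r / v) ^ a - 1) / (2 * (a : ℝ)) = ((r / v) ^ a - 1) / a / 2 := by
      rw [div_div, mul_comm]
    have e2 : ((r / v) ^ b - 1) / (2 * (b : ℝ)) = ((r / v) ^ b - 1) / b / 2 := by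
      rw [div_div, mul_comm]
    have e3 : v * (logit v - logit p) * (r / v - 1) = (logit v - logit p) * (r - v) := by
      field_simp
    rw [e1, e2]
    linarith

theorem EC_self {a b : ℕ} {p : ℝ} (hp : 0 < p) (hp1 : p < 1) : EC a b p p := by
  intro r hr hr1
  rw [sub_self, mul_zero, zero_mul, relEnt_self hp hp1, sub_zero]
  exact relEnt_nonneg hp hp1 hr hr1

/-- if the condition holds on `[p, q]` and fails somewhere, then `q` is below the cusp -/
theorem below_cusp {a b : ℕ} (hb : 1 ≤ b) (hab : b < a) {p q w : ℝ} (hp : 0 < p) (hpq : p ≤ q)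
    (hpw : p ≤ w) (hw1 : w < 1)
    (h : ∀ v, p ≤ v → v ≤ q → EC a b p v) (hw : ¬ EC a b p w) :
    q * ((a : ℝ) * ((a : ℝ) - 1) + (b : ℝ) * ((b : ℝ) - 1)) ≤
      ((a : ℝ) - 1) ^ 2 + ((b : ℝ) - 1) ^ 2 := by
  by_contra hcon
  push Not at hcon
  have hqw : q < w := by
    by_contra h1
    push Not at h1
    exact hw (h w hpw h1)
  exact hw (tail_cond hb hab hp hpq hqw.le hw1 hcon.le (h q hpq le_rfl))

end Pool.Agent.W_bbc525_c1
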