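import Mathlib

/-!
# A monotone function

PROOF. `g w = c w / (w^(2b-1) (1-w)^2)`, `c w = b w - b + 1`, on `((b-1)/b, 1)`; the sign of the
derivative is that of `b w u - (2b-1) c u + 2 w c` with `u = 1 - w`, `c = 1 - b u`: it equals
`2 - (3b+1) u + 2 b^2 u^2`, positive because the discriminant `(3b+1)^2 - 16 b^2 =
-7 b^2 + 6 b + 1` is negative for `b ≥ 2`
(`8 b^2 (2 - (3b+1) u + 2 b^2 u^2) = (4 b^2 u - (3b+1))^2 + 16 b^2 - (3b+1)^2`).
-/

set_option autoImplicit false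

namespace Pool.Agent.W_bbc525_c1

theorem g2_quad {b w : ℝ} (hb : 2 ≤ b) :
    0 ≤ 2 - (3 * b + 1) * (1 - w) + 2 * b ^ 2 * (1 - w) ^ 2 := by
  have h1 : 8 * b ^ 2 * (2 - (3 * b + 1) * (1 - w) + 2 * b ^ 2 * (1 - w) ^ 2)
      = (4 * b ^ 2 * (1 - w) - (3 * b + 1)) ^ 2 + (16 * b ^ 2 - (3 * b + 1) ^ 2) := by ring
  have h2 : 0 ≤ 16 * b ^ 2 - (3 * b + 1) ^ 2 := by nlinarith
  have h3 : 0 ≤ 8 * b ^ 2 * (2 - (3 * b + 1) * (1 - w) + 2 * b ^ 2 * (1 - w) ^ 2) := by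
    rw [h1]; positivity
  have h4 : 0 < 8 * b ^ 2 := by positivity
  exact nonneg_of_mul_nonneg_right h3 h4

theorem g2_mono {b : ℕ} (hb : 2 ≤ b) {x y : ℝ} (hx0 : 0 < x) (hx : 0 < (b : ℝ) * x - b + 1)
    (hxy : x ≤ y) (hy : y < 1) :
    ((b : ℝ) * x - b + 1) / (x ^ (2 * b - 1) * (1 - x) ^ 2) ≤
      ((b : ℝ) * y - b + 1) / (y ^ (2 * b - 1) * (1 - y) ^ 2) := by
  obtain ⟨k, hk⟩ : ∃ k : ℕ, 2 * b - 1 = k + 1 := ⟨2 * b - 2, by omega⟩
  have hkr : ((k : ℝ) + 1) = 2 * (b : ℝ) - 1 := by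
    have h : 2 * b = k + 2 := by omega
    have h2 : (2 : ℝ) * (b : ℝ) = (k : ℝ) + 2 := by exact_mod_cast h
    linarith
  rw [hk]
  have hbr : (2 : ℝ) ≤ (b : ℝ) := by exact_mod_cast hb
  have hder : ∀ w : ℝ, 0 < w → w < 1 →
      HasDerivAt (fun w : ℝ => ((b : ℝ) * w - b + 1) / (w ^ (k + 1) * (1 - w) ^ 2))
        (((b : ℝ) * (w ^ (k + 1) * (1 - w) ^ 2) - ((b : ℝ) * w - b + 1) *
          (((k : ℝ) + 1) * w ^ k * (1 - w) ^ 2 + w ^ (k + 1) * (2 * (1 - w) * (-1)))) /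
          (w ^ (k + 1) * (1 - w) ^ 2) ^ 2) w := by
    intro w hw0 hw1
    have hne : w ^ (k + 1) * (1 - w) ^ 2 ≠ 0 := by
      have : 0 < 1 - w := by linarith
      positivity
    have h1 : HasDerivAt (fun w : ℝ => (b : ℝ) * w - b + 1) (b : ℝ) w := by
      have := (((hasDerivAt_id w).const_mul (b : ℝ)).sub_const (b : ℝ)).add_const (1 : ℝ)
      simpa using this
    have h2 : HasDerivAt (fun w : ℝ => w ^ (k + 1)) (((k : ℝ) + 1) * w ^ k) w := by
      have := hasDerivAt_pow (k + 1) w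
      simpa using this
    have h3 : HasDerivAt (fun w : ℝ => (1 - w) ^ 2) (2 * (1 - w) * (-1)) w := by
      have h0 : HasDerivAt (fun w : ℝ => 1 - w) (-1) w := by
        simpa using (hasDerivAt_id w).const_sub (1 : ℝ)
      have h := h0.fun_pow 2
      simpa using h
    have h4 := h2.mul h3
    exact h1.div h4 hne
  have hmono : MonotoneOn (fun w : ℝ => ((b : ℝ) * w - b + 1) / (w ^ (k + 1) * (1 - w) ^ 2))
      (Set.Icc x y) := by
    apply monotoneOn_of_deriv_nonneg (convex_Icc x y)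
    · intro w hw
      exact (hder w (lt_of_lt_of_le hx0 hw.1) (lt_of_le_of_lt hw.2 hy)).continuousAt.continuousWithinAt
    · intro w hw
      rw [interior_Icc] at hw
      exact (hder w (hx0.trans hw.1) (hw.2.trans hy)).differentiableAt.differentiableWithinAt
    · intro w hw
      rw [interior_Icc] at hw
      have hw0 : 0 < w := hx0.trans hw.1
      have hw1 : 0 < 1 - w := by linarith [hw.2.trans hy]
      rw [(hder w hw0 (hw.2.trans hy)).deriv]
      apply div_nonneg _ (by positivity)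
      have heq : (b : ℝ) * (w ^ (k + 1) * (1 - w) ^ 2) - ((b : ℝ) * w - b + 1) *
          (((k : ℝ) + 1) * w ^ k * (1 - w) ^ 2 + w ^ (k + 1) * (2 * (1 - w) * (-1)))
          = w ^ k * (1 - w) * (2 - (3 * (b : ℝ) + 1) * (1 - w) + 2 * (b : ℝ) ^ 2 * (1 - w) ^ 2) := by
        rw [hkr]; ring
      rw [heq]
      have := g2_quad (w := w) hbr
      positivity
  exact hmono (Set.left_mem_Icc.mpr hxy) (Set.right_mem_Icc.mpr hxy) hxy

end Pool.Agent.W_bbc525_c1
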