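import Pool.Agent.W_bbc525_c1.G1
import Pool.Agent.W_bbc525_c1.G2

/-!
# The sign of a derivative

PROOF. Let `c x = b (v x) - (b-1)`, `D x = (2b-1) Z - (b-1) x^b > 0`, `R x = Z - x^b > 0`
(`x < 1/v`, `x^b < (1/v)^b ≤ Z`), `w = v x < 1`. For `0 < x < 1/v`:
`Ed x = v c x / (x (1-w)^2) - L x^(2b-2) D x / (R x)^2`. From `0 ≤ Ed x` and `L > 0`: `c x > 0`;
then `c y > c x > 0`. After multiplying by positive factors, `0 ≤ Ed x` is
`L D x ≤ v c x (R x)^2 / (x^(2b-1) (1 - v x)^2)`, and the claim is the same inequality, strict,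
at `y`. Left side: `D y < D x` strictly (`b ≥ 2`), so it is enough that
`Q x = c x (R x)^2 / (x^(2b-1) (1 - v x)^2)` satisfies `Q x ≤ Q y`.
With `w = v x`, `w' = v y` and `ζ = Z v^b ≥ 1`: `R x = v^(-b) (ζ - w^b)`,
`(ζ - w^b)/(1 - w) = G w + (ζ - 1)/(1 - w)`, `G w = Σ_{i<b} w^i` (`(1 - w) G w = 1 - w^b`),
`x^(2b-1) = w^(2b-1) / v^(2b-1)`. So with `κ w = c / w^(2b-1)`,
`Q = v^(-1) * κ w (G w + (ζ-1)/(1-w))^2` (`v^(2b-1) v^(-2b) = v^(-1)`). By `g1_mono`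
`κ w (G w)^2 ≤ κ w' (G w')^2` and by `g2_mono` `κ w /(1-w)^2 ≤ κ w' /(1-w')^2`; taking square
roots (`Real.sqrt`, everything positive): `√κ G` and `√κ /(1-w)` are nondecreasing, so
`√κ (G + (ζ-1)/(1-w))` is, and its square is `κ (G + (ζ-1)/(1-w))^2`.
-/

set_option autoImplicit false

namespace Pool.Agent.W_bbc525_c1

open Finset

/-- the derivative of `v/(1 - vX) - (b-1)(dd' v X + T) - L X^(2b-1)/(Z - X^b)` -/
noncomputable def Ed (b : ℕ) (v Z L X : ℝ) : ℝ :=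
  v * ((b : ℝ) * (v * X) - ((b : ℝ) - 1)) / (X * (1 - v * X) ^ 2) -
    L * X ^ (2 * b - 2) * ((2 * (b : ℝ) - 1) * Z - ((b : ℝ) - 1) * X ^ b) / (Z - X ^ b) ^ 2

/-- the part of the derivative without the factor in `D` -/
noncomputable def EuQ (b : ℕ) (v Z X : ℝ) : ℝ :=
  ((b : ℝ) * (v * X) - ((b : ℝ) - 1)) * (Z - X ^ b) ^ 2 / (X ^ (2 * b - 1) * (1 - v * X) ^ 2)

theorem Eu_factor {b : ℕ} (hb : 2 ≤ b) {v Z L X : ℝ} (hX : 0 < X) (h1 : 0 < 1 - v * X)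
    (hR : 0 < Z - X ^ b) :
    Ed b v Z L X = X ^ (2 * b - 2) / (Z - X ^ b) ^ 2 *
      (v * EuQ b v Z X - L * ((2 * (b : ℝ) - 1) * Z - ((b : ℝ) - 1) * X ^ b)) := by
  have e1 : X ^ (2 * b - 1) = X ^ (2 * b - 2) * X := by
    rw [← pow_succ]
    congr 1
    omega
  unfold Ed EuQ
  rw [e1]
  have hp : 0 < X ^ (2 * b - 2) := pow_pos hX _
  generalize X ^ (2 * b - 2) = P at hp ⊢
  generalize hRR : Z - X ^ b = R at hR ⊢
  field_simp

theorem Eu_geom {b : ℕ} {w : ℝ} (hw1 : w < 1) (ζ : ℝ) :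
    (ζ - w ^ b) / (1 - w) = (∑ i ∈ range b, w ^ i) + (ζ - 1) / (1 - w) := by
  have h0 : 1 - w ≠ 0 := by
    have : 0 < 1 - w := by linarith
    exact this.ne'
  have h1 : (∑ i ∈ range b, w ^ i) * (1 - w) = 1 - w ^ b := by
    have := geom_sum_mul w b
    linarith [this]
  rw [eq_comm, ← sub_eq_zero]
  field_simp
  linarith

theorem Eu_kS {b : ℕ} (hb : 2 ≤ b) {w w' ζ : ℝ} (hw0 : 0 < w) (hc : 0 < (b : ℝ) * w - b + 1)
    (hww : w ≤ w') (hw1 : w' < 1) (hζ : 1 ≤ ζ) :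
    ((b : ℝ) * w - b + 1) * (ζ - w ^ b) ^ 2 / (w ^ (2 * b - 1) * (1 - w) ^ 2) ≤
      ((b : ℝ) * w' - b + 1) * (ζ - w' ^ b) ^ 2 / (w' ^ (2 * b - 1) * (1 - w') ^ 2) := by
  have h1 := g1_mono hb hw0 hc hww hw1
  have h2 := g2_mono hb hw0 hc hww hw1
  have hw0' : 0 < w' := lt_of_lt_of_le hw0 hww
  have hb0 : (0 : ℝ) < (b : ℝ) := by
    have : 0 < b := by omega
    exact_mod_cast this
  have hc' : 0 < (b : ℝ) * w' - b + 1 := by nlinarith
  have hu : 0 < 1 - w := by linarith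
  have hu' : 0 < 1 - w' := by linarith
  have hG : 0 ≤ ∑ i ∈ range b, w ^ i := Finset.sum_nonneg fun i _ => pow_nonneg hw0.le i
  have hG' : 0 ≤ ∑ i ∈ range b, w' ^ i := Finset.sum_nonneg fun i _ => pow_nonneg hw0'.le i
  have key : ∀ t : ℝ, 0 < t → t < 1 →
      ((b : ℝ) * t - b + 1) * (ζ - t ^ b) ^ 2 / (t ^ (2 * b - 1) * (1 - t) ^ 2) =
        ((b : ℝ) * t - b + 1) * (∑ i ∈ range b, t ^ i) ^ 2 / t ^ (2 * b - 1) +
        2 * (ζ - 1) * (((b : ℝ) * t - b + 1) * (∑ i ∈ range b, t ^ i) /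
          (t ^ (2 * b - 1) * (1 - t))) +
        (ζ - 1) ^ 2 * (((b : ℝ) * t - b + 1) / (t ^ (2 * b - 1) * (1 - t) ^ 2)) := by
    intro t ht0 ht1
    have htu : 0 < 1 - t := by linarith
    have hg := Eu_geom (b := b) ht1 ζ
    have hp : 0 < t ^ (2 * b - 1) := pow_pos ht0 _
    have e : ((b : ℝ) * t - b + 1) * (ζ - t ^ b) ^ 2 / (t ^ (2 * b - 1) * (1 - t) ^ 2) =
        ((b : ℝ) * t - b + 1) / t ^ (2 * b - 1) * ((ζ - t ^ b) / (1 - t)) ^ 2 := by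
      field_simp
    rw [e, hg]
    field_simp
    ring
  rw [key w hw0 (lt_of_le_of_lt hww hw1), key w' hw0' hw1]
  have hp : 0 < w ^ (2 * b - 1) := pow_pos hw0 _
  have hp' : 0 < w' ^ (2 * b - 1) := pow_pos hw0' _
  have hmid : ((b : ℝ) * w - b + 1) * (∑ i ∈ range b, w ^ i) / (w ^ (2 * b - 1) * (1 - w)) ≤
      ((b : ℝ) * w' - b + 1) * (∑ i ∈ range b, w' ^ i) / (w' ^ (2 * b - 1) * (1 - w')) := by
    have hsq : (((b : ℝ) * w - b + 1) * (∑ i ∈ range b, w ^ i) /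
          (w ^ (2 * b - 1) * (1 - w))) ^ 2 ≤
        (((b : ℝ) * w' - b + 1) * (∑ i ∈ range b, w' ^ i) / (w' ^ (2 * b - 1) * (1 - w'))) ^ 2 := by
      have e1 : ∀ t : ℝ, 0 < t → t < 1 →
          (((b : ℝ) * t - b + 1) * (∑ i ∈ range b, t ^ i) / (t ^ (2 * b - 1) * (1 - t))) ^ 2 =
          ((b : ℝ) * t - b + 1) * (∑ i ∈ range b, t ^ i) ^ 2 / t ^ (2 * b - 1) *
          (((b : ℝ) * t - b + 1) / (t ^ (2 * b - 1) * (1 - t) ^ 2)) := by
        intro t ht0 ht1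
        have htu : 0 < 1 - t := by linarith
        have hq : 0 < t ^ (2 * b - 1) := pow_pos ht0 _
        field_simp
      rw [e1 w hw0 (lt_of_le_of_lt hww hw1), e1 w' hw0' hw1]
      exact mul_le_mul h1 h2 (by positivity) (by positivity)
    exact (sq_le_sq₀ (by positivity) (by positivity)).mp hsq
  have a1 : 0 ≤ 2 * (ζ - 1) := by linarith
  have a2 : 0 ≤ (ζ - 1) ^ 2 := sq_nonneg _
  have m1 := mul_le_mul_of_nonneg_left hmid a1
  have m2 := mul_le_mul_of_nonneg_left h2 a2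
  linarith

theorem Eu_Qscale {b : ℕ} (hb : 2 ≤ b) {v Z X : ℝ} (hv : 0 < v) (hX : 0 < X)
    (h1 : 0 < 1 - v * X) :
    v * EuQ b v Z X = ((b : ℝ) * (v * X) - b + 1) * (Z * v ^ b - (v * X) ^ b) ^ 2 /
      ((v * X) ^ (2 * b - 1) * (1 - v * X) ^ 2) := by
  unfold EuQ
  have e1 : Z * v ^ b - (v * X) ^ b = v ^ b * (Z - X ^ b) := by rw [mul_pow]; ring
  have e2 : (v ^ b) ^ 2 = v * v ^ (2 * b - 1) := by
    rw [← pow_mul, ← pow_succ']
    congr 1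
    omega
  rw [e1, mul_pow, e2, mul_pow]
  have hp : 0 < v ^ (2 * b - 1) := pow_pos hv _
  have hq : 0 < X ^ (2 * b - 1) := pow_pos hX _
  generalize v ^ (2 * b - 1) = P at hp ⊢
  generalize X ^ (2 * b - 1) = Q at hq ⊢
  generalize hu : 1 - v * X = u at h1 ⊢
  field_simp
  ring

theorem Ed_up {b : ℕ} (hb : 2 ≤ b) {v Z L : ℝ} (hv : 0 < v) (hv1 : v < 1)
    (hZ : (1 / v) ^ b ≤ Z) (hL : 0 < L) {x y : ℝ} (hx : 0 < x) (hxy : x < y) (hy : y < 1 / v)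
    (h : 0 ≤ Ed b v Z L x) : 0 < Ed b v Z L y := by
  have hy0 : 0 < y := lt_trans hx hxy
  have hb1 : (2 : ℝ) ≤ (b : ℝ) := by exact_mod_cast hb
  have hvy : v * y < 1 := by
    rw [lt_div_iff₀ hv] at hy
    linarith
  have hvx : v * x < 1 := lt_trans (mul_lt_mul_of_pos_left hxy hv) hvy
  have hux : 0 < 1 - v * x := by linarith
  have huy : 0 < 1 - v * y := by linarith
  have hby : y ^ b < Z := lt_of_lt_of_le (pow_lt_pow_left₀ hy hy0.le (by omega)) hZ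
  have hbxy : x ^ b < y ^ b := pow_lt_pow_left₀ hxy hx.le (by omega)
  have hRx : 0 < Z - x ^ b := by linarith
  have hRy : 0 < Z - y ^ b := by linarith
  have hZ0 : 0 < Z := lt_trans (pow_pos hy0 b) hby
  have hζ : 1 ≤ Z * v ^ b := by
    have h1 : (1 / v) ^ b * v ^ b = 1 := by
      rw [← mul_pow, one_div, inv_mul_cancel₀ hv.ne', one_pow]
    have h2 := mul_le_mul_of_nonneg_right hZ (pow_nonneg hv.le b)
    linarith
  have hDx : 0 < (2 * (b : ℝ) - 1) * Z - ((b : ℝ) - 1) * x ^ b := by nlinarith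
  have hDxy : (2 * (b : ℝ) - 1) * Z - ((b : ℝ) - 1) * y ^ b <
      (2 * (b : ℝ) - 1) * Z - ((b : ℝ) - 1) * x ^ b := by nlinarith
  rw [Eu_factor hb hx hux hRx] at h
  have hfx : 0 < x ^ (2 * b - 2) / (Z - x ^ b) ^ 2 := by positivity
  have hfy : 0 < y ^ (2 * b - 2) / (Z - y ^ b) ^ 2 := by positivity
  have h' : 0 ≤ v * EuQ b v Z x - L * ((2 * (b : ℝ) - 1) * Z - ((b : ℝ) - 1) * x ^ b) :=
    nonneg_of_mul_nonneg_right h hfx
  have hQx : 0 < v * EuQ b v Z x := by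
    have := mul_pos hL hDx
    linarith
  have hcx : 0 < (b : ℝ) * (v * x) - b + 1 := by
    by_contra hcon
    push Not at hcon
    have hle : v * EuQ b v Z x ≤ 0 := by
      unfold EuQ
      have e : ((b : ℝ) * (v * x) - ((b : ℝ) - 1)) ≤ 0 := by linarith
      have h3 : ((b : ℝ) * (v * x) - ((b : ℝ) - 1)) * (Z - x ^ b) ^ 2 ≤ 0 :=
        mul_nonpos_of_nonpos_of_nonneg e (sq_nonneg _)
      have h4 : ((b : ℝ) * (v * x) - ((b : ℝ) - 1)) * (Z - x ^ b) ^ 2 /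
          (x ^ (2 * b - 1) * (1 - v * x) ^ 2) ≤ 0 :=
        div_nonpos_of_nonpos_of_nonneg h3 (by positivity)
      exact mul_nonpos_of_nonneg_of_nonpos hv.le h4
    linarith
  have hQ : v * EuQ b v Z x ≤ v * EuQ b v Z y := by
    rw [Eu_Qscale hb hv hx hux, Eu_Qscale hb hv hy0 huy]
    exact Eu_kS hb (mul_pos hv hx) hcx (mul_le_mul_of_nonneg_left hxy.le hv.le) hvy hζ
  rw [Eu_factor hb hy0 huy hRy]
  refine mul_pos hfy ?_
  have hLD := mul_lt_mul_of_pos_left hDxy hL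
  linarith

end Pool.Agent.W_bbc525_c1
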