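import Pool.Agent.W_bbc525_c1.C0
import Pool.Agent.W_bbc525_c1.Eu

/-!
# The comparison with the relative entropy

PROOF. `four_zero` (W_bbc525_td/Shape.lean) with `ω = (1/v)^b` (`≤ Z`),
`f x = Af b v S x - μ bt Z x`, `f' x = Af' b v S x - μ bt' Z x`,
`f'' x = Af'' b v S x - μ (1/(Z - x))`, `a = 1`, `b = Y` (`Af_one`, `Af'_one`, `bt_one`,
`bt'_one`, `e0`, `e1`, `hasDerivAt_Af`, `hasDerivAt_Af'`, `hasDerivAt_bt`, `hasDerivAt_bt'`).
The condition `hP`: put `L = b^2 μ > 0` and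
`Eo X = v/(1 - v X) - (b-1) (dd' v X + S) - L X^(2b-1)/(Z - X^b)` for `0 < X < 1/v`. Then
`f'' x = X/(b^2 x^2) * Eo X` with `X = rt b x`, `X^b = x` (`rt_pow`; the last term:
`X/(b^2 x^2) * b^2 μ X^(2b-1)/(Z - x) = μ X^(2b)/(x^2 (Z - x)) = μ/(Z - x)`), so `f'' x` has the
sign of `Eo (rt b x)`, and `rt b` is strictly increasing. `Eo` has on `(0, 1/v)` the derivative
`Ed b v Z L X` (`hasDerivAt_dd'`, `dd'' v X = v/(X (1 - v X))`:
`v^2/(1-vX)^2 - (b-1) v/(X(1-vX)) = v (b (vX) - (b-1))/(X (1-vX)^2)` and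
`d/dX X^(2b-1)/(Z - X^b) = X^(2b-2) ((2b-1)(Z - X^b) + b X^b)/(Z - X^b)^2`).
Let `X < X' < X''` with `Eo X ≤ 0`, `Eo X'' ≤ 0`; suppose `Eo X' ≥ 0`. By the mean value
theorem there is `ξ ∈ (X, X')` with `Ed ξ = (Eo X' - Eo X)/(X' - X) ≥ 0`; by `Ed_up`, `Ed > 0` on
`(ξ, 1/v)`, so `Eo X'' > Eo X' ≥ 0` (mean value theorem on `(X', X'')`). Contradiction. So
`Eo X' < 0`.
-/

set_option autoImplicit false

namespace Pool.Agent.W_bbc525_c1

open Set Pool.Agent.W_MP_bbc525_pr Pool.Agent.W_bbc525_h89 Pool.Agent.W_bbc525_td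
  Pool.Agent.W_bbc525_ends

/-- the auxiliary function -/
noncomputable def A2_Eo (b : ℕ) (v S Z L X : ℝ) : ℝ :=
  v / (1 - v * X) - ((b : ℝ) - 1) * (dd' v X + S) - L * (X ^ (2 * b - 1) / (Z - X ^ b))

theorem A2_pos {b : ℕ} (hb : 2 ≤ b) {v Z : ℝ} (hv : 0 < v) (hZ : (1 / v) ^ b ≤ Z) {X : ℝ}
    (hX : 0 < X) (hX1 : X < 1 / v) : 0 < Z - X ^ b := by
  have h := pow_lt_pow_left₀ hX1 hX.le (by omega : b ≠ 0)
  linarith

theorem A2_deriv {b : ℕ} (hb : 2 ≤ b) {v S Z L : ℝ} (hv : 0 < v)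
    (hZ : (1 / v) ^ b ≤ Z) {X : ℝ} (hX : 0 < X) (hX1 : X < 1 / v) :
    HasDerivAt (A2_Eo b v S Z L) (Ed b v Z L X) X := by
  have h0 := A2_pos hb hv hZ hX hX1
  have h1 := one_sub_pos hv hX1
  obtain ⟨c, rfl⟩ : ∃ c, b = c + 2 := ⟨b - 2, by omega⟩
  have l1 : HasDerivAt (fun X : ℝ => v * X) v X := by
    simpa using (hasDerivAt_id X).const_mul v
  have l2 : HasDerivAt (fun X : ℝ => 1 - v * X) (-v) X := l1.const_sub 1
  have d1 : HasDerivAt (fun X : ℝ => v / (1 - v * X)) (v * v / (1 - v * X) ^ 2) X := by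
    have h := (hasDerivAt_const X v).div l2 h1.ne'
    refine h.congr_deriv ?_
    ring
  have d2 := ((hasDerivAt_dd' hv hX hX1).add_const S).const_mul (((c + 2 : ℕ) : ℝ) - 1)
  have d3 : HasDerivAt (fun X : ℝ => X ^ (2 * (c + 2) - 1)) ((2 * (c : ℝ) + 3) * X ^ (2 * c + 2)) X := by
    have h := hasDerivAt_pow (2 * (c + 2) - 1) X
    refine h.congr_deriv ?_
    have e1 : 2 * (c + 2) - 1 - 1 = 2 * c + 2 := by omega
    have e2 : 2 * (c + 2) - 1 = 2 * c + 3 := by omega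
    rw [e1, e2]
    push_cast
    ring
  have d4 : HasDerivAt (fun X : ℝ => Z - X ^ (c + 2)) (-(((c : ℝ) + 2) * X ^ (c + 1))) X := by
    have h := (hasDerivAt_pow (c + 2) X).const_sub Z
    refine h.congr_deriv ?_
    have e1 : c + 2 - 1 = c + 1 := by omega
    rw [e1]
    push_cast
    ring
  have d5 := (d3.div d4 h0.ne').const_mul L
  have h := (d1.sub d2).sub d5
  refine h.congr_deriv ?_
  unfold Ed dd''
  have e1 : 2 * (c + 2) - 1 = 2 * c + 3 := by omega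
  have e2 : 2 * (c + 2) - 2 = 2 * c + 2 := by omega
  rw [e1, e2]
  push_cast
  have a1 : (v * v / (1 - v * X) ^ 2 - (((c : ℝ) + 2) - 1) * (v / (X * (1 - v * X)))) =
      v * (((c : ℝ) + 2) * (v * X) - (((c : ℝ) + 2) - 1)) / (X * (1 - v * X) ^ 2) := by
    field_simp
    ring
  rw [a1]
  congr 1
  have a2 : X ^ (2 * c + 3) * -(((c : ℝ) + 2) * X ^ (c + 1)) =
      -(((c : ℝ) + 2) * (X ^ (2 * c + 2) * X ^ (c + 2))) := by
    have : X ^ (2 * c + 3) * X ^ (c + 1) = X ^ (2 * c + 2) * X ^ (c + 2) := by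
      rw [← pow_add, ← pow_add]
      congr 1
      omega
    linear_combination (-((c : ℝ) + 2)) * this
  rw [a2]
  ring

theorem A2_eq {b : ℕ} (hb : 2 ≤ b) {v S Z μ : ℝ} (hv : 0 < v)
    (hZ : (1 / v) ^ b ≤ Z) {x : ℝ} (hx : 0 < x) (hx1 : x < (1 / v) ^ b) :
    Af'' b v S x - μ * (1 / (Z - x)) =
      rt b x / ((b : ℝ) ^ 2 * x ^ 2) * A2_Eo b v S Z ((b : ℝ) ^ 2 * μ) (rt b x) := by
  have hb1 : 1 ≤ b := by omega
  have hX := rt_pos b hx
  have hXx : rt b x ^ b = x := rt_pow hb1 hx.le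
  have hbR : (0 : ℝ) < b := by exact_mod_cast (by omega : 0 < b)
  have hZx : 0 < Z - x := by linarith
  unfold Af'' A2_Eo
  rw [hXx]
  have key : rt b x / ((b : ℝ) ^ 2 * x ^ 2) * ((b : ℝ) ^ 2 * μ * (rt b x ^ (2 * b - 1) / (Z - x))) =
      μ * (1 / (Z - x)) := by
    have e : rt b x * rt b x ^ (2 * b - 1) = x ^ 2 := by
      rw [← pow_succ', show 2 * b - 1 + 1 = b * 2 by omega, pow_mul, hXx]
    have e2 : rt b x / ((b : ℝ) ^ 2 * x ^ 2) * ((b : ℝ) ^ 2 * μ * (rt b x ^ (2 * b - 1) / (Z - x))) =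
        (rt b x * rt b x ^ (2 * b - 1)) * μ / (x ^ 2 * (Z - x)) := by
      field_simp
    rw [e2, e]
    field_simp
  linear_combination key

theorem A2_sign {b : ℕ} (hb : 2 ≤ b) {v S Z μ : ℝ} (hv : 0 < v)
    (hZ : (1 / v) ^ b ≤ Z) {x : ℝ} (hx : 0 < x) (hx1 : x < (1 / v) ^ b) :
    0 < rt b x / ((b : ℝ) ^ 2 * x ^ 2) := by
  have hX := rt_pos b hx
  have hbR : (0 : ℝ) < b := by exact_mod_cast (by omega : 0 < b)
  positivity

theorem A2_unimodal {b : ℕ} (hb : 2 ≤ b) {v S Z L : ℝ} (hv : 0 < v) (hv1 : v < 1)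
    (hZ : (1 / v) ^ b ≤ Z) (hL : 0 < L) {X Y W : ℝ} (hX : 0 < X) (hXY : X < Y) (hYW : Y < W)
    (hW : W < 1 / v) (h1 : A2_Eo b v S Z L X ≤ 0) (h3 : A2_Eo b v S Z L W ≤ 0) :
    A2_Eo b v S Z L Y < 0 := by
  by_contra hcon
  push Not at hcon
  have hd : ∀ x, 0 < x → x < 1 / v → HasDerivAt (A2_Eo b v S Z L) (Ed b v Z L x) x :=
    fun x hx hx1 => A2_deriv hb hv hZ hx hx1
  obtain ⟨ξ, hξ, hξe⟩ := exists_hasDerivAt_eq_slope (A2_Eo b v S Z L) (Ed b v Z L) hXY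
    (fun x hx => (hd x (by linarith [hx.1]) (by linarith [hx.2])).continuousAt.continuousWithinAt)
    (fun x hx => hd x (by linarith [hx.1]) (by linarith [hx.2]))
  obtain ⟨η, hη, hηe⟩ := exists_hasDerivAt_eq_slope (A2_Eo b v S Z L) (Ed b v Z L) hYW
    (fun x hx => (hd x (by linarith [hx.1]) (by linarith [hx.2])).continuousAt.continuousWithinAt)
    (fun x hx => hd x (by linarith [hx.1]) (by linarith [hx.2]))
  have g1 : 0 ≤ Ed b v Z L ξ := by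
    rw [hξe]
    apply div_nonneg <;> linarith
  have g2 := Ed_up hb hv hv1 hZ hL (by linarith [hξ.1] : 0 < ξ) (hξ.2.trans hη.1)
    (by linarith [hη.2]) g1
  rw [hηe] at g2
  have h5 : 0 < W - Y := by linarith
  have h6 := (div_pos_iff_of_pos_right h5).1 g2
  linarith

theorem a2_all {b : ℕ} (hb : 2 ≤ b) {v S Z Y μ : ℝ} (hv : 0 < v) (hv1 : v < 1)
    (hZ : (1 / v) ^ b ≤ Z) (hμ : 0 < μ) (hY : 1 < Y) (hY1 : Y < (1 / v) ^ b)
    (e0 : Af b v S Y = μ * bt Z Y) (e1 : Af' b v S Y = μ * bt' Z Y) :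
    (∀ x, 0 < x → x < (1 / v) ^ b → 0 ≤ Af b v S x - μ * bt Z x) ∧
      (∀ x, 0 < x → x ≤ 1 → 0 < Af'' b v S x - μ * (1 / (Z - x))) := by
  have hb1 : 1 ≤ b := by omega
  have hbR : (0 : ℝ) < b := by exact_mod_cast (by omega : 0 < b)
  have hZ1 : 1 < Z := by linarith
  have hL : 0 < (b : ℝ) ^ 2 * μ := by positivity
  have hiv : 0 < 1 / v := by positivity
  have hrt : ∀ x, 0 < x → x < (1 / v) ^ b → rt b x < 1 / v :=
    fun x hx hx1 => rt_lt hb1 hx.le hiv.le hx1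
  have hmono : ∀ x y, 0 < x → x < y → rt b x < rt b y := by
    intro x y hx hxy
    apply rt_lt hb1 hx.le (rt_nonneg b (hx.trans hxy).le)
    rw [rt_pow hb1 (hx.trans hxy).le]
    exact hxy
  have h := four_zero (f := fun x => Af b v S x - μ * bt Z x)
    (f' := fun x => Af' b v S x - μ * bt' Z x)
    (f'' := fun x => Af'' b v S x - μ * (1 / (Z - x))) (ω := (1 / v) ^ b)
    (fun x hx => (hasDerivAt_Af hb1 hv hv1 S hx.1 hx.2).sub
      ((hasDerivAt_bt hZ1 (by linarith [hx.2])).const_mul μ))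
    (fun x hx => (hasDerivAt_Af' hb1 hv hv1 S hx.1 hx.2).sub
      ((hasDerivAt_bt' hZ1 (by linarith [hx.2])).const_mul μ))
    ?_ one_pos hY hY1 ?_ ?_ ?_ ?_
  · exact ⟨h.1, h.2.1⟩
  · intro x y z hx hxy hyz hz hfx hfz
    show Af'' b v S y - μ * (1 / (Z - y)) < 0
    have hfx' : Af'' b v S x - μ * (1 / (Z - x)) ≤ 0 := hfx
    have hfz' : Af'' b v S z - μ * (1 / (Z - z)) ≤ 0 := hfz
    have hy : 0 < y := hx.trans hxy
    have hz0 : 0 < z := hy.trans hyz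
    rw [A2_eq hb hv hZ hx (by linarith)] at hfx'
    rw [A2_eq hb hv hZ hz0 hz] at hfz'
    rw [A2_eq hb hv hZ hy (by linarith)]
    have sx := A2_sign (S := S) (μ := μ) hb hv hZ hx (by linarith)
    have sy := A2_sign (S := S) (μ := μ) hb hv hZ hy (by linarith)
    have sz := A2_sign (S := S) (μ := μ) hb hv hZ hz0 hz
    have ex : A2_Eo b v S Z ((b : ℝ) ^ 2 * μ) (rt b x) ≤ 0 := by
      by_contra hcon
      push Not at hcon
      linarith [mul_pos sx hcon]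
    have ez : A2_Eo b v S Z ((b : ℝ) ^ 2 * μ) (rt b z) ≤ 0 := by
      by_contra hcon
      push Not at hcon
      linarith [mul_pos sz hcon]
    have := A2_unimodal hb hv hv1 hZ hL (rt_pos b hx) (hmono x y hx hxy) (hmono y z hy hyz)
      (hrt z hz0 hz) ex ez
    exact mul_neg_of_pos_of_neg sy this
  · show Af b v S 1 - μ * bt Z 1 = 0
    rw [Af_one hv hv1, bt_one hZ1]
    ring
  · show Af' b v S 1 - μ * bt' Z 1 = 0
    rw [Af'_one, bt'_one hZ1]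
    ring
  · show Af b v S Y - μ * bt Z Y = 0
    linarith
  · show Af' b v S Y - μ * bt' Z Y = 0
    linarith

end Pool.Agent.W_bbc525_c1
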