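import Pool.Agent.W_bbc525_c1.Zt

/-!
# The comparison with zeta

PROOF. `four_zero` (W_bbc525_td/Shape.lean) with `ω = Z`, `f x = μ bt Z x - c zet θ x`,
`f' x = μ bt' Z x - c zet' θ x`, `f'' x = μ (1/(Z - x)) - c zet'' θ x`, `a = 1`, `b = Y`
(`bt_one`, `bt'_one`, `zet_one`, `zet'_one`, `e0`, `e1`). The condition `hP`: for `0 < x < Z`:
`f'' x ≤ 0` iff `μ ≤ c θ (θ-1) m x`, `m x = x^(θ-2) (Z - x) > 0`, and
`f'' y < 0` iff `μ < c θ (θ-1) m y`. `log m = (θ-2) log x + log (Z - x)` is strictly concave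
on `(0, Z)` (`strictConcaveOn_log_Ioi`), so for `x < y < z`: `m y > min (m x) (m z)`.
Alternative: `m` has derivative `x^(θ-3) ((θ-2) Z - (θ-1) x)`, strictly increasing up to
`x* = (θ-2) Z/(θ-1)` and strictly decreasing after.
-/

set_option autoImplicit false

namespace Pool.Agent.W_bbc525_c1

open Set Pool.Agent.W_MP_bbc525_pr Pool.Agent.W_bbc525_h89 Pool.Agent.W_bbc525_td
  Pool.Agent.W_bbc525_ends

theorem bf_key {θ Z K μ : ℝ} (hθ : 2 < θ) (hK : 0 < K) (hμ : 0 < μ) {x y z : ℝ} (hx : 0 < x)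
    (hxy : x < y) (hyz : y < z) (hz : z < Z) (h1 : μ * (1 / (Z - x)) - K * x ^ (θ - 2) ≤ 0)
    (h3 : μ * (1 / (Z - z)) - K * z ^ (θ - 2) ≤ 0) : μ * (1 / (Z - y)) - K * y ^ (θ - 2) < 0 := by
  have hy : 0 < y := hx.trans hxy
  have hz0 : 0 < z := hy.trans hyz
  have hxZ : 0 < Z - x := by linarith
  have hyZ : 0 < Z - y := by linarith
  have hzZ : 0 < Z - z := by linarith
  have lg : ∀ w, 0 < w → 0 < Z - w → μ * (1 / (Z - w)) - K * w ^ (θ - 2) ≤ 0 →
      Real.log μ ≤ Real.log K + (θ - 2) * Real.log w + Real.log (Z - w) := by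
    intro w hw hwZ h
    have h' : μ ≤ K * w ^ (θ - 2) * (Z - w) := by
      have : μ * (1 / (Z - w)) ≤ K * w ^ (θ - 2) := by linarith
      rw [mul_one_div, div_le_iff₀ hwZ] at this
      exact this
    have := Real.log_le_log hμ h'
    rw [Real.log_mul (by positivity) hwZ.ne', Real.log_mul hK.ne' (by positivity),
      Real.log_rpow hw] at this
    exact this
  have l1 := lg x hx hxZ h1
  have l3 := lg z hz0 hzZ h3
  have hzx : 0 < z - x := by linarith
  have ha : 0 < (z - y) / (z - x) := div_pos (by linarith) hzx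
  have hb : 0 < (y - x) / (z - x) := div_pos (by linarith) hzx
  have hab : (z - y) / (z - x) + (y - x) / (z - x) = 1 := by
    rw [← add_div, div_eq_one_iff_eq hzx.ne']
    ring
  have e1 : (z - y) / (z - x) * x + (y - x) / (z - x) * z = y := by
    field_simp
    ring
  obtain ⟨a, hae⟩ : ∃ a, a = (z - y) / (z - x) := ⟨_, rfl⟩
  obtain ⟨b, hbe⟩ : ∃ b, b = (y - x) / (z - x) := ⟨_, rfl⟩
  rw [← hae, ← hbe] at hab e1
  rw [← hae] at ha
  rw [← hbe] at hb
  have c1 := strictConcaveOn_log_Ioi.2 (show x ∈ Ioi (0 : ℝ) from hx) (show z ∈ Ioi (0 : ℝ) from hz0)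
    (by linarith : x < z).ne ha hb hab
  have c2 := strictConcaveOn_log_Ioi.2 (show Z - x ∈ Ioi (0 : ℝ) from hxZ)
    (show Z - z ∈ Ioi (0 : ℝ) from hzZ) (by intro h; linarith : Z - x ≠ Z - z) ha hb hab
  simp only [smul_eq_mul] at c1 c2
  have e2 : a * (Z - x) + b * (Z - z) = Z - y := by
    have : a * (Z - x) + b * (Z - z) = (a + b) * Z - (a * x + b * z) := by ring
    rw [this, hab, e1]
    ring
  rw [e1] at c1
  rw [e2] at c2
  have hθ2 : 0 < θ - 2 := by linarith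
  have c1' := mul_lt_mul_of_pos_left c1 hθ2
  have l1' := mul_le_mul_of_nonneg_left l1 ha.le
  have l3' := mul_le_mul_of_nonneg_left l3 hb.le
  have key : Real.log μ < Real.log K + (θ - 2) * Real.log y + Real.log (Z - y) := by
    have s1 : a * Real.log μ + b * Real.log μ = Real.log μ := by rw [← add_mul, hab, one_mul]
    have s2 : a * Real.log K + b * Real.log K = Real.log K := by rw [← add_mul, hab, one_mul]
    nlinarith
  have : μ < K * y ^ (θ - 2) * (Z - y) := by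
    rw [← Real.log_lt_log_iff hμ (by positivity), Real.log_mul (by positivity) hyZ.ne',
      Real.log_mul hK.ne' (by positivity), Real.log_rpow hy]
    exact key
  rw [← div_lt_iff₀ hyZ] at this
  rw [mul_one_div]
  linarith

theorem bf_all {θ Z Y μ c : ℝ} (hθ : 2 < θ) (hY : 1 < Y) (hZ : Y < Z) (hμ : 0 < μ) (hc : 0 < c)
    (e0 : μ * bt Z Y = c * zet θ Y) (e1 : μ * bt' Z Y = c * zet' θ Y) :
    (∀ x, 0 < x → x < Z → 0 ≤ μ * bt Z x - c * zet θ x) ∧
      (∀ x, 0 < x → x ≤ 1 → 0 < μ * (1 / (Z - x)) - c * zet'' θ x) := by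
  have hZ1 : 1 < Z := hY.trans hZ
  have h1 : ∀ x ∈ Ioo 0 Z, HasDerivAt (fun x => μ * bt Z x - c * zet θ x)
      ((fun x => μ * bt' Z x - c * zet' θ x) x) x := fun x hx =>
    ((hasDerivAt_bt hZ1 hx.2).const_mul μ).sub ((hasDerivAt_zet θ hx.1).const_mul c)
  have h2 : ∀ x ∈ Ioo 0 Z, HasDerivAt (fun x => μ * bt' Z x - c * zet' θ x)
      ((fun x => μ * (1 / (Z - x)) - c * zet'' θ x) x) x := fun x hx =>
    ((hasDerivAt_bt' hZ1 hx.2).const_mul μ).sub ((hasDerivAt_zet' θ hx.1).const_mul c)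
  have hz : ∀ x, c * zet'' θ x = (c * (θ * (θ - 1))) * x ^ (θ - 2) := fun x => by
    unfold zet''
    ring
  have hP : ∀ x y z, 0 < x → x < y → y < z → z < Z →
      (fun x => μ * (1 / (Z - x)) - c * zet'' θ x) x ≤ 0 →
      (fun x => μ * (1 / (Z - x)) - c * zet'' θ x) z ≤ 0 →
      (fun x => μ * (1 / (Z - x)) - c * zet'' θ x) y < 0 := by
    intro x y z hx hxy hyz hzZ g1 g3
    simp only [hz] at g1 g3 ⊢
    exact bf_key hθ (by nlinarith [mul_pos hc (mul_pos (by linarith : (0:ℝ) < θ)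
      (by linarith : (0:ℝ) < θ - 1))]) hμ hx hxy hyz hzZ g1 g3
  have r := four_zero h1 h2 hP one_pos hY hZ (by simp [bt_one hZ1, zet_one])
    (by simp [bt'_one hZ1, zet'_one]) (by linarith) (by linarith)
  exact ⟨r.1, r.2.1⟩

end Pool.Agent.W_bbc525_c1
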