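import Pool.Agent.W_bbc525_b1.As
import Pool.Agent.W_bbc525_gd.Touch2
import Pool.Agent.W_bbc525_td.Shape

/-!
# Biregular graphs, the first transition: definitions and basic facts

`bt Z Y = (Y - 1) + (Z - Y) log ((Z - Y) / (Z - 1))`, derivative `bt' Z Y = log ((Z - 1)/(Z - Y))`,
second derivative `1 / (Z - Y)`.  `zet θ Y = Y ^ θ - 1 - θ (Y - 1)` is in W_bbc525_ends/Base.lean.
`Af b v T Y = dd v X - T ps b X` with `X = Y ^ (1/b)`; all facts below are calculus: with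
`X = rt b Y`, `dX/dY = X / (b Y)` (`Real.hasDerivAt_rpow_const`, `Y ^ (1/b - 1) = Y ^ (1/b) / Y`),
`X ^ b = Y`.
-/

set_option autoImplicit false

namespace Pool.Agent.W_bbc525_c1

open Set Pool.Agent.W_MP_bbc525_pr Pool.Agent.W_bbc525_h89 Pool.Agent.W_bbc525_td
  Pool.Agent.W_bbc525_ends

/-- the comparison function -/
noncomputable def bt (Z Y : ℝ) : ℝ := (Y - 1) + (Z - Y) * Real.log ((Z - Y) / (Z - 1))

/-- its derivative -/
noncomputable def bt' (Z Y : ℝ) : ℝ := Real.log ((Z - 1) / (Z - Y))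

/-- the derivative of `zet` -/
noncomputable def zet' (θ Y : ℝ) : ℝ := θ * (Y ^ (θ - 1) - 1)

/-- the second derivative of `zet` -/
noncomputable def zet'' (θ Y : ℝ) : ℝ := θ * (θ - 1) * Y ^ (θ - 2)

/-- the root -/
noncomputable def rt (b : ℕ) (Y : ℝ) : ℝ := Y ^ (1 / (b : ℝ))

/-- `dd v X - T ps b X`, as a function of `Y = X ^ b` -/
noncomputable def Af (b : ℕ) (v T Y : ℝ) : ℝ := dd v (rt b Y) - T * ps b (rt b Y)

/-- its derivative -/
noncomputable def Af' (b : ℕ) (v T Y : ℝ) : ℝ :=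
  rt b Y / (b * Y) * (dd' v (rt b Y) - T * (rt b Y ^ (b - 1) - 1))

/-- its second derivative -/
noncomputable def Af'' (b : ℕ) (v T Y : ℝ) : ℝ :=
  rt b Y / ((b : ℝ) ^ 2 * Y ^ 2) *
    (v / (1 - v * rt b Y) - ((b : ℝ) - 1) * (dd' v (rt b Y) + T))

theorem bt_one {Z : ℝ} (hZ : 1 < Z) : bt Z 1 = 0 := by
  unfold bt
  rw [div_self (by linarith), Real.log_one]
  ring

theorem bt'_one {Z : ℝ} (hZ : 1 < Z) : bt' Z 1 = 0 := by
  unfold bt'
  rw [div_self (by linarith), Real.log_one]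

theorem bt'_pos {Z Y : ℝ} (hY : 1 < Y) (hZ : Y < Z) : 0 < bt' Z Y := by
  unfold bt'
  apply Real.log_pos
  rw [lt_div_iff₀ (by linarith)]
  linarith

theorem hasDerivAt_bt {Z Y : ℝ} (hZ : 1 < Z) (hY : Y < Z) : HasDerivAt (bt Z) (bt' Z Y) Y := by
  have h1 : 0 < Z - Y := by linarith
  have h2 : 0 < Z - 1 := by linarith
  have l1 : HasDerivAt (fun y : ℝ => Z - y) (-1) Y := (hasDerivAt_id Y).const_sub Z
  have l2 : HasDerivAt (fun y : ℝ => (Z - y) / (Z - 1)) (-1 / (Z - 1)) Y := l1.div_const _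
  have l3 := l2.log (div_pos h1 h2).ne'
  have l4 := ((hasDerivAt_id Y).sub_const 1).add (l1.mul l3)
  refine l4.congr_deriv ?_
  unfold bt'
  rw [Real.log_div h1.ne' h2.ne', Real.log_div h2.ne' h1.ne']
  field_simp
  ring

theorem hasDerivAt_bt' {Z Y : ℝ} (hZ : 1 < Z) (hY : Y < Z) :
    HasDerivAt (bt' Z) (1 / (Z - Y)) Y := by
  have h1 : 0 < Z - Y := by linarith
  have h2 : 0 < Z - 1 := by linarith
  have l1 : HasDerivAt (fun y : ℝ => Z - y) (-1) Y := (hasDerivAt_id Y).const_sub Z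
  have l2 := (l1.log h1.ne').const_sub (Real.log (Z - 1))
  have e : bt' Z =ᶠ[nhds Y] fun y => Real.log (Z - 1) - Real.log (Z - y) := by
    filter_upwards [Iio_mem_nhds hY] with y hy
    have h3 : 0 < Z - y := sub_pos.2 hy
    unfold bt'
    rw [Real.log_div h2.ne' h3.ne']
  refine (l2.congr_of_eventuallyEq e).congr_deriv ?_
  rw [neg_div, neg_neg]

/-- (`(Z - Y) log ((Z - Y)/(Z - 1)) = (Z - 1) * (u log u)` with `u = (Z - Y)/(Z - 1)`,
`Real.continuous_mul_log`) -/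
theorem continuous_bt {Z : ℝ} (hZ : 1 < Z) : Continuous (bt Z) := by
  have h2 : Z - 1 ≠ 0 := by linarith
  have e : bt Z = fun Y => (Y - 1) +
      (Z - 1) * ((Z - Y) / (Z - 1) * Real.log ((Z - Y) / (Z - 1))) := by
    funext Y
    unfold bt
    rw [← mul_assoc, mul_div_cancel₀ _ h2]
  rw [e]
  have h3 : Continuous fun Y : ℝ => (Z - Y) / (Z - 1) * Real.log ((Z - Y) / (Z - 1)) :=
    Real.continuous_mul_log.comp (by fun_prop : Continuous fun Y : ℝ => (Z - Y) / (Z - 1))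
  exact (continuous_id.sub continuous_const).add (continuous_const.mul h3)

/-- (from `hasDerivAt_bt`: `bt` has derivative `bt' > 0` on `(1, Z)` and `bt Z 1 = 0`, `bt` is
continuous; strict monotonicity on `[1, Y]`) -/
theorem bt_pos {Z Y : ℝ} (hY : 1 < Y) (hZ : Y < Z) : 0 < bt Z Y := by
  have hZ1 : 1 < Z := hY.trans hZ
  have h := strictMonoOn_of_deriv_pos (convex_Icc 1 Y) (continuous_bt hZ1).continuousOn
    (fun x hx => by
      rw [interior_Icc] at hx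
      rw [(hasDerivAt_bt hZ1 (hx.2.trans hZ)).deriv]
      exact bt'_pos hx.1 (hx.2.trans hZ))
  have h1 := h (left_mem_Icc.2 hY.le) (right_mem_Icc.2 hY.le) hY
  rwa [bt_one hZ1] at h1

theorem zet_one (θ : ℝ) : zet θ 1 = 0 := by
  unfold zet
  rw [Real.one_rpow]
  ring

theorem zet'_one (θ : ℝ) : zet' θ 1 = 0 := by
  unfold zet'
  rw [Real.one_rpow]
  ring

theorem hasDerivAt_zet (θ : ℝ) {Y : ℝ} (hY : 0 < Y) : HasDerivAt (zet θ) (zet' θ Y) Y := by
  have h := ((Real.hasDerivAt_rpow_const (x := Y) (p := θ) (Or.inl hY.ne')).sub_const 1).sub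
    (((hasDerivAt_id Y).sub_const 1).const_mul θ)
  refine h.congr_deriv ?_
  unfold zet'
  ring

theorem hasDerivAt_zet' (θ : ℝ) {Y : ℝ} (hY : 0 < Y) : HasDerivAt (zet' θ) (zet'' θ Y) Y := by
  have h := ((Real.hasDerivAt_rpow_const (x := Y) (p := θ - 1) (Or.inl hY.ne')).sub_const 1).const_mul
    θ
  refine h.congr_deriv ?_
  unfold zet''
  rw [show θ - 1 - 1 = θ - 2 by ring]
  ring

/-- (`Real.continuous_rpow_const`) -/
theorem continuous_zet {θ : ℝ} (hθ : 0 ≤ θ) : Continuous (zet θ) := by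
  have h := Real.continuous_rpow_const hθ
  unfold zet
  exact (h.sub continuous_const).sub (continuous_const.mul (continuous_id.sub continuous_const))

theorem rt_one (b : ℕ) : rt b 1 = 1 := by
  unfold rt
  rw [Real.one_rpow]

theorem rt_nonneg (b : ℕ) {Y : ℝ} (hY : 0 ≤ Y) : 0 ≤ rt b Y := Real.rpow_nonneg hY _

theorem rt_pos (b : ℕ) {Y : ℝ} (hY : 0 < Y) : 0 < rt b Y := Real.rpow_pos_of_pos hY _

/-- (`Real.rpow_inv_natCast_pow`) -/
theorem rt_pow {b : ℕ} (hb : 1 ≤ b) {Y : ℝ} (hY : 0 ≤ Y) : rt b Y ^ b = Y := by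
  unfold rt
  rw [one_div]
  exact Real.rpow_inv_natCast_pow hY (by omega)

/-- (`Real.pow_rpow_inv_natCast`) -/
theorem rt_of_pow {b : ℕ} (hb : 1 ≤ b) {X : ℝ} (hX : 0 ≤ X) : rt b (X ^ b) = X := by
  unfold rt
  rw [one_div]
  exact Real.pow_rpow_inv_natCast hX (by omega)

theorem rt_le {b : ℕ} (hb : 1 ≤ b) {Y X : ℝ} (hY : 0 ≤ Y) (hX : 0 ≤ X) (h : Y ≤ X ^ b) :
    rt b Y ≤ X := by
  have h1 : rt b Y ≤ rt b (X ^ b) := Real.rpow_le_rpow hY h (by positivity)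
  rwa [rt_of_pow hb hX] at h1

theorem rt_lt {b : ℕ} (hb : 1 ≤ b) {Y X : ℝ} (hY : 0 ≤ Y) (hX : 0 ≤ X) (h : Y < X ^ b) :
    rt b Y < X := by
  have hb' : (0 : ℝ) < b := by exact_mod_cast hb
  have h1 : rt b Y < rt b (X ^ b) := Real.rpow_lt_rpow hY h (by positivity)
  rwa [rt_of_pow hb hX] at h1

theorem hasDerivAt_rt {b : ℕ} (hb : 1 ≤ b) {Y : ℝ} (hY : 0 < Y) :
    HasDerivAt (rt b) (rt b Y / (b * Y)) Y := by
  have hb' : (0 : ℝ) < b := by exact_mod_cast hb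
  have h := Real.hasDerivAt_rpow_const (x := Y) (p := 1 / (b : ℝ)) (Or.inl hY.ne')
  refine h.congr_deriv ?_
  rw [Real.rpow_sub_one hY.ne']
  unfold rt
  field_simp

theorem continuous_rt {b : ℕ} : Continuous (rt b) :=
  Real.continuous_rpow_const (by positivity)

theorem Af_one {b : ℕ} {v : ℝ} (hv : 0 < v) (hv1 : v < 1) (T : ℝ) : Af b v T 1 = 0 := by
  unfold Af
  rw [rt_one, dd_one hv hv1, ps_one]
  ring

theorem Af'_one {b : ℕ} {v : ℝ} (T : ℝ) : Af' b v T 1 = 0 := by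
  unfold Af'
  rw [rt_one, dd'_one]
  simp

/-- chain rule with `hasDerivAt_dd`, `hasDerivAt_ps`, `hasDerivAt_rt` -/
theorem hasDerivAt_Af {b : ℕ} (hb : 1 ≤ b) {v : ℝ} (hv : 0 < v) (hv1 : v < 1) (T : ℝ) {Y : ℝ}
    (hY : 0 < Y) (hY1 : Y < (1 / v) ^ b) : HasDerivAt (Af b v T) (Af' b v T Y) Y := by
  have hX := rt_pos b hY
  have hX1 : rt b Y < 1 / v := rt_lt hb hY.le (by positivity) hY1
  have h1 := (hasDerivAt_dd hv hv1 hX hX1).comp Y (hasDerivAt_rt hb hY)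
  have h2 := ((hasDerivAt_ps hb (rt b Y)).comp Y (hasDerivAt_rt hb hY)).const_mul T
  refine (h1.sub h2).congr_deriv ?_
  unfold Af'
  ring

/-- With `X = rt b Y`, `X ^ (b - 1) * X = Y`: `Af' = (1/b) ((X / Y) (dd' v X + T) - T)` near `Y`,
so the derivative is `(1/b) (- ((b-1)/b) (X / Y^2) (dd' v X + T) + (X / Y) dd'' v X (X / (b Y)))`
and `X * dd'' v X = v / (1 - v X)`. -/
theorem hasDerivAt_Af' {b : ℕ} (hb : 1 ≤ b) {v : ℝ} (hv : 0 < v) (hv1 : v < 1) (T : ℝ) {Y : ℝ}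
    (hY : 0 < Y) (hY1 : Y < (1 / v) ^ b) : HasDerivAt (Af' b v T) (Af'' b v T Y) Y := by
  have hb' : (0 : ℝ) < b := by exact_mod_cast hb
  have hX := rt_pos b hY
  have hX1 : rt b Y < 1 / v := rt_lt hb hY.le (by positivity) hY1
  have h1v := one_sub_pos hv hX1
  have h1 := (hasDerivAt_dd' hv hX hX1).comp Y (hasDerivAt_rt hb hY)
  have h2 := (hasDerivAt_rt hb hY).div (hasDerivAt_id Y) hY.ne'
  have h3 := (((h2.mul (h1.add_const T)).sub_const T).const_mul (1 / (b : ℝ)))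
  have e : Af' b v T =ᶠ[nhds Y] fun y => 1 / (b : ℝ) * (rt b y / y * (dd' v (rt b y) + T) - T) := by
    filter_upwards [Ioi_mem_nhds hY] with y hy
    have hy' : 0 < y := hy
    have hx := rt_pos b hy'
    have hp : rt b y ^ (b - 1) * rt b y = y := by
      rw [← pow_succ, Nat.sub_add_cancel hb, rt_pow hb hy'.le]
    have hp2 : rt b y ^ (b - 1) = y / rt b y := by
      rw [eq_div_iff hx.ne', hp]
    unfold Af'
    rw [hp2]
    field_simp
    ring
  refine (h3.congr_of_eventuallyEq e).congr_deriv ?_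
  unfold Af'' dd''
  simp only [Function.comp_apply, Pi.div_apply, id_eq]
  field_simp
  ring

/-- `continuousOn_dd`, `continuous_ps`, `continuous_rt`, `rt_le` -/
theorem continuousOn_Af {b : ℕ} (hb : 1 ≤ b) {v : ℝ} (hv : 0 < v) (hv1 : v < 1) (T : ℝ) :
    ContinuousOn (Af b v T) (Icc 0 ((1 / v) ^ b)) := by
  have h1 : ContinuousOn (fun Y => dd v (rt b Y)) (Icc 0 ((1 / v) ^ b)) :=
    (continuousOn_dd hv hv1).comp continuous_rt.continuousOn fun Y hY =>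
      ⟨rt_nonneg b hY.1, rt_le hb hY.1 (by positivity) hY.2⟩
  have h2 : Continuous fun Y => T * ps b (rt b Y) :=
    continuous_const.mul ((continuous_ps b).comp continuous_rt)
  exact h1.sub h2.continuousOn

/-- `Af b v T (X ^ b)` for `X ≥ 0` -/
theorem Af_pow {b : ℕ} (hb : 1 ≤ b) (v T : ℝ) {X : ℝ} (hX : 0 ≤ X) :
    Af b v T (X ^ b) = dd v X - T * ps b X := by
  unfold Af
  rw [rt_of_pow hb hX]

/-- `Af'` at `X ^ b` -/
theorem Af'_pow {b : ℕ} (hb : 1 ≤ b) (v T : ℝ) {X : ℝ} (hX : 0 ≤ X) :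
    Af' b v T (X ^ b) = X / (b * X ^ b) * (dd' v X - T * (X ^ (b - 1) - 1)) := by
  unfold Af'
  rw [rt_of_pow hb hX]

end Pool.Agent.W_bbc525_c1
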