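import Mathlib

/-!
# The local condition below 1

PROOF. Put `α = a - 1 ≥ 1`, `β = b - 1 ≥ 0` (reals, `α > β`), `t = 1 - X ∈ (0, 1]`, `N = α + β`,
`S = α^2 + β^2`, `P = α β`, `s = v / (1 - v)`; `hvc` says `s N < S` (multiply out:
`v (S + N) < S`, i.e. `v N < S (1 - v)`). `A = 1 + α t + (α t)^2 / 2`, `B = 1 + β t + (β t)^2 / 2`.
(i) `X^(a-1) * A ≤ 1`: `X = 1 - t ≤ exp (-t)`, so `X^(a-1) ≤ exp (- α t)`, and
`A ≤ exp (α t)` (`Real.quadratic_le_exp_of_nonneg`). In the same way `X^(b-1) * B ≤ 1`.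
(ii) `1 - v X = (1 - v) + v t = (1 - v) (1 + s t)`.
(iii) Claim `(1 + s t) (α B + β A) < N A B`. As `α B + β A > 0`, `t > 0` and `s N < S`, it is enough
that `(N + S t) (α B + β A) ≤ N^2 A B`. The difference of the two sides is a polynomial in `t`:
`N^2 A B - (N + S t)(α B + β A) = (S^2 - S P + 2 P^2)/2 t^2 + P^2 N t^3 + N^2 P^2/4 t^4`
(`ring` after inserting `N, S, P`), and `S ≥ 2 P ≥ 0` gives `S^2 - S P ≥ 0`.
(iv) `(1 - v X)(α X^(a-1) + β X^(b-1)) * (A B) ≤ (1 - v)(1 + s t)(α B + β A) < (1 - v) N A B`;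
divide by `A B > 0`.
-/

set_option autoImplicit false

namespace Pool.Agent.W_bbc525_c1

private lemma Pq_pow {c : ℕ} (hc : 1 ≤ c) {X : ℝ} (hX0 : 0 ≤ X) (hX1 : X < 1) :
    X ^ (c - 1) * (1 + ((c : ℝ) - 1) * (1 - X) + (((c : ℝ) - 1) * (1 - X)) ^ 2 / 2) ≤ 1 := by
  have hc' : (0 : ℝ) ≤ (c : ℝ) - 1 := by
    have : (1 : ℝ) ≤ c := by exact_mod_cast hc
    linarith
  have h1 : X ≤ Real.exp (-(1 - X)) := by
    have := Real.add_one_le_exp (-(1 - X))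
    linarith
  have h2 : X ^ (c - 1) ≤ Real.exp (-(((c : ℝ) - 1) * (1 - X))) := by
    have h3 : X ^ (c - 1) ≤ Real.exp (-(1 - X)) ^ (c - 1) := pow_le_pow_left₀ hX0 h1 _
    rw [← Real.exp_nat_mul, Nat.cast_sub hc, Nat.cast_one] at h3
    have h4 : ((c : ℝ) - 1) * -(1 - X) = -(((c : ℝ) - 1) * (1 - X)) := by ring
    rwa [h4] at h3
  have h5 : 1 + ((c : ℝ) - 1) * (1 - X) + (((c : ℝ) - 1) * (1 - X)) ^ 2 / 2 ≤
      Real.exp (((c : ℝ) - 1) * (1 - X)) :=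
    Real.quadratic_le_exp_of_nonneg (mul_nonneg hc' (by linarith))
  have h6 : 0 ≤ 1 + ((c : ℝ) - 1) * (1 - X) + (((c : ℝ) - 1) * (1 - X)) ^ 2 / 2 := by
    have : 0 ≤ ((c : ℝ) - 1) * (1 - X) := mul_nonneg hc' (by linarith)
    positivity
  calc X ^ (c - 1) * (1 + ((c : ℝ) - 1) * (1 - X) + (((c : ℝ) - 1) * (1 - X)) ^ 2 / 2)
      ≤ Real.exp (-(((c : ℝ) - 1) * (1 - X))) * Real.exp (((c : ℝ) - 1) * (1 - X)) :=
        mul_le_mul h2 h5 h6 (Real.exp_pos _).le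
    _ = 1 := by rw [← Real.exp_add]; simp

private lemma Pq_poly {α β t S : ℝ} (hα : 0 < α) (hβ : 0 ≤ β) (ht : 0 < t)
    (hS : S = α ^ 2 + β ^ 2) :
    ((α + β) + S * t) * (α * (1 + β * t + (β * t) ^ 2 / 2) + β * (1 + α * t + (α * t) ^ 2 / 2)) ≤
      (α + β) * ((α + β) * (1 + α * t + (α * t) ^ 2 / 2) * (1 + β * t + (β * t) ^ 2 / 2)) := by
  subst hS
  have h : (α + β) * ((α + β) * (1 + α * t + (α * t) ^ 2 / 2) * (1 + β * t + (β * t) ^ 2 / 2)) -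
      ((α + β) + (α ^ 2 + β ^ 2) * t) *
        (α * (1 + β * t + (β * t) ^ 2 / 2) + β * (1 + α * t + (α * t) ^ 2 / 2)) =
      ((α ^ 2 + β ^ 2) * (α ^ 2 + β ^ 2 - α * β) + 2 * (α * β) ^ 2) / 2 * t ^ 2 +
        (α * β) ^ 2 * (α + β) * t ^ 3 + (α + β) ^ 2 * (α * β) ^ 2 / 4 * t ^ 4 := by
    ring
  have h1 : 0 ≤ α ^ 2 + β ^ 2 - α * β := by nlinarith [sq_nonneg (α - β), sq_nonneg α, sq_nonneg β]
  have h2 : 0 ≤ ((α ^ 2 + β ^ 2) * (α ^ 2 + β ^ 2 - α * β) + 2 * (α * β) ^ 2) / 2 * t ^ 2 +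
        (α * β) ^ 2 * (α + β) * t ^ 3 + (α + β) ^ 2 * (α * β) ^ 2 / 4 * t ^ 4 := by
    positivity
  linarith

theorem pq_lt {a b : ℕ} (hb : 1 ≤ b) (hab : b < a) {v : ℝ} (hv : 0 < v) (hv1 : v < 1)
    (hvc : v * ((a : ℝ) * ((a : ℝ) - 1) + (b : ℝ) * ((b : ℝ) - 1)) <
      ((a : ℝ) - 1) ^ 2 + ((b : ℝ) - 1) ^ 2) {X : ℝ} (hX0 : 0 ≤ X) (hX1 : X < 1) :
    (1 - v * X) * (((a : ℝ) - 1) * X ^ (a - 1) + ((b : ℝ) - 1) * X ^ (b - 1)) <
      (1 - v) * (((a : ℝ) - 1) + ((b : ℝ) - 1)) := by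
  have hb' : (1 : ℝ) ≤ b := by exact_mod_cast hb
  have hab' : (b : ℝ) + 1 ≤ a := by exact_mod_cast hab
  have ha : 1 ≤ a := by omega
  have hA1 := Pq_pow ha hX0 hX1
  have hB1 := Pq_pow hb hX0 hX1
  obtain ⟨α, hα⟩ : ∃ α : ℝ, α = (a : ℝ) - 1 := ⟨_, rfl⟩
  obtain ⟨β, hβ⟩ : ∃ β : ℝ, β = (b : ℝ) - 1 := ⟨_, rfl⟩
  obtain ⟨t, ht⟩ : ∃ t : ℝ, t = 1 - X := ⟨_, rfl⟩
  rw [← hα, ← ht] at hA1
  rw [← hβ, ← ht] at hB1
  rw [← hα, ← hβ] at hvc ⊢
  have haα : (a : ℝ) = α + 1 := by rw [hα]; ring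
  have hbβ : (b : ℝ) = β + 1 := by rw [hβ]; ring
  have hα0 : 0 < α := by rw [hα]; linarith
  have hβ0 : 0 ≤ β := by rw [hβ]; linarith
  have ht0 : 0 < t := by rw [ht]; linarith
  have hXt : X = 1 - t := by rw [ht]; ring
  rw [haα, hbβ] at hvc
  obtain ⟨A, hA⟩ : ∃ A : ℝ, A = 1 + α * t + (α * t) ^ 2 / 2 := ⟨_, rfl⟩
  obtain ⟨B, hB⟩ : ∃ B : ℝ, B = 1 + β * t + (β * t) ^ 2 / 2 := ⟨_, rfl⟩
  have hpoly := Pq_poly (S := α ^ 2 + β ^ 2) hα0 hβ0 ht0 rfl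
  rw [← hA] at hA1 hpoly
  rw [← hB] at hB1 hpoly
  have hApos : 0 < A := by rw [hA]; positivity
  have hBpos : 0 < B := by rw [hB]; positivity
  have hN : 0 < α + β := by linarith
  have hv1' : 0 < 1 - v := by linarith
  have hvN : v * (α + β) < (1 - v) * (α ^ 2 + β ^ 2) := by nlinarith
  have hC : 0 < α * B + β * A := by positivity
  have h1 : (1 - v + v * t) * (α * B + β * A) < (1 - v) * (α + β) * (A * B) := by
    have h2 : (α + β) * ((1 - v + v * t) * (α * B + β * A)) <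
        (α + β) * ((1 - v) * (α + β) * (A * B)) := by
      have h3 : (α + β) * (1 - v + v * t) < (1 - v) * ((α + β) + (α ^ 2 + β ^ 2) * t) := by
        have : v * (α + β) * t < (1 - v) * (α ^ 2 + β ^ 2) * t := mul_lt_mul_of_pos_right hvN ht0
        linarith
      calc (α + β) * ((1 - v + v * t) * (α * B + β * A))
          = ((α + β) * (1 - v + v * t)) * (α * B + β * A) := by ring
        _ < ((1 - v) * ((α + β) + (α ^ 2 + β ^ 2) * t)) * (α * B + β * A) :=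
            mul_lt_mul_of_pos_right h3 hC
        _ = (1 - v) * (((α + β) + (α ^ 2 + β ^ 2) * t) * (α * B + β * A)) := by ring
        _ ≤ (1 - v) * ((α + β) * ((α + β) * A * B)) := mul_le_mul_of_nonneg_left hpoly hv1'.le
        _ = (α + β) * ((1 - v) * (α + β) * (A * B)) := by ring
    exact lt_of_mul_lt_mul_left h2 hN.le
  have h4 : (1 - v * X) * (α * X ^ (a - 1) + β * X ^ (b - 1)) * (A * B) ≤
      (1 - v + v * t) * (α * B + β * A) := by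
    have h5 : 1 - v * X = 1 - v + v * t := by rw [hXt]; ring
    have h6 : 0 ≤ 1 - v + v * t := by positivity
    rw [h5]
    have h7 : (α * X ^ (a - 1) + β * X ^ (b - 1)) * (A * B) ≤ α * B + β * A := by
      have h8 : α * B * (X ^ (a - 1) * A) ≤ α * B * 1 :=
        mul_le_mul_of_nonneg_left hA1 (by positivity)
      have h9 : β * A * (X ^ (b - 1) * B) ≤ β * A * 1 :=
        mul_le_mul_of_nonneg_left hB1 (by positivity)
      calc (α * X ^ (a - 1) + β * X ^ (b - 1)) * (A * B)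
          = α * B * (X ^ (a - 1) * A) + β * A * (X ^ (b - 1) * B) := by ring
        _ ≤ α * B + β * A := by linarith
    calc (1 - v + v * t) * (α * X ^ (a - 1) + β * X ^ (b - 1)) * (A * B)
        = (1 - v + v * t) * ((α * X ^ (a - 1) + β * X ^ (b - 1)) * (A * B)) := by ring
      _ ≤ (1 - v + v * t) * (α * B + β * A) := mul_le_mul_of_nonneg_left h7 h6
  exact lt_of_mul_lt_mul_right (h4.trans_lt h1) (by positivity)

end Pool.Agent.W_bbc525_c1
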