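import Pool.Agent.W_bbc525_c1.C0
import Pool.Agent.W_bbc525_c1.Pq

/-!
# The contact point

PROOF. Apply `touch` (W_bbc525_gd/Touch2.lean) with the index type `Fin 2`, `s = Finset.univ`,
`w = fun _ => 1 / 2`, `d = ![a, b]`, `q = v`, `T₀ = T` (`SS s w d v T X = dd v X - T * Ph s w d X`,
`Ph s w d X = (1/2) ps a X + (1/2) ps b X`, `Finset.sum`, `Fin.sum_univ_two`). It gives `S ≥ T`, `S > 0`, `X₀` with
`SS ≥ 0` on `[0, 1/v]`, `SS = SS' = 0` at `X₀`, `0 < X₀ < 1/v`.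
(i) `X₀ ≠ 1`: else the last clause of `touch` gives `S (N / 2) = v/(1-v)` and
`S (α^2 + β^2)/2 = (v/(1-v))^2`, `α = a - 1`, `β = b - 1`, `N = α + β`; hence
`α^2 + β^2 = N v/(1-v)`, i.e. `v (a (a-1) + b (b-1)) = α^2 + β^2`, against `hvc`.
(ii) `S (1 - v) N ≤ 2 v`: `local_cond` (W_bbc525_b1/Lc.lean) with `E = Finset.univ : Finset (Fin 2)`,
`k = ![a, b]`, `psm E k z = (1/2)(ps a z + ps b z)`, `T = 2 S` (for `z ∈ [0, 1] ⊆ [0, 1/v]`).
(iii) `X₀ > 1`: suppose `X₀ < 1`. `SS'` has on `(0, 1]` the derivative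
`SS'' = dd'' v X - (S/2) (α X^(a-2) + β X^(b-2))` (`hasDerivAt_SS'`; `b ≥ 2`), and
`X (1 - v X) SS'' X = v - (S/2) (1 - v X)(α X^(a-1) + β X^(b-1)) > v - (S/2) (1 - v) N ≥ 0` for
`X ∈ [X₀, 1)` (`pq_lt`). So `SS'` is strictly increasing on `[X₀, 1]`
(`strictMonoOn_of_deriv_pos`), but `SS' X₀ = 0 = SS' 1` (`SS'_one`). Contradiction.
-/

set_option autoImplicit false

namespace Pool.Agent.W_bbc525_c1

open Set Pool.Agent.W_MP_bbc525_pr Pool.Agent.W_bbc525_h89 Pool.Agent.W_bbc525_td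
  Pool.Agent.W_bbc525_ends Pool.Agent.W_bbc525_gd Pool.Agent.W_bbc525_b1

theorem contact {a b : ℕ} (hb : 2 ≤ b) (hab : b < a) {v T : ℝ} (hv : 0 < v) (hv1 : v < 1)
    (hvc : v * ((a : ℝ) * ((a : ℝ) - 1) + (b : ℝ) * ((b : ℝ) - 1)) <
      ((a : ℝ) - 1) ^ 2 + ((b : ℝ) - 1) ^ 2) (hT : 0 ≤ T)
    (hN : ∀ X, 0 ≤ X → X ≤ 1 / v → T * (ps a X + ps b X) ≤ 2 * dd v X) :
    ∃ S X₀ : ℝ, T ≤ S ∧ 0 < S ∧ 1 < X₀ ∧ X₀ < 1 / v ∧
      S * (ps a X₀ + ps b X₀) = 2 * dd v X₀ ∧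
      S * ((X₀ ^ (a - 1) - 1) + (X₀ ^ (b - 1) - 1)) = 2 * dd' v X₀ := by
  have hbR : (2 : ℝ) ≤ b := by exact_mod_cast hb
  have haR : (b : ℝ) < a := by exact_mod_cast hab
  have hv2 : 0 < 1 - v := by linarith
  have hPh : ∀ X, W_bbc525_gd.Ph (Finset.univ : Finset (Fin 2)) (fun _ => (1 / 2 : ℝ)) ![a, b] X =
      1 / 2 * ps a X + 1 / 2 * ps b X := by
    intro X
    unfold W_bbc525_gd.Ph
    rw [Fin.sum_univ_two]
    simp
  have hPh' : ∀ X, W_bbc525_gd.Ph' (Finset.univ : Finset (Fin 2)) (fun _ => (1 / 2 : ℝ)) ![a, b] X =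
      1 / 2 * (X ^ (a - 1) - 1) + 1 / 2 * (X ^ (b - 1) - 1) := by
    intro X
    unfold W_bbc525_gd.Ph'
    rw [Fin.sum_univ_two]
    simp
  have hd : ∀ i ∈ (Finset.univ : Finset (Fin 2)), 2 ≤ (![a, b] : Fin 2 → ℕ) i := by
    intro i _
    fin_cases i
    · simp only [Fin.zero_eta, Matrix.cons_val_zero]
      omega
    · simpa using hb
  have hw : ∀ i ∈ (Finset.univ : Finset (Fin 2)), (0 : ℝ) < (fun _ : Fin 2 => (1 / 2 : ℝ)) i := by
    intro i _
    norm_num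
  have hw1 : ∑ i ∈ (Finset.univ : Finset (Fin 2)), (fun _ : Fin 2 => (1 / 2 : ℝ)) i = 1 := by
    rw [Fin.sum_univ_two]
    norm_num
  obtain ⟨S, X₀, hTS, hS, hX0, hX1, hSS, h0, h0', h1⟩ := W_bbc525_gd.touch hd hw hw1 hv hv1 hT (by
    intro X hX hX'
    unfold W_bbc525_gd.SS
    rw [hPh]
    linarith [hN X hX hX'])
  -- the contact point is not `1`
  have hne : X₀ ≠ 1 := by
    intro h
    obtain ⟨e1, e2⟩ := h1 h
    rw [Fin.sum_univ_two] at e1 e2
    simp only [Matrix.cons_val_zero, Matrix.cons_val_one] at e1 e2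
    obtain ⟨c, hc⟩ : ∃ c, c = v / (1 - v) := ⟨_, rfl⟩
    have hc1 : c * (1 - v) = v := by rw [hc]; field_simp
    rw [← hc] at e1 e2
    have e3 : S * (((a : ℝ) - 1) ^ 2 + ((b : ℝ) - 1) ^ 2 -
        c * (((a : ℝ) - 1) + ((b : ℝ) - 1))) = 0 := by
      linear_combination 2 * e2 - 2 * c * e1
    have e4 : ((a : ℝ) - 1) ^ 2 + ((b : ℝ) - 1) ^ 2 -
        c * (((a : ℝ) - 1) + ((b : ℝ) - 1)) = 0 := by
      rcases mul_eq_zero.1 e3 with h | h
      · exact absurd h hS.ne'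
      · exact h
    have e5 : (((a : ℝ) - 1) ^ 2 + ((b : ℝ) - 1) ^ 2) * (1 - v) =
        v * (((a : ℝ) - 1) + ((b : ℝ) - 1)) := by
      linear_combination (1 - v) * e4 + (((a : ℝ) - 1) + ((b : ℝ) - 1)) * hc1
    nlinarith [hvc, e5]
  -- the local condition
  have hloc : S * ((1 - v) * (((a : ℝ) - 1) + ((b : ℝ) - 1))) ≤ 2 * v := by
    have h := local_cond (E := (Finset.univ : Finset (Fin 2))) (by simp) (k := ![a, b])
      (fun e he => le_trans (by norm_num) (hd e he)) hv hv1 (T := 2 * S) (by positivity) (by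
        intro z hz hz1
        have h2 := hSS z hz (hz1.trans (W_bbc525_gd.one_lt_inv' hv hv1).le)
        unfold W_bbc525_gd.SS at h2
        rw [hPh] at h2
        unfold psm
        rw [Fin.sum_univ_two]
        simp only [Matrix.cons_val_zero, Matrix.cons_val_one, Finset.card_univ, Fintype.card_fin]
        push_cast
        linarith)
    rw [Fin.sum_univ_two] at h
    simp only [Matrix.cons_val_zero, Matrix.cons_val_one, Finset.card_univ, Fintype.card_fin] at h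
    push_cast at h
    linarith
  -- the contact point is not below `1`
  have hgt : 1 < X₀ := by
    by_contra hle
    have hlt : X₀ < 1 := lt_of_le_of_ne (not_lt.1 hle) hne
    have hone := W_bbc525_gd.one_lt_inv' hv hv1
    have hmono : StrictMonoOn (W_bbc525_gd.SS' (Finset.univ : Finset (Fin 2)) (fun _ => (1 / 2 : ℝ))
        ![a, b] v S) (Icc X₀ 1) := by
      refine strictMonoOn_of_deriv_pos (convex_Icc _ _) ?_ ?_
      · intro X hX
        exact (W_bbc525_gd.hasDerivAt_SS' hv S (hX0.trans_le hX.1)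
          (hX.2.trans_lt hone)).continuousAt.continuousWithinAt
      · intro X hX
        rw [interior_Icc] at hX
        have hXp : 0 < X := hX0.trans hX.1
        have hXv : X < 1 / v := hX.2.trans hone
        rw [(W_bbc525_gd.hasDerivAt_SS' hv S hXp hXv).deriv, W_bbc525_gd.SS''_eq hd hv hXp hXv]
        apply div_pos _ hXp
        have hpos := one_sub_pos hv hXv
        have hpq := pq_lt (by omega) hab hv hv1 hvc hXp.le hX.2
        unfold W_bbc525_gd.HH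
        rw [Fin.sum_univ_two]
        simp only [Matrix.cons_val_zero, Matrix.cons_val_one]
        rw [Nat.cast_sub (by omega : 1 ≤ a), Nat.cast_sub (by omega : 1 ≤ b), Nat.cast_one,
          sub_pos, lt_div_iff₀ hpos]
        nlinarith [mul_lt_mul_of_pos_left hpq hS]
    have h2 := hmono (left_mem_Icc.2 hlt.le) (right_mem_Icc.2 hlt.le) hlt
    rw [h0', W_bbc525_gd.SS'_one] at h2
    exact lt_irrefl _ h2
  refine ⟨S, X₀, hTS, hS, hgt, hX1, ?_, ?_⟩
  · unfold W_bbc525_gd.SS at h0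
    rw [hPh] at h0
    linarith
  · unfold W_bbc525_gd.SS' at h0'
    rw [hPh'] at h0'
    linarith

end Pool.Agent.W_bbc525_c1
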