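import Mathlib

/-!
# A monotone function

`c w = b w - b + 1`, `G w = Σ_{i<b} w^i`, for `(b-1)/b < w < 1` (so `0 < c w`).

PROOF. `g w = c w * G w ^ 2 / w ^ (2b-1)` is nondecreasing on `((b-1)/b, 1)`. Its
derivative has the sign of `b w G + 2 c w G' - (2b-1) c G`, `G' = Σ_{i<b} i w^(i-1)`,
and with `b w = c + b - 1`:
`b w G + 2 c w G' - (2b-1) c G = (b-1) G - 2 c Σ_{i<b} (b-1-i) w^i`. Now
`G ≥ b w^(b-1)` (each `w^i ≥ w^(b-1)`), `Σ_{i<b} (b-1-i) w^i ≤ Σ_{i<b} (b-1-i) = b (b-1)/2`,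
and `c w = 1 + b (w - 1) ≤ w^b ≤ w^(b-1)` (`one_add_mul_le_pow`), so the expression is
`≥ b (b-1) w^(b-1) - b (b-1) c ≥ 0`.
-/

set_option autoImplicit false

namespace Pool.Agent.W_bbc525_c1

open Finset

theorem G1_key {b : ℕ} (hb : 2 ≤ b) {w : ℝ} (hw0 : 0 < w) (hc : 0 < (b : ℝ) * w - b + 1)
    (hw1 : w < 1) :
    0 ≤ (b : ℝ) * w * (∑ i ∈ range b, w ^ i) +
      2 * ((b : ℝ) * w - b + 1) * (w * ∑ i ∈ range b, (i : ℝ) * w ^ (i - 1)) -
      (2 * (b : ℝ) - 1) * ((b : ℝ) * w - b + 1) * (∑ i ∈ range b, w ^ i) := by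
  obtain ⟨c, hcd⟩ : ∃ c, c = (b : ℝ) * w - b + 1 := ⟨_, rfl⟩
  have hb' : (2 : ℝ) ≤ b := by exact_mod_cast hb
  have e1 : w * ∑ i ∈ range b, (i : ℝ) * w ^ (i - 1) = ∑ i ∈ range b, (i : ℝ) * w ^ i := by
    rw [Finset.mul_sum]
    refine Finset.sum_congr rfl fun i _ => ?_
    rcases Nat.eq_zero_or_pos i with h | h
    · subst h
      simp
    · have : w ^ i = w ^ (i - 1) * w := by
        rw [← pow_succ]
        congr 1
        omega
      rw [this]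
      ring
  have e2 : (b : ℝ) * w * (∑ i ∈ range b, w ^ i) +
      2 * ((b : ℝ) * w - b + 1) * (w * ∑ i ∈ range b, (i : ℝ) * w ^ (i - 1)) -
      (2 * (b : ℝ) - 1) * ((b : ℝ) * w - b + 1) * (∑ i ∈ range b, w ^ i) =
      ((b : ℝ) - 1) * (∑ i ∈ range b, w ^ i) -
        2 * c * ∑ i ∈ range b, ((b : ℝ) - 1 - i) * w ^ i := by
    rw [e1]
    have e3 : ∑ i ∈ range b, ((b : ℝ) - 1 - i) * w ^ i =
        ((b : ℝ) - 1) * (∑ i ∈ range b, w ^ i) - ∑ i ∈ range b, (i : ℝ) * w ^ i := by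
      rw [Finset.mul_sum, ← Finset.sum_sub_distrib]
      exact Finset.sum_congr rfl fun i _ => by ring
    rw [e3, hcd]
    ring
  rw [e2]
  rw [← hcd] at hc
  -- bounds
  have h1 : (b : ℝ) * w ^ (b - 1) ≤ ∑ i ∈ range b, w ^ i := by
    have : ∑ _i ∈ range b, w ^ (b - 1) ≤ ∑ i ∈ range b, w ^ i := by
      refine Finset.sum_le_sum fun i hi => ?_
      rw [Finset.mem_range] at hi
      exact pow_le_pow_of_le_one hw0.le hw1.le (by omega)
    rwa [Finset.sum_const, card_range, nsmul_eq_mul] at this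
  have h2 : ∑ i ∈ range b, ((b : ℝ) - 1 - i) * w ^ i ≤ (b : ℝ) * ((b : ℝ) - 1) / 2 := by
    have h3 : ∑ i ∈ range b, ((b : ℝ) - 1 - i) * w ^ i ≤ ∑ i ∈ range b, ((b : ℝ) - 1 - i) := by
      refine Finset.sum_le_sum fun i hi => ?_
      rw [Finset.mem_range] at hi
      have h4 : (i : ℝ) + 1 ≤ b := by exact_mod_cast hi
      have h5 : w ^ i ≤ 1 := pow_le_one₀ hw0.le hw1.le
      have h6 : 0 ≤ (b : ℝ) - 1 - i := by linarith
      calc ((b : ℝ) - 1 - i) * w ^ i ≤ ((b : ℝ) - 1 - i) * 1 := mul_le_mul_of_nonneg_left h5 h6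
        _ = (b : ℝ) - 1 - i := mul_one _
    have h7 : ∑ i ∈ range b, ((b : ℝ) - 1 - i) = (b : ℝ) * ((b : ℝ) - 1) / 2 := by
      rw [Finset.sum_sub_distrib, Finset.sum_const, card_range, nsmul_eq_mul]
      have h8 : ∑ i ∈ range b, (i : ℝ) = (b : ℝ) * ((b : ℝ) - 1) / 2 := by
        have h9 := Finset.sum_range_id_mul_two b
        have h10 : ((∑ i ∈ range b, i : ℕ) : ℝ) * 2 = (b : ℝ) * ((b : ℝ) - 1) := by
          have : (((∑ i ∈ range b, i) * 2 : ℕ) : ℝ) = ((b * (b - 1) : ℕ) : ℝ) := by rw [h9]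
          rw [Nat.cast_mul, Nat.cast_mul, Nat.cast_sub (by omega : 1 ≤ b)] at this
          simpa using this
        rw [Nat.cast_sum] at h10
        linarith
      rw [h8]
      ring
    linarith
  have h3 : c ≤ w ^ (b - 1) := by
    have h4 := one_add_mul_le_pow (a := w - 1) (by linarith) b
    have e : (1 + (w - 1)) = w := by ring
    rw [e] at h4
    have h5 : w ^ b ≤ w ^ (b - 1) := pow_le_pow_of_le_one hw0.le hw1.le (by omega)
    rw [hcd]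
    linarith
  have h4 : 0 ≤ (b : ℝ) * ((b : ℝ) - 1) := mul_nonneg (by linarith) (by linarith)
  have h5 : 2 * c * ∑ i ∈ range b, ((b : ℝ) - 1 - i) * w ^ i ≤
      c * ((b : ℝ) * ((b : ℝ) - 1)) := by
    have := mul_le_mul_of_nonneg_left h2 (by linarith : 0 ≤ 2 * c)
    linarith
  have h6 : c * ((b : ℝ) * ((b : ℝ) - 1)) ≤ w ^ (b - 1) * ((b : ℝ) * ((b : ℝ) - 1)) :=
    mul_le_mul_of_nonneg_right h3 h4
  have h7 : ((b : ℝ) - 1) * ((b : ℝ) * w ^ (b - 1)) ≤ ((b : ℝ) - 1) * (∑ i ∈ range b, w ^ i) :=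
    mul_le_mul_of_nonneg_left h1 (by linarith)
  linarith

theorem G1_deriv {b : ℕ} (hb : 2 ≤ b) {w : ℝ} (hw0 : 0 < w) :
    HasDerivAt (fun w : ℝ => ((b : ℝ) * w - b + 1) * (∑ i ∈ range b, w ^ i) ^ 2 /
      w ^ (2 * b - 1))
      ((∑ i ∈ range b, w ^ i) * ((b : ℝ) * w * (∑ i ∈ range b, w ^ i) +
      2 * ((b : ℝ) * w - b + 1) * (w * ∑ i ∈ range b, (i : ℝ) * w ^ (i - 1)) -
      (2 * (b : ℝ) - 1) * ((b : ℝ) * w - b + 1) * (∑ i ∈ range b, w ^ i)) / w ^ (2 * b)) w := by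
  have d1 : HasDerivAt (fun w : ℝ => (b : ℝ) * w - b + 1) (b : ℝ) w := by
    have := (((hasDerivAt_id w).const_mul (b : ℝ)).sub_const (b : ℝ)).add_const (1 : ℝ)
    simpa using this
  have d2 : HasDerivAt (fun w : ℝ => ∑ i ∈ range b, w ^ i)
      (∑ i ∈ range b, (i : ℝ) * w ^ (i - 1)) w :=
    HasDerivAt.fun_sum fun i _ => hasDerivAt_pow i w
  have d3 := hasDerivAt_pow (2 * b - 1) w
  have d4 := (d1.mul (d2.pow 2)).div d3 (pow_ne_zero _ hw0.ne')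
  refine d4.congr_deriv ?_
  obtain ⟨G, hG⟩ : ∃ G, G = ∑ i ∈ range b, w ^ i := ⟨_, rfl⟩
  obtain ⟨G', hG'⟩ : ∃ G', G' = ∑ i ∈ range b, (i : ℝ) * w ^ (i - 1) := ⟨_, rfl⟩
  simp only [Pi.mul_apply, Pi.pow_apply]
  rw [← hG, ← hG']
  have e1 : w ^ (2 * b) = w ^ (2 * b - 1) * w := by
    rw [← pow_succ]
    congr 1
    omega
  have e2 : w ^ (2 * b - 1) = w ^ (2 * b - 1 - 1) * w := by
    rw [← pow_succ]
    congr 1
    omega
  have e3 : ((2 * b - 1 : ℕ) : ℝ) = 2 * (b : ℝ) - 1 := by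
    rw [Nat.cast_sub (by omega)]
    push_cast
    ring
  rw [e1, e2, e3]
  have h0 : w ^ (2 * b - 1 - 1) ≠ 0 := pow_ne_zero _ hw0.ne'
  have h1 : w ≠ 0 := hw0.ne'
  field_simp
  ring

theorem g1_mono {b : ℕ} (hb : 2 ≤ b) {x y : ℝ} (hx0 : 0 < x) (hx : 0 < (b : ℝ) * x - b + 1)
    (hxy : x ≤ y) (hy : y < 1) :
    ((b : ℝ) * x - b + 1) * (∑ i ∈ range b, x ^ i) ^ 2 / x ^ (2 * b - 1) ≤
      ((b : ℝ) * y - b + 1) * (∑ i ∈ range b, y ^ i) ^ 2 / y ^ (2 * b - 1) := by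
  have hb0 : (0 : ℝ) ≤ b := Nat.cast_nonneg b
  have hm : MonotoneOn (fun w : ℝ => ((b : ℝ) * w - b + 1) * (∑ i ∈ range b, w ^ i) ^ 2 /
      w ^ (2 * b - 1)) (Set.Icc x y) := by
    apply monotoneOn_of_deriv_nonneg (convex_Icc x y)
    · intro t ht
      exact (G1_deriv hb (lt_of_lt_of_le hx0 ht.1)).continuousAt.continuousWithinAt
    · intro t ht
      rw [interior_Icc] at ht
      exact (G1_deriv hb (hx0.trans ht.1)).differentiableAt.differentiableWithinAt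
    · intro t ht
      rw [interior_Icc] at ht
      have ht0 : 0 < t := hx0.trans ht.1
      rw [(G1_deriv hb ht0).deriv]
      have hct : 0 < (b : ℝ) * t - b + 1 := by
        have := mul_le_mul_of_nonneg_left ht.1.le hb0
        linarith
      have h1 := G1_key hb ht0 hct (ht.2.trans hy)
      have h2 : 0 ≤ ∑ i ∈ range b, t ^ i := Finset.sum_nonneg fun i _ => pow_nonneg ht0.le i
      exact div_nonneg (mul_nonneg h2 h1) (pow_nonneg ht0.le _)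
  exact hm ⟨le_rfl, hxy⟩ ⟨hxy, le_rfl⟩ hxy

end Pool.Agent.W_bbc525_c1
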