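import Pool.Agent.W_bbc525_c1.C0

/-!
# The choice of the parameter

PROOF. `G Z = bt Z Y * z' - bt' Z Y * z` is continuous in `Z` on `[Z₀, ∞)` (`Y < Z₀`, so
`(Z - Y)/(Z - 1)` is positive and continuous), `G Z₀ ≤ 0`. For large `Z`, `G Z > 0`: put
`x = (Y - 1)/(Z - 1) ∈ (0, 1)`, so `(Z - Y)/(Z - 1) = 1 - x`,
`bt Z Y = (Z - 1) (x + (1 - x) log (1 - x)) ≥ (Z - 1) x^2 / 2` (the function
`x + (1-x) log (1-x) - x^2/2` vanishes at `0` and has derivative `- log (1-x) - x ≥ 0`), and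
`bt' Z Y = - log (1 - x) ≤ x / (1 - x)` (`Real.log_le_sub_one_of_pos` for `1/(1-x)`). So
`G Z ≥ x ((Y - 1) z' / 2 - z / (1 - x)) > 0` as soon as `(1 - x) (Y - 1) z' > 2 z`, which holds
for `x` small, i.e. `Z` large, by `h2` (take `Z ≥ Z₀` with
`Z - 1 > (Y - 1) * ((Y - 1) * z') / ((Y - 1) * z' - 2 * z)`). Intermediate value theorem
(`intermediate_value_Icc`).
-/

set_option autoImplicit false

namespace Pool.Agent.W_bbc525_c1

open Set

theorem iv {Z₀ Y z z' : ℝ} (h1 : 1 < Y) (hZ : Y < Z₀) (hz : 0 < z) (hz' : 0 < z')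
    (h2 : 2 * z < (Y - 1) * z') (h : bt Z₀ Y * z' ≤ bt' Z₀ Y * z) :
    ∃ Z, Z₀ ≤ Z ∧ bt Z Y * z' = bt' Z Y * z := by
  set A := (Y - 1) * z' - 2 * z with hA
  have hA0 : 0 < A := by linarith
  have hY0 : 0 < Y - 1 := by linarith
  set Z₁ := max Z₀ (1 + (Y - 1) * ((Y - 1) * z') / A + 1) with hZ₁
  have h01 : Z₀ ≤ Z₁ := le_max_left _ _
  have h11 : 1 + (Y - 1) * ((Y - 1) * z') / A + 1 ≤ Z₁ := le_max_right _ _
  have hYZ₁ : Y < Z₁ := lt_of_lt_of_le hZ h01
  have hbig : (Y - 1) * ((Y - 1) * z') < (Z₁ - 1) * A := by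
    have h3 : (Y - 1) * ((Y - 1) * z') / A < Z₁ - 1 := by linarith
    rwa [div_lt_iff₀ hA0] at h3
  -- positivity at the right end
  have hpos : bt' Z₁ Y * z ≤ bt Z₁ Y * z' := by
    have hp1 : 0 < Z₁ - 1 := by linarith
    have hp2 : 0 < Z₁ - Y := by linarith
    have ht : 0 < (Z₁ - Y) / (Z₁ - 1) := div_pos hp2 hp1
    have ht1 : (Z₁ - Y) / (Z₁ - 1) ≤ 1 := by
      rw [div_le_one hp1]
      linarith
    have hl : Real.log ((Z₁ - Y) / (Z₁ - 1)) ≤ 0 := Real.log_nonpos ht.le ht1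
    have h4 := Real.sinh_le_self_iff.2 hl
    rw [Real.sinh_log ht, inv_div] at h4
    have h5 : (Y - 1) ^ 2 / (2 * (Z₁ - 1)) ≤ bt Z₁ Y := by
      unfold bt
      have h6 := mul_le_mul_of_nonneg_left h4 hp2.le
      have h7 : (Z₁ - Y) * (((Z₁ - Y) / (Z₁ - 1) - (Z₁ - 1) / (Z₁ - Y)) / 2) =
          (Y - 1) ^ 2 / (2 * (Z₁ - 1)) - (Y - 1) := by
        field_simp
        ring
      rw [h7] at h6
      linarith
    have h8 : bt' Z₁ Y ≤ (Y - 1) / (Z₁ - Y) := by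
      unfold bt'
      have h9 := Real.log_le_sub_one_of_pos (div_pos hp1 hp2)
      have h10 : (Z₁ - 1) / (Z₁ - Y) - 1 = (Y - 1) / (Z₁ - Y) := by
        field_simp
        ring
      rw [h10] at h9
      exact h9
    calc bt' Z₁ Y * z ≤ (Y - 1) / (Z₁ - Y) * z := mul_le_mul_of_nonneg_right h8 hz.le
      _ ≤ (Y - 1) ^ 2 / (2 * (Z₁ - 1)) * z' := by
          rw [div_mul_eq_mul_div, div_mul_eq_mul_div, div_le_div_iff₀ hp2 (by positivity)]
          have h12 : 2 * z * (Z₁ - 1) ≤ (Y - 1) * z' * (Z₁ - Y) := by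
            have h13 : (Z₁ - 1) * A = (Z₁ - 1) * ((Y - 1) * z') - 2 * z * (Z₁ - 1) := by
              rw [hA]; ring
            nlinarith [hbig, h13]
          have h14 := mul_le_mul_of_nonneg_left h12 hY0.le
          nlinarith [h14]
      _ ≤ bt Z₁ Y * z' := mul_le_mul_of_nonneg_right h5 hz'.le
  have hcont : ContinuousOn (fun Z => bt Z Y * z' - bt' Z Y * z) (Icc Z₀ Z₁) := by
    unfold bt bt'
    have hc1 : ContinuousOn (fun Z : ℝ => (Z - Y) / (Z - 1)) (Icc Z₀ Z₁) := by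
      apply ContinuousOn.div (by fun_prop) (by fun_prop)
      intro Z hZ2
      have := hZ2.1
      exact ne_of_gt (by linarith)
    have hc2 : ContinuousOn (fun Z : ℝ => (Z - 1) / (Z - Y)) (Icc Z₀ Z₁) := by
      apply ContinuousOn.div (by fun_prop) (by fun_prop)
      intro Z hZ2
      have := hZ2.1
      exact ne_of_gt (by linarith)
    have hl1 : ContinuousOn (fun Z : ℝ => Real.log ((Z - Y) / (Z - 1))) (Icc Z₀ Z₁) := by
      apply hc1.log
      intro Z hZ2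
      have := hZ2.1
      exact (div_pos (by linarith) (by linarith)).ne'
    have hl2 : ContinuousOn (fun Z : ℝ => Real.log ((Z - 1) / (Z - Y))) (Icc Z₀ Z₁) := by
      apply hc2.log
      intro Z hZ2
      have := hZ2.1
      exact (div_pos (by linarith) (by linarith)).ne'
    have hl3 : ContinuousOn (fun Z : ℝ => (Y - 1) + (Z - Y) * Real.log ((Z - Y) / (Z - 1)))
        (Icc Z₀ Z₁) := by
      apply ContinuousOn.add continuousOn_const
      exact ContinuousOn.mul (by fun_prop) hl1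
    exact (hl3.mul continuousOn_const).sub (hl2.mul continuousOn_const)
  have hiv := intermediate_value_Icc h01 hcont
  have h0 : (0 : ℝ) ∈ Icc (bt Z₀ Y * z' - bt' Z₀ Y * z) (bt Z₁ Y * z' - bt' Z₁ Y * z) :=
    ⟨by linarith, by linarith⟩
  obtain ⟨Z, hZ3, hZ4⟩ := hiv h0
  exact ⟨Z, hZ3.1, by simpa [sub_eq_zero] using hZ4⟩

end Pool.Agent.W_bbc525_c1
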