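import Mathlib

/-!
# Chebyshev for integrals

PROOF. For all `s, t ∈ [x, y]`: `0 ≤ (H s - H t) (f s g t - f t g s)`
(both factors have the same sign: cases `s ≤ t`, `t ≤ s`, `hmono`, `hr`). Integrate in `s` over
`[x, y]` for fixed `t`, then in `t`: with `F = ∫ f`, `G = ∫ g`, `HF = ∫ H f`, `HG = ∫ H g`:
`0 ≤ ∫_t (g t HF - f t HG - H t g t F + H t f t G) = 2 (HF G - HG F)`.
(`intervalIntegral.integral_nonneg`, `intervalIntegral.integral_add/sub`,
`intervalIntegral.integral_const_mul`, all functions are continuous on `[x, y]`, hence interval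
integrable: `ContinuousOn.intervalIntegrable_of_Icc`.)

-/

set_option autoImplicit false

namespace Pool.Agent.W_bbc525_c1

open Set MeasureTheory

private theorem Lr_pt {x y : ℝ} {f g H : ℝ → ℝ}
    (hmono : ∀ s t, x ≤ s → s ≤ t → t ≤ y → H s ≤ H t)
    (hr : ∀ s t, x ≤ s → s ≤ t → t ≤ y → f s * g t ≤ f t * g s) {s t : ℝ}
    (hs : s ∈ Icc x y) (ht : t ∈ Icc x y) :
    0 ≤ (H s - H t) * (f s * g t - f t * g s) := by
  rcases le_total s t with h | h
  · exact mul_nonneg_of_nonpos_of_nonpos (sub_nonpos.2 (hmono s t hs.1 h ht.2))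
      (sub_nonpos.2 (hr s t hs.1 h ht.2))
  · exact mul_nonneg (sub_nonneg.2 (hmono t s ht.1 h hs.2))
      (sub_nonneg.2 (hr t s ht.1 h hs.2))

private theorem Lr_lin {x y a b c d : ℝ} {u v w z : ℝ → ℝ}
    (hu : IntervalIntegrable u volume x y) (hv : IntervalIntegrable v volume x y)
    (hw : IntervalIntegrable w volume x y) (hz : IntervalIntegrable z volume x y) :
    (∫ s in x..y, (a * u s - b * v s - c * w s + d * z s)) =
      a * (∫ s in x..y, u s) - b * (∫ s in x..y, v s) - c * (∫ s in x..y, w s)
        + d * (∫ s in x..y, z s) := by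
  rw [intervalIntegral.integral_add (((hu.const_mul a).sub (hv.const_mul b)).sub
    (hw.const_mul c)) (hz.const_mul d),
    intervalIntegral.integral_sub ((hu.const_mul a).sub (hv.const_mul b)) (hw.const_mul c),
    intervalIntegral.integral_sub (hu.const_mul a) (hv.const_mul b),
    intervalIntegral.integral_const_mul, intervalIntegral.integral_const_mul,
    intervalIntegral.integral_const_mul, intervalIntegral.integral_const_mul]

theorem cheb_int {x y : ℝ} (hxy : x ≤ y) {f g H : ℝ → ℝ} (hf : ContinuousOn f (Icc x y))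
    (hg : ContinuousOn g (Icc x y)) (hH : ContinuousOn H (Icc x y))
    (hmono : ∀ s t, x ≤ s → s ≤ t → t ≤ y → H s ≤ H t)
    (hr : ∀ s t, x ≤ s → s ≤ t → t ≤ y → f s * g t ≤ f t * g s) :
    (∫ t in x..y, H t * g t) * (∫ t in x..y, f t) ≤
      (∫ t in x..y, H t * f t) * (∫ t in x..y, g t) := by
  have If : IntervalIntegrable f volume x y := hf.intervalIntegrable_of_Icc hxy
  have Ig : IntervalIntegrable g volume x y := hg.intervalIntegrable_of_Icc hxy
  have IHf : IntervalIntegrable (fun t => H t * f t) volume x y :=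
    (hH.mul hf).intervalIntegrable_of_Icc hxy
  have IHg : IntervalIntegrable (fun t => H t * g t) volume x y :=
    (hH.mul hg).intervalIntegrable_of_Icc hxy
  set F := ∫ t in x..y, f t with hF
  set G := ∫ t in x..y, g t with hG
  set HF := ∫ t in x..y, H t * f t with hHF
  set HG := ∫ t in x..y, H t * g t with hHG
  have h1 : ∀ t ∈ Icc x y, 0 ≤ HF * g t - HG * f t - F * (H t * g t) + G * (H t * f t) := by
    intro t ht
    have e := Lr_lin (a := g t) (b := f t) (c := H t * g t) (d := H t * f t) IHf IHg If Ig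
    have h2 : 0 ≤ ∫ s in x..y, (g t * (H s * f s) - f t * (H s * g s) - (H t * g t) * f s
        + (H t * f t) * g s) := by
      refine intervalIntegral.integral_nonneg hxy fun s hs => ?_
      have h3 := Lr_pt hmono hr hs ht
      have h4 : (H s - H t) * (f s * g t - f t * g s) = g t * (H s * f s) - f t * (H s * g s)
          - (H t * g t) * f s + (H t * f t) * g s := by ring
      rw [h4] at h3
      exact h3
    rw [e, ← hF, ← hG, ← hHF, ← hHG] at h2
    linarith
  have e2 := Lr_lin (a := HF) (b := HG) (c := F) (d := G) Ig If IHg IHf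
  have h5 : 0 ≤ ∫ t in x..y, (HF * g t - HG * f t - F * (H t * g t) + G * (H t * f t)) :=
    intervalIntegral.integral_nonneg hxy fun t ht => h1 t ht
  rw [e2, ← hF, ← hG, ← hHF, ← hHG] at h5
  linarith

end Pool.Agent.W_bbc525_c1
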