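import Pool.Agent.W_bbc525_c1.Lr

/-!
# S1, first comparison

PROOF. `cheb_int` with `x = 1`, `y = x`, `H t = t`, `f t = (a-1) t^(a-2) + (b-1) t^(b-2)`,
`g t = t^(a-b-1)` (all polynomials). Needed: `f s * g t ≤ f t * g s` for `1 ≤ s ≤ t`.
With `m = a - 2 b + 1` (natural number, `≥ 2`): `f t = t^(b-2) ((a-1) t^(a-b) + (b-1))` and
`g t = t^(b-2) t^m` (`a - b - 1 = (b - 2) + m`, `a - 2 = (b-2) + (a-b)`), `a - b = m + (b-1)`.
Dividing by `(s t)^(b-2) (s t)^m > 0` the claim is `R s ≤ R t` for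
`R t = (a-1) t^(b-1) + (b-1) / t^m`. `R' t = (b-1) ((a-1) t^(b-2) - m / t^(m+1)) ≥ 0` for
`t ≥ 1`, because `a - 1 ≥ m` (as `b ≥ 2`), `t^(b-2) ≥ 1 ≥ 1 / t^(m+1)`. (Or without derivatives:
`t^(b-1) - s^(b-1) ≥ (b-1) (t - s)` and `1/s^m - 1/t^m ≤ m (t - s)`.)
-/

set_option autoImplicit false

namespace Pool.Agent.W_bbc525_c1

open Set MeasureTheory

private theorem S1a_low {s t : ℝ} (hs : 1 ≤ s) (hst : s ≤ t) (n : ℕ) :
    (n : ℝ) * (t - s) ≤ t ^ n - s ^ n := by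
  induction n with
  | zero => simp
  | succ n ih =>
    have h1 : (1 : ℝ) ≤ s ^ n := one_le_pow₀ hs
    have ht : 1 ≤ t := hs.trans hst
    have h2 : 0 ≤ t - s := sub_nonneg.2 hst
    have h3 : 0 ≤ (n : ℝ) * (t - s) := by positivity
    have h4 : t ^ (n + 1) - s ^ (n + 1) = t * (t ^ n - s ^ n) + s ^ n * (t - s) := by ring
    rw [h4]
    push_cast
    have h5 : (n : ℝ) * (t - s) ≤ t * (t ^ n - s ^ n) := by nlinarith
    have h6 : t - s ≤ s ^ n * (t - s) := by nlinarith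
    linarith

private theorem S1a_up {s t : ℝ} (hs : 1 ≤ s) (hst : s ≤ t) (n : ℕ) :
    t ^ n - s ^ n ≤ (n : ℝ) * (t - s) * t ^ n := by
  induction n with
  | zero => simp
  | succ n ih =>
    have ht : 1 ≤ t := hs.trans hst
    have h2 : 0 ≤ t - s := sub_nonneg.2 hst
    have h1 : s ^ n ≤ t ^ n := pow_le_pow_left₀ (by linarith) hst n
    have h3 : (0 : ℝ) ≤ t ^ n := by positivity
    have h4 : t ^ (n + 1) - s ^ (n + 1) = t * (t ^ n - s ^ n) + s ^ n * (t - s) := by ring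
    rw [h4]
    push_cast
    have h5 : t * (t ^ n - s ^ n) ≤ t * ((n : ℝ) * (t - s) * t ^ n) :=
      mul_le_mul_of_nonneg_left ih (by linarith)
    have h6 : s ^ n * (t - s) ≤ t ^ n * (t - s) := mul_le_mul_of_nonneg_right h1 h2
    have h7 : t ^ n * (t - s) ≤ t * (t ^ n * (t - s)) := by
      have : 0 ≤ t ^ n * (t - s) := mul_nonneg h3 h2
      nlinarith
    have h8 : ((n : ℝ) + 1) * (t - s) * t ^ (n + 1)
        = t * ((n : ℝ) * (t - s) * t ^ n) + t * (t ^ n * (t - s)) := by ring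
    rw [h8]
    linarith

private theorem S1a_ratio {s t : ℝ} (hs : 1 ≤ s) (hst : s ≤ t) (k m : ℕ) :
    (((m : ℝ) + 2 * k + 2) * s ^ (m + 2 * k + 1) + ((k : ℝ) + 1) * s ^ k) * t ^ (m + k) ≤
      (((m : ℝ) + 2 * k + 2) * t ^ (m + 2 * k + 1) + ((k : ℝ) + 1) * t ^ k) * s ^ (m + k) := by
  have ht : 1 ≤ t := hs.trans hst
  have h2 : 0 ≤ t - s := sub_nonneg.2 hst
  have h1 := S1a_low hs hst (k + 1)
  have h3 := S1a_up hs hst m
  have hsm : (1 : ℝ) ≤ s ^ m := one_le_pow₀ hs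
  have htm : (0 : ℝ) ≤ t ^ m := by positivity
  have key : ((k : ℝ) + 1) * (t ^ m - s ^ m) ≤
      ((m : ℝ) + 2 * k + 2) * (s ^ m * t ^ m) * (t ^ (k + 1) - s ^ (k + 1)) := by
    push_cast at h1
    have e1 : ((k : ℝ) + 1) * (t ^ m - s ^ m) ≤ ((k : ℝ) + 1) * ((m : ℝ) * (t - s) * t ^ m) :=
      mul_le_mul_of_nonneg_left h3 (by positivity)
    have e2 : ((m : ℝ) + 2 * k + 2) * (s ^ m * t ^ m) * (((k : ℝ) + 1) * (t - s)) ≤
        ((m : ℝ) + 2 * k + 2) * (s ^ m * t ^ m) * (t ^ (k + 1) - s ^ (k + 1)) :=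
      mul_le_mul_of_nonneg_left h1 (by positivity)
    have e3 : ((k : ℝ) + 1) * ((m : ℝ) * (t - s) * t ^ m) ≤
        ((m : ℝ) + 2 * k + 2) * (s ^ m * t ^ m) * (((k : ℝ) + 1) * (t - s)) := by
      have e4 : (m : ℝ) * t ^ m ≤ ((m : ℝ) + 2 * k + 2) * (s ^ m * t ^ m) := by
        have e5 : t ^ m ≤ s ^ m * t ^ m := by nlinarith
        have e6 : (m : ℝ) ≤ (m : ℝ) + 2 * k + 2 := by
          have : (0 : ℝ) ≤ (k : ℝ) := by positivity
          linarith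
        exact mul_le_mul e6 e5 htm (by positivity)
      have e7 : 0 ≤ ((k : ℝ) + 1) * (t - s) := mul_nonneg (by positivity) h2
      have e8 := mul_le_mul_of_nonneg_right e4 e7
      calc ((k : ℝ) + 1) * ((m : ℝ) * (t - s) * t ^ m)
          = (m : ℝ) * t ^ m * (((k : ℝ) + 1) * (t - s)) := by ring
        _ ≤ _ := e8
    linarith
  have hst0 : (0 : ℝ) ≤ s ^ k * t ^ k := by positivity
  have e9 := mul_le_mul_of_nonneg_left key hst0
  have e10 : (((m : ℝ) + 2 * k + 2) * t ^ (m + 2 * k + 1) + ((k : ℝ) + 1) * t ^ k) * s ^ (m + k)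
      - (((m : ℝ) + 2 * k + 2) * s ^ (m + 2 * k + 1) + ((k : ℝ) + 1) * s ^ k) * t ^ (m + k)
      = s ^ k * t ^ k * (((m : ℝ) + 2 * k + 2) * (s ^ m * t ^ m) * (t ^ (k + 1) - s ^ (k + 1)))
        - s ^ k * t ^ k * (((k : ℝ) + 1) * (t ^ m - s ^ m)) := by ring
  linarith

theorem s1a {a b : ℕ} (hb : 2 ≤ b) (hab : 2 * b < a) {x : ℝ} (hx : 1 < x) :
    (∫ t in (1 : ℝ)..x, t * t ^ (a - b - 1)) *
      (∫ t in (1 : ℝ)..x, (((a : ℝ) - 1) * t ^ (a - 2) + ((b : ℝ) - 1) * t ^ (b - 2))) ≤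
    (∫ t in (1 : ℝ)..x, t * (((a : ℝ) - 1) * t ^ (a - 2) + ((b : ℝ) - 1) * t ^ (b - 2))) *
      (∫ t in (1 : ℝ)..x, t ^ (a - b - 1)) := by
  obtain ⟨k, rfl⟩ : ∃ k, b = k + 2 := ⟨b - 2, by omega⟩
  obtain ⟨m, rfl⟩ : ∃ m, a = m + 2 * k + 3 := ⟨a - 2 * k - 3, by omega⟩
  have e1 : m + 2 * k + 3 - (k + 2) - 1 = m + k := by omega
  have e2 : m + 2 * k + 3 - 2 = m + 2 * k + 1 := by omega
  have e3 : k + 2 - 2 = k := by omega
  rw [e1, e2, e3]
  refine cheb_int (x := 1) (y := x) hx.le (H := fun t => t)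
    (f := fun t => (((m + 2 * k + 3 : ℕ) : ℝ) - 1) * t ^ (m + 2 * k + 1)
      + (((k + 2 : ℕ) : ℝ) - 1) * t ^ k)
    (g := fun t => t ^ (m + k)) ?_ ?_ ?_ ?_ ?_
  · exact Continuous.continuousOn (by fun_prop)
  · exact Continuous.continuousOn (by fun_prop)
  · exact Continuous.continuousOn (by fun_prop)
  · intro s t _ hst _
    exact hst
  · intro s t hs hst _
    have h := S1a_ratio hs hst k m
    have c1 : (((m + 2 * k + 3 : ℕ) : ℝ) - 1) = (m : ℝ) + 2 * k + 2 := by push_cast; ring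
    have c2 : (((k + 2 : ℕ) : ℝ) - 1) = (k : ℝ) + 1 := by push_cast; ring
    simp only [c1, c2]
    exact h

end Pool.Agent.W_bbc525_c1
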