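import Pool.Agent.W_bbc525_c1.C0
import Pool.Agent.W_bbc525_c1.S1a

/-!
# S1, second step: the tangency

PROOF. Notation `ν1 t = (a-1) t^(a-2) + (b-1) t^(b-2)`, `Ψ t = ps a t + ps b t`,
`Ψ' t = (t^(a-1) - 1) + (t^(b-1) - 1)`. Fundamental theorem of calculus on `[1, x]`
(`intervalIntegral.integral_eq_sub_of_hasDerivAt`):
`∫ ν1 = Ψ' x` (`Ψ' 1 = 0`), `∫ t ν1 t = x Ψ' x - Ψ x` (the function `t Ψ' t - Ψ t` has
derivative `t ν1 t` and vanishes at `1`; `hasDerivAt_ps`, `ps_one`),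
`∫ dd'' v = dd' v x` (`hasDerivAt_dd'`, `dd'_one`), `∫ t dd'' v t = x dd' v x - dd v x`
(`hasDerivAt_dd`, `dd_one`); on `[1, x]`, `x < 1/v`, the function `dd'' v t = v/(t (1 - v t))` is
continuous. With `e1`, `e2`: `∫ dd'' v = (S/2) ∫ ν1` and `∫ t dd'' v t = (S/2) ∫ t ν1 t`.
Multiply `s1a` by `S/2 > 0`.
-/

set_option autoImplicit false

namespace Pool.Agent.W_bbc525_c1

open Set MeasureTheory Pool.Agent.W_MP_bbc525_pr Pool.Agent.W_bbc525_h89
  Pool.Agent.W_bbc525_td Pool.Agent.W_bbc525_ends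

/-- the second derivative of the polynomial part -/
private theorem s1b_poly {k : ℕ} (hk : 1 ≤ k) (t : ℝ) :
    HasDerivAt (fun t : ℝ => t ^ (k - 1) - 1) (((k : ℝ) - 1) * t ^ (k - 2)) t := by
  have h := (hasDerivAt_pow (k - 1) t).sub_const 1
  refine h.congr_deriv ?_
  rw [Nat.cast_sub hk, Nat.cast_one, Nat.sub_sub]

private theorem s1b_cont {v x : ℝ} (hv : 0 < v) (hx : 1 < x) (hx1 : x < 1 / v) :
    ContinuousOn (dd'' v) (uIcc 1 x) := by
  rw [uIcc_of_le hx.le]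
  unfold dd''
  apply ContinuousOn.div continuousOn_const
  · exact Continuous.continuousOn (by fun_prop)
  · intro t ht
    have h1 := one_sub_pos hv (lt_of_le_of_lt ht.2 hx1)
    have h2 : 0 < t := lt_of_lt_of_le one_pos ht.1
    positivity

theorem s1b {a b : ℕ} (hb : 2 ≤ b) (hab : 2 * b < a) {v S x : ℝ} (hv : 0 < v) (hv1 : v < 1)
    (hS : 0 < S) (hx : 1 < x) (hx1 : x < 1 / v)
    (e1 : S * (ps a x + ps b x) = 2 * dd v x)
    (e2 : S * ((x ^ (a - 1) - 1) + (x ^ (b - 1) - 1)) = 2 * dd' v x) :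
    (∫ t in (1 : ℝ)..x, t * t ^ (a - b - 1)) * (∫ t in (1 : ℝ)..x, dd'' v t) ≤
    (∫ t in (1 : ℝ)..x, t * dd'' v t) * (∫ t in (1 : ℝ)..x, t ^ (a - b - 1)) := by
  have ha1 : 1 ≤ a := by omega
  have hb1 : 1 ≤ b := by omega
  have hmem : ∀ t ∈ uIcc 1 x, 0 < t ∧ t < 1 / v := by
    intro t ht
    rw [uIcc_of_le hx.le] at ht
    exact ⟨lt_of_lt_of_le one_pos ht.1, lt_of_le_of_lt ht.2 hx1⟩
  have hc := s1b_cont hv hx hx1
  -- the polynomial integrals
  have p1 : (∫ t in (1 : ℝ)..x, (((a : ℝ) - 1) * t ^ (a - 2) + ((b : ℝ) - 1) * t ^ (b - 2))) =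
      (x ^ (a - 1) - 1) + (x ^ (b - 1) - 1) := by
    rw [intervalIntegral.integral_eq_sub_of_hasDerivAt
      (f := fun t : ℝ => (t ^ (a - 1) - 1) + (t ^ (b - 1) - 1))]
    · simp
    · intro t _
      exact (s1b_poly ha1 t).add (s1b_poly hb1 t)
    · exact Continuous.intervalIntegrable (by fun_prop) _ _
  have p2 : (∫ t in (1 : ℝ)..x,
      t * (((a : ℝ) - 1) * t ^ (a - 2) + ((b : ℝ) - 1) * t ^ (b - 2))) =
      x * ((x ^ (a - 1) - 1) + (x ^ (b - 1) - 1)) - (ps a x + ps b x) := by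
    rw [intervalIntegral.integral_eq_sub_of_hasDerivAt
      (f := fun t : ℝ => t * ((t ^ (a - 1) - 1) + (t ^ (b - 1) - 1)) - (ps a t + ps b t))]
    · simp [ps_one]
    · intro t _
      have h1 := (hasDerivAt_id t).mul ((s1b_poly ha1 t).add (s1b_poly hb1 t))
      have h2 := (hasDerivAt_ps (show 0 < a by omega) t).add (hasDerivAt_ps (show 0 < b by omega) t)
      refine (h1.sub h2).congr_deriv ?_
      simp only [id, Pi.add_apply]
      ring
    · exact Continuous.intervalIntegrable (by fun_prop) _ _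
  -- the entropy integrals
  have q1 : (∫ t in (1 : ℝ)..x, dd'' v t) = dd' v x := by
    rw [intervalIntegral.integral_eq_sub_of_hasDerivAt (f := dd' v), dd'_one, sub_zero]
    · intro t ht
      exact hasDerivAt_dd' hv (hmem t ht).1 (hmem t ht).2
    · exact hc.intervalIntegrable
  have q2 : (∫ t in (1 : ℝ)..x, t * dd'' v t) = x * dd' v x - dd v x := by
    rw [intervalIntegral.integral_eq_sub_of_hasDerivAt (f := fun t : ℝ => t * dd' v t - dd v t)]
    · simp [dd'_one, dd_one hv hv1]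
    · intro t ht
      have h1 := (hasDerivAt_id t).mul (hasDerivAt_dd' hv (hmem t ht).1 (hmem t ht).2)
      have h2 := hasDerivAt_dd hv hv1 (hmem t ht).1 (hmem t ht).2
      refine (h1.sub h2).congr_deriv ?_
      simp only [id]
      ring
    · exact (continuousOn_id.mul hc).intervalIntegrable
  have h := s1a hb hab hx
  rw [p1, p2] at h
  rw [q1, q2]
  have r1 : dd' v x = S / 2 * ((x ^ (a - 1) - 1) + (x ^ (b - 1) - 1)) := by linarith
  have r2 : dd v x = S / 2 * (ps a x + ps b x) := by linarith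
  rw [r1, r2]
  have h2 := mul_le_mul_of_nonneg_left h (show 0 ≤ S / 2 by positivity)
  linarith [h2]

end Pool.Agent.W_bbc525_c1
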