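import Mathlib

/-!
# A secant lemma for integrals

PROOF. If `h ≤ 0` on `[x, y]`: as `∫ h = 0` and `h` is continuous, `h = 0` on
`[x, y]` (`intervalIntegral.integral_pos` for `- h`, or a similar lemma) and the claim is
`0 ≤ 0`. Otherwise
`P = {t ∈ [x, y] | 0 < h t}` is nonempty; `u = sInf P`, `w = sSup P`, both in `[x, y]`, and by
`hq` every `t` with `u < t < w` is in `P`; every `t ∈ [x, y]` with `t < u` or `t > w` has
`h t ≤ 0`. `u < w`: else `P = {u}`, but `h > 0` near `u` in `[x, y]` by continuity (`x < y`).
Let `m = (H w - H u)/(w - u) ≥ 0` and `L t = H u + m (t - u)`. For `u ≤ t ≤ w`: `H t ≤ L t`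
(convexity), for `t ∈ [x, y]` outside `[u, w]`: `H t ≥ L t` (convexity: slopes are monotone,
`ConvexOn.slope_mono_adjacent`). So `(H t - L t) h t ≤ 0` for all `t ∈ [x, y]` (at `t = u` and
`t = w` the first factor is `0`), hence
`∫ H h ≤ ∫ L h = (H u - m u) ∫ h + m ∫ t h t ≤ 0`.
-/

set_option autoImplicit false

namespace Pool.Agent.W_bbc525_c1

open Set MeasureTheory

theorem uni_secant {x y : ℝ} (hxy : x < y) {h H : ℝ → ℝ} (hh : ContinuousOn h (Icc x y))
    (hH : ContinuousOn H (Icc x y)) (hconv : ConvexOn ℝ (Icc x y) H)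
    (hmono : ∀ s t, x ≤ s → s ≤ t → t ≤ y → H s ≤ H t)
    (hq : ∀ s t r, x ≤ s → s < t → t < r → r ≤ y → 0 < h s → 0 < h r → 0 < h t)
    (h0 : ∫ t in x..y, h t = 0) (h1 : ∫ t in x..y, t * h t ≤ 0) :
    ∫ t in x..y, H t * h t ≤ 0 := by
  have hI : IntervalIntegrable h volume x y := hh.intervalIntegrable_of_Icc hxy.le
  have htI : IntervalIntegrable (fun t => t * h t) volume x y :=
    (continuousOn_id.mul hh).intervalIntegrable_of_Icc hxy.le
  have hHI : IntervalIntegrable (fun t => H t * h t) volume x y :=
    (hH.mul hh).intervalIntegrable_of_Icc hxy.le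
  by_cases hA : ∀ t ∈ Icc x y, h t ≤ 0
  · have hz : ∀ t ∈ Icc x y, h t = 0 := by
      intro t ht
      by_contra hne
      have hlt : h t < 0 := lt_of_le_of_ne (hA t ht) hne
      have hpos : 0 < ∫ r in x..y, (- h r) :=
        intervalIntegral.integral_pos hxy hh.neg
          (fun r hr => by have := hA r (Ioc_subset_Icc_self hr); linarith)
          ⟨t, ht, by linarith⟩
      rw [intervalIntegral.integral_neg, h0] at hpos
      linarith
    have h2 : ∫ t in x..y, H t * h t = ∫ _t in x..y, (0 : ℝ) := by
      refine intervalIntegral.integral_congr fun t ht => ?_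
      rw [uIcc_of_le hxy.le] at ht
      show H t * h t = 0
      rw [hz t ht, mul_zero]
    rw [h2]
    simp
  · push Not at hA
    obtain ⟨t1, ht1, hp1⟩ := hA
    set P : Set ℝ := {t | t ∈ Icc x y ∧ 0 < h t} with hP
    have hPb : BddBelow P := ⟨x, fun t ht => ht.1.1⟩
    have hPa : BddAbove P := ⟨y, fun t ht => ht.1.2⟩
    have hPn : P.Nonempty := ⟨t1, ht1, hp1⟩
    set u := sInf P with hu
    set w := sSup P with hw
    have hxu : x ≤ u := le_csInf hPn fun t ht => ht.1.1
    have hwy : w ≤ y := csSup_le hPn fun t ht => ht.1.2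
    have hmem : ∀ t ∈ Icc x y, 0 < h t → u ≤ t ∧ t ≤ w := fun t ht hp =>
      ⟨csInf_le hPb ⟨ht, hp⟩, le_csSup hPa ⟨ht, hp⟩⟩
    have hF3 : ∀ t, u < t → t < w → 0 < h t := by
      intro t h3 h4
      obtain ⟨s, hs, hst⟩ := exists_lt_of_csInf_lt hPn h3
      obtain ⟨r, hr, htr⟩ := exists_lt_of_lt_csSup hPn h4
      exact hq s t r hs.1.1 hst htr hr.1.2 hs.2 hr.2
    have huw : u < w := by
      have h5 := hmem t1 ht1 hp1
      obtain ⟨δ, hδ, hδ2⟩ := Metric.continuousWithinAt_iff.1 (hh t1 ht1) (h t1) hp1
      have hnear : ∀ t ∈ Icc x y, |t - t1| < δ → 0 < h t := by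
        intro t ht h6
        have h7 := hδ2 ht (by rw [Real.dist_eq]; exact h6)
        rw [Real.dist_eq, abs_lt] at h7
        linarith [h7.1]
      rcases lt_or_eq_of_le ht1.2 with h6 | h6
      · set t2 := min (t1 + δ / 2) y with ht2
        have h7 : t1 < t2 := lt_min (by linarith) h6
        have h8 : t2 ≤ y := min_le_right _ _
        have h9 : t2 ≤ t1 + δ / 2 := min_le_left _ _
        have h10 := hmem t2 ⟨by linarith [ht1.1], h8⟩
          (hnear t2 ⟨by linarith [ht1.1], h8⟩ (by rw [abs_lt]; constructor <;> linarith))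
        linarith [h5.1, h10.2]
      · set t2 := max (t1 - δ / 2) x with ht2
        have h7 : t2 < t1 := max_lt (by linarith) (by rw [h6]; exact hxy)
        have h8 : x ≤ t2 := le_max_right _ _
        have h9 : t1 - δ / 2 ≤ t2 := le_max_left _ _
        have h10 := hmem t2 ⟨h8, by linarith [ht1.2]⟩
          (hnear t2 ⟨h8, by linarith [ht1.2]⟩ (by rw [abs_lt]; constructor <;> linarith))
        linarith [h5.2, h10.1]
    have huI : u ∈ Icc x y := ⟨hxu, by linarith⟩
    have hwI : w ∈ Icc x y := ⟨by linarith, hwy⟩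
    have hd : 0 < w - u := sub_pos.2 huw
    set m := (H w - H u) / (w - u) with hm
    have hm0 : 0 ≤ m := div_nonneg (sub_nonneg.2 (hmono u w hxu huw.le hwy)) hd.le
    have hmw : m * (w - u) = H w - H u := div_mul_cancel₀ _ hd.ne'
    have key : ∀ t ∈ Icc x y, H t * h t ≤ (H u - m * u) * h t + m * (t * h t) := by
      intro t ht
      have h6 : (H u - m * u) * h t + m * (t * h t) = (H u + m * (t - u)) * h t := by ring
      rw [h6]
      rcases lt_trichotomy t u with h7 | h7 | h7
      · have h8 : h t ≤ 0 := by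
          by_contra h9
          exact absurd (hmem t ht (not_le.1 h9)).1 (not_le.2 h7)
        have h9 := hconv.slope_mono_adjacent ht hwI h7 huw
        rw [← hm, div_le_iff₀ (sub_pos.2 h7)] at h9
        have h10 : H u + m * (t - u) ≤ H t := by linarith
        exact mul_le_mul_of_nonpos_right h10 h8
      · rw [h7]
        simp
      · rcases lt_trichotomy t w with h8 | h8 | h8
        · have h9 := hF3 t h7 h8
          have h10 := hconv.slope_mono_adjacent huI hwI h7 h8
          rw [div_le_div_iff₀ (sub_pos.2 h7) (sub_pos.2 h8)] at h10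
          have h11 : (H t - H u) * (w - u) ≤ (m * (t - u)) * (w - u) := by
            have h12 : (m * (t - u)) * (w - u) = (H w - H u) * (t - u) := by
              rw [← hmw]
              ring
            rw [h12]
            nlinarith
          have h12 := le_of_mul_le_mul_right h11 hd
          exact mul_le_mul_of_nonneg_right (by linarith) h9.le
        · rw [h8, hmw]
          have h9 : H u + (H w - H u) = H w := by ring
          rw [h9]
        · have h9 : h t ≤ 0 := by
            by_contra h10
            exact absurd (hmem t ht (not_le.1 h10)).2 (not_le.2 h8)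
          have h10 := hconv.slope_mono_adjacent huI ht huw h8
          rw [← hm, le_div_iff₀ (sub_pos.2 h8)] at h10
          have h11 : H u + m * (t - u) ≤ H t := by nlinarith
          exact mul_le_mul_of_nonpos_right h11 h9
    have hLI : IntervalIntegrable (fun t => (H u - m * u) * h t + m * (t * h t)) volume x y :=
      (hI.const_mul _).add (htI.const_mul _)
    have h6 := intervalIntegral.integral_mono_on hxy.le hHI hLI key
    have h7 : ∫ t in x..y, ((H u - m * u) * h t + m * (t * h t)) =
        m * ∫ t in x..y, t * h t := by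
      rw [intervalIntegral.integral_add (hI.const_mul _) (htI.const_mul _),
        intervalIntegral.integral_const_mul, intervalIntegral.integral_const_mul, h0, mul_zero,
        zero_add]
    rw [h7] at h6
    have h8 := mul_nonpos_of_nonneg_of_nonpos hm0 h1
    linarith

end Pool.Agent.W_bbc525_c1
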