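import Pool.Agent.W_bbc525_c1.C0
import Pool.Agent.W_bbc525_c1.Um

/-!
# S1, third step: unimodality

PROOF. `I2 = ∫ dd'' v > 0`, `I3 = ∫ t^n > 0` (`n = a - b - 1`) on `[1, x]`. Apply `uni_secant`
on `[1, x]` with `h t = t^n * I2 - dd'' v t * I3` and `H t = t^b` (convex on `[1, x]`:
`convexOn_pow`, monotone). `∫ h = I3 I2 - I2 I3 = 0`; `∫ t h t = (∫ t t^n) I2 - (∫ t dd'' v t) I3
≤ 0` is the hypothesis `hle`. Unimodality `hq`: `dd'' v t = v / (t (1 - v t))`, so for
`t ∈ [1, x]`: `0 < h t` iff `c < m t` with `m t = t^(n+1) (1 - v t)`, `c = v I3 / I2`. `m` has the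
derivative `t^n ((n+1) - (n+2) v t)`, so it is increasing for `t ≤ t* = (n+1)/((n+2) v)` and
decreasing for `t ≥ t*`: for `s < t < r`, if `t ≤ t*` then `m t ≥ m s > c`, otherwise
`m t ≥ m r > c`. The conclusion `∫ t^b h t ≤ 0` is the claim.
-/

set_option autoImplicit false

namespace Pool.Agent.W_bbc525_c1

open Set MeasureTheory Pool.Agent.W_MP_bbc525_pr Pool.Agent.W_bbc525_h89
  Pool.Agent.W_bbc525_td Pool.Agent.W_bbc525_ends

private theorem s1c_deriv (n : ℕ) (v t : ℝ) :
    HasDerivAt (fun t : ℝ => t ^ (n + 1) * (1 - v * t))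
      (t ^ n * (((n : ℝ) + 1) - ((n : ℝ) + 2) * (v * t))) t := by
  have h1 := hasDerivAt_pow (n + 1) t
  have h2 : HasDerivAt (fun t : ℝ => 1 - v * t) (-(v * 1)) t :=
    ((hasDerivAt_id t).const_mul v).const_sub 1
  refine (h1.mul h2).congr_deriv ?_
  rw [Nat.add_sub_cancel]
  push_cast
  ring

private theorem s1c_quasi (n : ℕ) {v c s t r : ℝ} (hv : 0 < v) (hs : 0 < s) (hst : s < t)
    (htr : t < r) (h1 : c < s ^ (n + 1) * (1 - v * s)) (h2 : c < r ^ (n + 1) * (1 - v * r)) :
    c < t ^ (n + 1) * (1 - v * t) := by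
  have ht : 0 < t := hs.trans hst
  have hn : (0 : ℝ) ≤ n := Nat.cast_nonneg n
  by_cases hc : ((n : ℝ) + 2) * (v * t) ≤ (n : ℝ) + 1
  · have hm : MonotoneOn (fun t : ℝ => t ^ (n + 1) * (1 - v * t)) (Icc s t) := by
      refine monotoneOn_of_deriv_nonneg (convex_Icc s t) ?_ ?_ ?_
      · exact fun y _ => (s1c_deriv n v y).continuousAt.continuousWithinAt
      · exact fun y _ => (s1c_deriv n v y).differentiableAt.differentiableWithinAt
      · intro y hy
        rw [interior_Icc] at hy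
        rw [(s1c_deriv n v y).deriv]
        have hy0 : 0 < y := hs.trans hy.1
        have h3 : v * y ≤ v * t := mul_le_mul_of_nonneg_left hy.2.le hv.le
        have h4 : ((n : ℝ) + 2) * (v * y) ≤ ((n : ℝ) + 2) * (v * t) :=
          mul_le_mul_of_nonneg_left h3 (by linarith)
        exact mul_nonneg (pow_pos hy0 n).le (by linarith)
    exact h1.trans_le (hm (left_mem_Icc.2 hst.le) (right_mem_Icc.2 hst.le) hst.le)
  · have hc' := not_le.1 hc
    have hm : AntitoneOn (fun t : ℝ => t ^ (n + 1) * (1 - v * t)) (Icc t r) := by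
      refine antitoneOn_of_deriv_nonpos (convex_Icc t r) ?_ ?_ ?_
      · exact fun y _ => (s1c_deriv n v y).continuousAt.continuousWithinAt
      · exact fun y _ => (s1c_deriv n v y).differentiableAt.differentiableWithinAt
      · intro y hy
        rw [interior_Icc] at hy
        rw [(s1c_deriv n v y).deriv]
        have hy0 : 0 < y := ht.trans hy.1
        have h3 : v * t ≤ v * y := mul_le_mul_of_nonneg_left hy.1.le hv.le
        have h4 : ((n : ℝ) + 2) * (v * t) ≤ ((n : ℝ) + 2) * (v * y) :=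
          mul_le_mul_of_nonneg_left h3 (by linarith)
        exact mul_nonpos_of_nonneg_of_nonpos (pow_pos hy0 n).le (by linarith)
    exact h2.trans_le (hm (left_mem_Icc.2 htr.le) (right_mem_Icc.2 htr.le) htr.le)

theorem s1c {n b : ℕ} {v x : ℝ} (hv : 0 < v) (hv1 : v < 1)
    (hx : 1 < x) (hx1 : x < 1 / v)
    (hle : (∫ t in (1 : ℝ)..x, t * t ^ n) * (∫ t in (1 : ℝ)..x, dd'' v t) ≤
      (∫ t in (1 : ℝ)..x, t * dd'' v t) * (∫ t in (1 : ℝ)..x, t ^ n)) :
    (∫ t in (1 : ℝ)..x, t ^ b * t ^ n) * (∫ t in (1 : ℝ)..x, dd'' v t) ≤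
      (∫ t in (1 : ℝ)..x, t ^ b * dd'' v t) * (∫ t in (1 : ℝ)..x, t ^ n) := by
  have hlt : ∀ t : ℝ, t ≤ x → 0 < 1 - v * t := fun t ht => one_sub_pos hv (ht.trans_lt hx1)
  have hdc : ContinuousOn (dd'' v) (Icc 1 x) := by
    have h1 : ContinuousOn (fun t : ℝ => v / (t * (1 - v * t))) (Icc 1 x) := by
      refine ContinuousOn.div (by fun_prop) (by fun_prop) fun t ht => ?_
      have h2 := hlt t ht.2
      have h3 : 0 < t := by linarith [ht.1]
      exact (mul_pos h3 h2).ne'
    exact h1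
  have hdp : ∀ t : ℝ, 1 ≤ t → t ≤ x → 0 < dd'' v t := fun t h1 h2 => by
    have h3 := hlt t h2
    have h4 : 0 < t := by linarith
    show 0 < v / (t * (1 - v * t))
    positivity
  set I2 := ∫ t in (1 : ℝ)..x, dd'' v t with hI2
  set I3 := ∫ t in (1 : ℝ)..x, t ^ n with hI3
  have hnI : ∀ k : ℕ, IntervalIntegrable (fun t : ℝ => t ^ k * t ^ n) volume 1 x := fun k =>
    (by fun_prop : Continuous fun t : ℝ => t ^ k * t ^ n).intervalIntegrable _ _
  have hdI : ∀ k : ℕ, IntervalIntegrable (fun t : ℝ => t ^ k * dd'' v t) volume 1 x := fun k =>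
    ((by fun_prop : Continuous fun t : ℝ => t ^ k).continuousOn.mul hdc).intervalIntegrable_of_Icc
      hx.le
  have hI2p : 0 < I2 := by
    refine intervalIntegral.integral_pos hx hdc (fun t ht => (hdp t ht.1.le ht.2).le)
      ⟨1, left_mem_Icc.2 hx.le, hdp 1 le_rfl hx.le⟩
  have hI3p : 0 < I3 := by
    refine intervalIntegral.integral_pos hx (by fun_prop) (fun t ht => ?_)
      ⟨1, left_mem_Icc.2 hx.le, by norm_num⟩
    have h1 : 0 < t := by linarith [ht.1]
    exact (pow_pos h1 n).le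
  have hint : ∀ k : ℕ, ∫ t in (1 : ℝ)..x, t ^ k * (t ^ n * I2 - dd'' v t * I3) =
      (∫ t in (1 : ℝ)..x, t ^ k * t ^ n) * I2 - (∫ t in (1 : ℝ)..x, t ^ k * dd'' v t) * I3 := by
    intro k
    rw [← intervalIntegral.integral_mul_const, ← intervalIntegral.integral_mul_const,
      ← intervalIntegral.integral_sub ((hnI k).mul_const _) ((hdI k).mul_const _)]
    refine intervalIntegral.integral_congr fun t _ => ?_
    show t ^ k * (t ^ n * I2 - dd'' v t * I3) = t ^ k * t ^ n * I2 - t ^ k * dd'' v t * I3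
    ring
  have hmain := uni_secant (x := 1) (y := x) hx
    (h := fun t => t ^ n * I2 - dd'' v t * I3) (H := fun t => t ^ b)
    (((by fun_prop : Continuous fun t : ℝ => t ^ n * I2).continuousOn).sub
      (hdc.mul continuousOn_const)) (by fun_prop)
    ((convexOn_pow b).subset (fun t ht => le_trans zero_le_one ht.1) (convex_Icc 1 x))
    (fun s t hs hst _ => pow_le_pow_left₀ (by linarith) hst b) ?_ ?_ ?_
  · have h1 := hint b
    have h2 : ∫ t in (1 : ℝ)..x, t ^ b * (t ^ n * I2 - dd'' v t * I3) ≤ 0 := hmain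
    rw [h1] at h2
    linarith
  · intro s t r hs hst htr hr hps hpr
    have e : ∀ y : ℝ, 1 ≤ y → y ≤ x → (0 < y ^ n * I2 - dd'' v y * I3 ↔
        v * I3 / I2 < y ^ (n + 1) * (1 - v * y)) := by
      intro y hy1 hyx
      have h3 := hlt y hyx
      have h4 : 0 < y := by linarith
      have h5 : dd'' v y = v / (y * (1 - v * y)) := rfl
      rw [h5, sub_pos, div_mul_eq_mul_div, div_lt_iff₀ (by positivity), div_lt_iff₀ hI2p]
      have h6 : y ^ n * I2 * (y * (1 - v * y)) = y ^ (n + 1) * (1 - v * y) * I2 := by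
        ring
      rw [h6]
    have hps' := (e s hs (by linarith)).1 hps
    have hpr' := (e r (by linarith) hr).1 hpr
    exact (e t (by linarith) (by linarith)).2
      (s1c_quasi n hv (by linarith) hst htr hps' hpr')
  · have h1 := hint 0
    simp only [pow_zero, one_mul] at h1
    rw [h1]
    rw [← hI2, ← hI3]
    ring
  · have h1 := hint 1
    simp only [pow_one] at h1
    rw [h1]
    linarith

end Pool.Agent.W_bbc525_c1
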