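import Pool.Agent.W_bbc525_c1.C0
import Pool.Agent.W_bbc525_c1.Lr

/-!
# S1, fourth step

PROOF. `cheb_int` on `[1, x]` with `H t = t^b`, `g = dd'' v` (`dd'' v t = v / (t (1 - v t))`),
`f t = b t^(b-1) / (Z - t^b)`, `Z = (1/v)^b` (`t ≤ x < 1/v`, so `t^b < Z`). Needed:
`f s * g t ≤ f t * g s` for `1 ≤ s ≤ t ≤ x`. `Z - t^b = Z (1 - (v t)^b)
= Z (1 - v t) Σ_{i<b} (v t)^i` (`mul_neg_geom_sum` or `geom_sum_mul_neg`), hence
`f t / g t = b t^b / (v Z Σ_{i<b} (v t)^i)`, and the claim is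
`s^b Σ (v t)^i ≤ t^b Σ (v s)^i`, which holds term by term: `s^b t^i ≤ t^b s^i` since
`s^(b-i) ≤ t^(b-i)` for `i < b`.
-/

set_option autoImplicit false

namespace Pool.Agent.W_bbc525_c1

open Set MeasureTheory Pool.Agent.W_MP_bbc525_pr Pool.Agent.W_bbc525_h89
  Pool.Agent.W_bbc525_td Pool.Agent.W_bbc525_ends

private theorem s1d_geom {b : ℕ} {v r : ℝ} (hv : 0 < v) :
    (1 / v) ^ b - r ^ b =
      (1 / v) ^ b * ((1 - v * r) * ∑ i ∈ Finset.range b, (v * r) ^ i) := by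
  have h1 : (1 - v * r) * ∑ i ∈ Finset.range b, (v * r) ^ i = 1 - (v * r) ^ b := by
    have h := geom_sum_mul_neg (v * r) b
    linarith [mul_comm (1 - v * r) (∑ i ∈ Finset.range b, (v * r) ^ i)]
  have h2 : (1 / v) ^ b * (v * r) ^ b = r ^ b := by
    rw [← mul_pow]
    congr 1
    field_simp
  rw [h1, mul_sub, mul_one, h2]

private theorem s1d_sum {b : ℕ} {v s t : ℝ} (hv : 0 < v) (hs : 0 < s) (hst : s ≤ t) :
    s ^ b * ∑ i ∈ Finset.range b, (v * t) ^ i ≤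
      t ^ b * ∑ i ∈ Finset.range b, (v * s) ^ i := by
  rw [Finset.mul_sum, Finset.mul_sum]
  refine Finset.sum_le_sum fun i hi => ?_
  obtain ⟨k, rfl⟩ := Nat.exists_eq_add_of_lt (Finset.mem_range.1 hi)
  have ht : 0 < t := hs.trans_le hst
  have h1 : s ^ (k + 1) ≤ t ^ (k + 1) := pow_le_pow_left₀ hs.le hst _
  have h2 : 0 ≤ (s * t * v) ^ i := by positivity
  have h3 := mul_le_mul_of_nonneg_left h1 h2
  have e1 : s ^ (i + k + 1) * (v * t) ^ i = (s * t * v) ^ i * s ^ (k + 1) := by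
    rw [mul_pow, mul_pow, mul_pow, add_assoc, pow_add]
    ring
  have e2 : t ^ (i + k + 1) * (v * s) ^ i = (s * t * v) ^ i * t ^ (k + 1) := by
    rw [mul_pow, mul_pow, mul_pow, add_assoc, pow_add]
    ring
  rw [e1, e2]
  exact h3

theorem s1d {b : ℕ} (hb : 1 ≤ b) {v x : ℝ} (hv : 0 < v) (hv1 : v < 1)
    (hx : 1 < x) (hx1 : x < 1 / v) :
    (∫ t in (1 : ℝ)..x, t ^ b * dd'' v t) *
      (∫ t in (1 : ℝ)..x, (b : ℝ) * t ^ (b - 1) / ((1 / v) ^ b - t ^ b)) ≤
    (∫ t in (1 : ℝ)..x, t ^ b * ((b : ℝ) * t ^ (b - 1) / ((1 / v) ^ b - t ^ b))) *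
      (∫ t in (1 : ℝ)..x, dd'' v t) := by
  have hv' : (0 : ℝ) < 1 / v := one_div_pos.2 hv
  have hlt : ∀ t : ℝ, 1 ≤ t → t ≤ x → 0 < 1 - v * t := fun t _ ht => one_sub_pos hv (ht.trans_lt hx1)
  have hZ : ∀ t : ℝ, 1 ≤ t → t ≤ x → 0 < (1 / v) ^ b - t ^ b := fun t h1 ht => by
    have h2 : t ^ b < (1 / v) ^ b :=
      pow_lt_pow_left₀ (ht.trans_lt hx1) (by linarith) (by omega)
    linarith
  refine cheb_int (f := fun t => (b : ℝ) * t ^ (b - 1) / ((1 / v) ^ b - t ^ b)) (g := dd'' v)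
    (H := fun t => t ^ b) hx.le ?_ ?_ (by fun_prop) ?_ ?_
  · refine ContinuousOn.div (by fun_prop) (by fun_prop) fun t ht => ?_
    exact (hZ t ht.1 ht.2).ne'
  · have h1 : ContinuousOn (fun t : ℝ => v / (t * (1 - v * t))) (Icc 1 x) := by
      refine ContinuousOn.div (by fun_prop) (by fun_prop) fun t ht => ?_
      have h2 := hlt t ht.1 ht.2
      have h3 : 0 < t := by linarith [ht.1]
      exact (mul_pos h3 h2).ne'
    exact h1
  · intro s t hs hst _
    exact pow_le_pow_left₀ (by linarith) hst b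
  · intro s t hs hst ht
    have hs0 : 0 < s := by linarith
    have ht0 : 0 < t := by linarith
    have hks := hlt s hs (hst.trans ht)
    have hkt := hlt t (hs.trans hst) ht
    have hsum := s1d_sum (b := b) hv hs0 hst
    have hG : ∀ r : ℝ, 0 < r → 0 < ∑ i ∈ Finset.range b, (v * r) ^ i := fun r hr => by
      refine Finset.sum_pos (fun i _ => by positivity) ?_
      exact Finset.nonempty_range_iff.2 (by omega)
    have hGs := hG s hs0
    have hGt := hG t ht0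
    show (b : ℝ) * s ^ (b - 1) / ((1 / v) ^ b - s ^ b) * (v / (t * (1 - v * t))) ≤
      (b : ℝ) * t ^ (b - 1) / ((1 / v) ^ b - t ^ b) * (v / (s * (1 - v * s)))
    rw [s1d_geom (b := b) (r := s) hv, s1d_geom (b := b) (r := t) hv, div_mul_div_comm,
      div_mul_div_comm, div_le_div_iff₀ (by positivity) (by positivity)]
    have es : s ^ (b - 1) * s = s ^ b := by
      rw [← pow_succ, Nat.sub_add_cancel hb]
    have et : t ^ (b - 1) * t = t ^ b := by
      rw [← pow_succ, Nat.sub_add_cancel hb]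
    have hC : 0 ≤ (b : ℝ) * v * (1 / v) ^ b * (1 - v * s) * (1 - v * t) := by positivity
    have h5 := mul_le_mul_of_nonneg_left hsum hC
    rw [← es, ← et] at h5
    calc (b : ℝ) * s ^ (b - 1) * v * ((1 / v) ^ b * ((1 - v * t) *
          ∑ i ∈ Finset.range b, (v * t) ^ i) * (s * (1 - v * s)))
        = (b : ℝ) * v * (1 / v) ^ b * (1 - v * s) * (1 - v * t) *
          (s ^ (b - 1) * s * ∑ i ∈ Finset.range b, (v * t) ^ i) := by ring
      _ ≤ (b : ℝ) * v * (1 / v) ^ b * (1 - v * s) * (1 - v * t) *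
          (t ^ (b - 1) * t * ∑ i ∈ Finset.range b, (v * s) ^ i) := h5
      _ = (b : ℝ) * t ^ (b - 1) * v * ((1 / v) ^ b * ((1 - v * s) *
          ∑ i ∈ Finset.range b, (v * s) ^ i) * (t * (1 - v * t))) := by ring

end Pool.Agent.W_bbc525_c1
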