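import Pool.Agent.W_bbc525_c1.Zt
import Pool.Agent.W_bbc525_c1.S1b
import Pool.Agent.W_bbc525_c1.S1c
import Pool.Agent.W_bbc525_c1.S1d

/-!
# S1

PROOF. On `[1, x]` write `n = a - b - 1`, `Z = (1/v)^b`, `Y = x^b` (`1 < Y < Z`),
`I2 = ∫ dd'' v > 0`, `K2 = ∫ t^b dd'' v t`, `I3 = ∫ t^n`, `K3 = ∫ t^b t^n`,
`I4 = ∫ b t^(b-1)/(Z - t^b)`, `K4 = ∫ t^b (b t^(b-1)/(Z - t^b))`. `s1b` and `s1c` give
`K3 I2 ≤ K2 I3`, `s1d` gives `K2 I4 ≤ K4 I2`; all integrals are positive, so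
`K3 I4 I2 ≤ K2 I3 I4 ≤ K4 I2 I3`, i.e. `K3 I4 ≤ K4 I3`.
Fundamental theorem of calculus: `I3 = (x^(a-b) - 1)/(a-b)`, `K3 = (x^a - 1)/a`
(`integral_pow`, `b + n = a - 1`), `I4 = bt' Z Y = log ((Z-1)/(Z-Y))` (the antiderivative of
`b t^(b-1)/(Z - t^b)` is `- log (Z - t^b)`), `K4 = Y bt' Z Y - bt Z Y` (antiderivative
`t ↦ - t^b - Z log (Z - t^b)`, and `Y bt' - bt = Z log ((Z-1)/(Z-Y)) - (Y - 1)`, as
`bt Z Y = (Y - 1) - (Z - Y) log ((Z-1)/(Z-Y))`). With `θ = a/b`: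
`zet' θ Y = θ (x^(a-b) - 1) = θ (a-b) I3` and `Y zet' θ Y - zet θ Y = (θ - 1)(x^a - 1)
= (θ - 1) a K3 = θ (a - b) K3` (`zet_pow`, `zet'_pow`, `x^b x^(a-b) = x^a`,
`(θ - 1) a = θ (a - b)`). So `K3 I4 ≤ K4 I3` times `θ (a-b) > 0` reads
`(Y zet' - zet) bt' ≤ (Y bt' - bt) zet'`, which is the claim.
-/

set_option autoImplicit false

namespace Pool.Agent.W_bbc525_c1

open Set MeasureTheory Pool.Agent.W_MP_bbc525_pr Pool.Agent.W_bbc525_h89
  Pool.Agent.W_bbc525_td Pool.Agent.W_bbc525_ends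

private theorem S1_Z {b : ℕ} (hb : 1 ≤ b) {v x t : ℝ} (hx1 : x < 1 / v) (h1 : 1 ≤ t)
    (ht : t ≤ x) : 0 < (1 / v) ^ b - t ^ b := by
  have h2 : t ^ b < (1 / v) ^ b :=
    pow_lt_pow_left₀ (ht.trans_lt hx1) (by linarith) (by omega)
  linarith

private theorem S1_f {b : ℕ} (hb : 1 ≤ b) {v x : ℝ} (hx1 : x < 1 / v) :
    ContinuousOn (fun t : ℝ => (b : ℝ) * t ^ (b - 1) / ((1 / v) ^ b - t ^ b)) (Icc 1 x) :=
  ContinuousOn.div (by fun_prop) (by fun_prop) fun _ ht => (S1_Z hb hx1 ht.1 ht.2).ne'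

private theorem S1_g {v x : ℝ} (hv : 0 < v) (hx1 : x < 1 / v) :
    ContinuousOn (fun t => dd'' v t) (Icc 1 x) := by
  have h1 : ContinuousOn (fun t : ℝ => v / (t * (1 - v * t))) (Icc 1 x) := by
    refine ContinuousOn.div (by fun_prop) (by fun_prop) fun t ht => ?_
    have h2 := one_sub_pos hv (ht.2.trans_lt hx1)
    have h3 : 0 < t := by linarith [ht.1]
    exact (mul_pos h3 h2).ne'
  exact h1

private theorem S1_I2 {v x : ℝ} (hv : 0 < v) (hx : 1 < x) (hx1 : x < 1 / v) :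
    0 < ∫ t in (1 : ℝ)..x, dd'' v t := by
  refine intervalIntegral.intervalIntegral_pos_of_pos_on ?_ ?_ hx
  · refine ContinuousOn.intervalIntegrable ?_
    rw [uIcc_of_le hx.le]
    exact S1_g hv hx1
  · intro t ht
    have h2 := one_sub_pos hv (ht.2.trans hx1)
    have h3 : 0 < t := by linarith [ht.1]
    exact div_pos hv (mul_pos h3 h2)

private theorem S1_I4 {b : ℕ} (hb : 1 ≤ b) {v x : ℝ} (hx : 1 < x) (hx1 : x < 1 / v) :
    (∫ t in (1 : ℝ)..x, (b : ℝ) * t ^ (b - 1) / ((1 / v) ^ b - t ^ b)) =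
      bt' ((1 / v) ^ b) (x ^ b) := by
  have hu : uIcc (1 : ℝ) x = Icc 1 x := uIcc_of_le hx.le
  have h := intervalIntegral.integral_eq_sub_of_hasDerivAt
    (f := fun t : ℝ => -Real.log ((1 / v) ^ b - t ^ b))
    (f' := fun t : ℝ => (b : ℝ) * t ^ (b - 1) / ((1 / v) ^ b - t ^ b)) (a := 1) (b := x) (by
      intro t ht
      rw [hu] at ht
      have h1 := ((((hasDerivAt_pow b t).const_sub ((1 / v) ^ b))).log
        (S1_Z hb hx1 ht.1 ht.2).ne').neg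
      refine h1.congr_deriv ?_
      rw [neg_div, neg_neg]) (by
      refine ContinuousOn.intervalIntegrable ?_
      rw [hu]
      exact S1_f hb hx1)
  rw [h]
  have h1 := S1_Z hb hx1 le_rfl hx.le
  have h2 := S1_Z hb hx1 hx.le le_rfl
  rw [one_pow] at h1
  unfold bt'
  rw [Real.log_div h1.ne' h2.ne']
  simp only [one_pow]
  ring

private theorem S1_K4 {b : ℕ} (hb : 1 ≤ b) {v x : ℝ} (hx : 1 < x) (hx1 : x < 1 / v) :
    (∫ t in (1 : ℝ)..x, t ^ b * ((b : ℝ) * t ^ (b - 1) / ((1 / v) ^ b - t ^ b))) =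
      x ^ b * bt' ((1 / v) ^ b) (x ^ b) - bt ((1 / v) ^ b) (x ^ b) := by
  have hu : uIcc (1 : ℝ) x = Icc 1 x := uIcc_of_le hx.le
  have h := intervalIntegral.integral_eq_sub_of_hasDerivAt
    (f := fun t : ℝ => -t ^ b - (1 / v) ^ b * Real.log ((1 / v) ^ b - t ^ b))
    (f' := fun t : ℝ => t ^ b * ((b : ℝ) * t ^ (b - 1) / ((1 / v) ^ b - t ^ b)))
    (a := 1) (b := x) (by
      intro t ht
      rw [hu] at ht
      have h0 := S1_Z hb hx1 ht.1 ht.2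
      have h1 := (hasDerivAt_pow b t).neg.sub ((((hasDerivAt_pow b t).const_sub
        ((1 / v) ^ b)).log h0.ne').const_mul ((1 / v) ^ b))
      refine h1.congr_deriv ?_
      have h2 := h0.ne'
      set Z := (1 / v) ^ b
      field_simp
      ring) (by
      refine ContinuousOn.intervalIntegrable ?_
      rw [hu]
      exact (continuous_pow b).continuousOn.mul (S1_f hb hx1))
  rw [h]
  have h1 := S1_Z hb hx1 le_rfl hx.le
  have h2 := S1_Z hb hx1 hx.le le_rfl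
  rw [one_pow] at h1
  unfold bt' bt
  rw [Real.log_div h1.ne' h2.ne', Real.log_div h2.ne' h1.ne']
  simp only [one_pow]
  ring

theorem s1 {a b : ℕ} (hb : 2 ≤ b) (hab : 2 * b < a) {v S x : ℝ} (hv : 0 < v) (hv1 : v < 1)
    (hS : 0 < S) (hx : 1 < x) (hx1 : x < 1 / v)
    (e1 : S * (ps a x + ps b x) = 2 * dd v x)
    (e2 : S * ((x ^ (a - 1) - 1) + (x ^ (b - 1) - 1)) = 2 * dd' v x) :
    bt ((1 / v) ^ b) (x ^ b) * zet' ((a : ℝ) / b) (x ^ b) ≤
      bt' ((1 / v) ^ b) (x ^ b) * zet ((a : ℝ) / b) (x ^ b) := by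
  have hb1 : 1 ≤ b := by omega
  have q1 := s1c (n := a - b - 1) (b := b) hv hv1 hx hx1 (s1b hb hab hv hv1 hS hx hx1 e1 e2)
  have q2 := s1d (b := b) hb1 hv hv1 hx hx1
  have hI2 := S1_I2 hv hx hx1
  have hI3 : 0 ≤ ∫ t in (1 : ℝ)..x, t ^ (a - b - 1) :=
    intervalIntegral.integral_nonneg hx.le fun t ht => pow_nonneg (by linarith [ht.1]) _
  have hI4 : 0 ≤ ∫ t in (1 : ℝ)..x, (b : ℝ) * t ^ (b - 1) / ((1 / v) ^ b - t ^ b) := by
    refine intervalIntegral.integral_nonneg hx.le fun t ht => ?_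
    have h0 := S1_Z hb1 hx1 ht.1 ht.2
    have h1 : 0 ≤ t := by linarith [ht.1]
    positivity
  have e3 : (∫ t in (1 : ℝ)..x, t ^ (a - b - 1)) = (x ^ (a - b) - 1) / ((a : ℝ) - b) := by
    rw [integral_pow, one_pow, show a - b - 1 + 1 = a - b by omega, Nat.cast_sub (by omega),
      Nat.cast_sub (by omega)]
    congr 1
    push_cast
    ring
  have e4 : (∫ t in (1 : ℝ)..x, t ^ b * t ^ (a - b - 1)) = (x ^ a - 1) / (a : ℝ) := by
    have h1 : (fun t : ℝ => t ^ b * t ^ (a - b - 1)) = fun t => t ^ (a - 1) := by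
      funext t
      rw [← pow_add]
      congr 1
      omega
    rw [h1, integral_pow, one_pow, show a - 1 + 1 = a by omega, Nat.cast_sub (by omega)]
    congr 1
    push_cast
    ring
  have e5 := S1_I4 (b := b) hb1 hx hx1
  have e6 := S1_K4 (b := b) hb1 hx hx1
  have q3 : (x ^ a - 1) / (a : ℝ) * bt' ((1 / v) ^ b) (x ^ b) ≤
      (x ^ b * bt' ((1 / v) ^ b) (x ^ b) - bt ((1 / v) ^ b) (x ^ b)) *
        ((x ^ (a - b) - 1) / ((a : ℝ) - b)) := by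
    rw [← e3, ← e4, ← e6, ← e5]
    have h1 := mul_le_mul_of_nonneg_right q1 hI4
    have h2 := mul_le_mul_of_nonneg_right q2 hI3
    refine le_of_mul_le_mul_right ?_ hI2
    nlinarith
  have hx0 : 0 < x := by linarith
  have hB : (0 : ℝ) < b := by exact_mod_cast hb1
  have hAB : (0 : ℝ) < (a : ℝ) - b := by
    have : (b : ℝ) < a := by exact_mod_cast (by omega : b < a)
    linarith
  have hA : (0 : ℝ) < a := by linarith
  rw [zet_pow hb1 hx0.le, zet'_pow hb1 (by omega) hx0]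
  have hxa : x ^ a = x ^ b * x ^ (a - b) := by
    rw [← pow_add]
    congr 1
    omega
  rw [hxa] at q3 ⊢
  set L := bt' ((1 / v) ^ b) (x ^ b)
  set M := bt ((1 / v) ^ b) (x ^ b)
  set Y := x ^ b
  set W := x ^ (a - b)
  have q4 := mul_le_mul_of_nonneg_left q3 (mul_nonneg (div_nonneg hA.le hB.le) hAB.le)
  have e7 : (a : ℝ) / b * ((a : ℝ) - b) * ((Y * W - 1) / (a : ℝ) * L) =
      ((a : ℝ) / b - 1) * (Y * W - 1) * L := by
    field_simp
  have e8 : (a : ℝ) / b * ((a : ℝ) - b) * ((Y * L - M) * ((W - 1) / ((a : ℝ) - b))) =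
      (a : ℝ) / b * (W - 1) * (Y * L - M) := by
    field_simp
  rw [e7, e8] at q4
  linarith

end Pool.Agent.W_bbc525_c1
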