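import Mathlib

/-!
# Tangent lines

PROOF. On `(0, 1]` the derivative `f'` is strictly increasing, so for `x ∈ (0, 1]`, `x ≠ l`:
`f l + f' l (x - l) < f x` (mean value theorem on the interval between `l` and `x`, twice; or
`StrictConvexOn`), and for `x = 0` by continuity: pick `y = l / 2`; the function
`f - tangent` has derivative `f' - f' l < 0` on `(0, l)`, so it is antitone on `[0, l]` (continuous)
and `(f - tangent) 0 ≥ (f - tangent) (l/2) > 0`. In particular at `x = 1`: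
`f l + f' l (1 - l) < f 1 = 0`. Also `f' l < f' 1 = 0`. For `x ∈ [1, ω]`:
`f l + f' l (x - l) = (f l + f' l (1 - l)) + f' l (x - 1) < 0 ≤ f x` (at `x = ω` by continuity:
`f ω ≥ 0` because `f ≥ 0` on `(0, ω)`, e.g. `ge_of_tendsto` or closure of `Ioo 0 ω`).
-/

set_option autoImplicit false

namespace Pool.Agent.W_bbc525_c1

open Set

theorem tan_gen {f f' f'' : ℝ → ℝ} {ω : ℝ} (hω : 1 < ω) (hc : ContinuousOn f (Icc 0 ω))
    (h1 : ∀ x, 0 < x → x < ω → HasDerivAt f (f' x) x)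
    (h2 : ∀ x, 0 < x → x < ω → HasDerivAt f' (f'' x) x)
    (hf : ∀ x, 0 < x → x < ω → 0 ≤ f x) (h'' : ∀ x, 0 < x → x ≤ 1 → 0 < f'' x)
    (f1 : f 1 = 0) (f1' : f' 1 = 0) {l : ℝ} (hl0 : 0 < l) (hl1 : l < 1) {x : ℝ} (hx0 : 0 ≤ x)
    (hx1 : x ≤ ω) (hxl : x ≠ l) : f l + f' l * (x - l) < f x := by
  have hmono : StrictMonoOn f' (Ioc 0 1) := by
    refine strictMonoOn_of_deriv_pos (convex_Ioc 0 1) ?_ ?_
    · intro y hy
      exact (h2 y hy.1 (hy.2.trans_lt hω)).continuousAt.continuousWithinAt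
    · intro y hy
      rw [interior_Ioc] at hy
      rw [(h2 y hy.1 (hy.2.trans hω)).deriv]
      exact h'' y hy.1 hy.2.le
  have hgd : ∀ y, 0 < y → y < ω →
      HasDerivAt (fun z => f z - (f l + f' l * (z - l))) (f' y - f' l) y := by
    intro y hy hy'
    have e1 : HasDerivAt (fun z => f l + f' l * (z - l)) (f' l) y := by
      have e2 := (((hasDerivAt_id' y).sub_const l).const_mul (f' l)).const_add (f l)
      simpa using e2
    exact (h1 y hy hy').sub e1
  have hgc : ContinuousOn (fun z => f z - (f l + f' l * (z - l))) (Icc 0 ω) := by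
    refine hc.sub ?_
    fun_prop
  have hup : ∀ y, l < y → y ≤ 1 → f l + f' l * (y - l) < f y := by
    intro y hy hy'
    have e1 : StrictMonoOn (fun z => f z - (f l + f' l * (z - l))) (Icc l 1) := by
      refine strictMonoOn_of_deriv_pos (convex_Icc l 1)
        (hgc.mono (Icc_subset_Icc hl0.le hω.le)) ?_
      intro z hz
      rw [interior_Icc] at hz
      rw [(hgd z (hl0.trans hz.1) (hz.2.trans hω)).deriv]
      exact sub_pos.2 (hmono ⟨hl0, hl1.le⟩ ⟨hl0.trans hz.1, hz.2.le⟩ hz.1)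
    have e2 := e1 (left_mem_Icc.2 hl1.le) ⟨hy.le, hy'⟩ hy
    simp only [sub_self, mul_zero, add_zero] at e2
    linarith
  have hdn : ∀ y, 0 ≤ y → y < l → f l + f' l * (y - l) < f y := by
    intro y hy hy'
    have e1 : StrictAntiOn (fun z => f z - (f l + f' l * (z - l))) (Icc 0 l) := by
      refine strictAntiOn_of_deriv_neg (convex_Icc 0 l)
        (hgc.mono (Icc_subset_Icc le_rfl (hl1.trans hω).le)) ?_
      intro z hz
      rw [interior_Icc] at hz
      rw [(hgd z hz.1 (hz.2.trans (hl1.trans hω))).deriv]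
      exact sub_neg.2 (hmono ⟨hz.1, (hz.2.trans hl1).le⟩ ⟨hl0, hl1.le⟩ hz.2)
    have e2 := e1 ⟨hy, hy'.le⟩ (right_mem_Icc.2 hl0.le) hy'
    simp only [sub_self, mul_zero, add_zero] at e2
    linarith
  rcases lt_or_ge x l with h | h
  · exact hdn x hx0 h
  have hlx : l < x := lt_of_le_of_ne h (Ne.symm hxl)
  rcases le_or_gt x 1 with h3 | h3
  · exact hup x hlx h3
  have h4 := hup 1 hl1 le_rfl
  rw [f1] at h4
  have h5 : f' l < 0 := by
    rw [← f1']
    exact hmono ⟨hl0, hl1.le⟩ ⟨one_pos, le_rfl⟩ hl1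
  have h6 : 0 ≤ f x := by
    rcases lt_or_eq_of_le hx1 with h7 | h7
    · exact hf x (by linarith) h7
    · rw [h7]
      have hω0 : (0 : ℝ) < ω := one_pos.trans hω
      have e1 : Filter.Tendsto f (nhdsWithin ω (Ioo 0 ω)) (nhds (f ω)) :=
        (hc ω ⟨hω0.le, le_rfl⟩).mono Ioo_subset_Icc_self
      have e2 : (nhdsWithin ω (Ioo 0 ω)).NeBot := by
        rw [← mem_closure_iff_nhdsWithin_neBot, closure_Ioo hω0.ne]
        exact ⟨hω0.le, le_rfl⟩
      exact ge_of_tendsto e1 (eventually_nhdsWithin_of_forall fun z hz => hf z hz.1 hz.2)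
  nlinarith [mul_pos_of_neg_of_neg h5 (by linarith : 1 - x < 0)]

end Pool.Agent.W_bbc525_c1
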