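import Pool.Agent.W_bbc525_c1.Co
import Pool.Agent.W_bbc525_c1.S1
import Pool.Agent.W_bbc525_c1.Iv
import Pool.Agent.W_bbc525_c1.Bf
import Pool.Agent.W_bbc525_c1.A2
import Pool.Agent.W_bbc525_c1.Tn

/-!
# The pointwise inequalities
-/

set_option autoImplicit false

namespace Pool.Agent.W_bbc525_c1

open Set Pool.Agent.W_MP_bbc525_pr Pool.Agent.W_bbc525_h89 Pool.Agent.W_bbc525_td
  Pool.Agent.W_bbc525_ends

theorem Pv_lin (b : ℕ) (v S k Y : ℝ) :
    Af b v (k * S) Y = k * Af b v S Y + (1 - k) * dd v (rt b Y) := by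
  unfold Af
  ring

theorem Pv_lin'' (b : ℕ) (v S k Y : ℝ) :
    Af'' b v (k * S) Y = k * Af'' b v S Y + (1 - k) * Af'' b v 0 Y := by
  unfold Af''
  ring

theorem Pv_zero'' {b : ℕ} (hb : 1 ≤ b) {v : ℝ} (hv : 0 < v) (hv1 : v < 1) {Y : ℝ} (hY : 0 < Y)
    (hY1 : Y ≤ 1) : 0 < Af'' b v 0 Y := by
  have hb' : (1 : ℝ) ≤ b := by exact_mod_cast hb
  have hX := rt_pos b hY
  have hX1 : rt b Y ≤ 1 := rt_le hb hY.le zero_le_one (by rwa [one_pow])
  obtain ⟨X, hXd⟩ : ∃ X, X = rt b Y := ⟨_, rfl⟩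
  rw [← hXd] at hX hX1
  have h1 : 0 < 1 - v * X := by nlinarith
  have h2 : dd' v X ≤ 0 := by
    unfold dd'
    have e1 : Real.log X ≤ 0 := Real.log_nonpos hX.le hX1
    have e2 : Real.log (1 - v) ≤ Real.log (1 - v * X) :=
      Real.log_le_log (by linarith) (by nlinarith)
    have : Real.log X - Real.log (1 - v * X) + Real.log (1 - v) ≤ 0 := by linarith
    exact mul_nonpos_of_nonneg_of_nonpos hv.le this
  unfold Af''
  rw [← hXd]
  apply mul_pos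
  · positivity
  · have h3 : 0 < v / (1 - v * X) := div_pos hv h1
    have h4 : ((b : ℝ) - 1) * (dd' v X + 0) ≤ 0 :=
      mul_nonpos_of_nonneg_of_nonpos (by linarith) (by linarith)
    linarith

theorem Pv_dd_nonneg {b : ℕ} (hb : 1 ≤ b) {v : ℝ} (hv : 0 < v) (hv1 : v < 1) {Y : ℝ}
    (hY : 0 ≤ Y) (hY1 : Y ≤ (1 / v) ^ b) : 0 ≤ dd v (rt b Y) := by
  have h1 : rt b Y ≤ 1 / v := rt_le hb hY (by positivity) hY1
  unfold dd
  apply relEnt_nonneg hv hv1 (mul_nonneg hv.le (rt_nonneg b hY))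
  rw [le_div_iff₀ hv] at h1
  linarith

theorem pv {a b : ℕ} (hb : 2 ≤ b) (hab : 2 * b < a) {v T : ℝ} (hv : 0 < v) (hv1 : v < 1)
    (hvc : v * ((a : ℝ) * ((a : ℝ) - 1) + (b : ℝ) * ((b : ℝ) - 1)) <
      ((a : ℝ) - 1) ^ 2 + ((b : ℝ) - 1) ^ 2) (hT : 0 < T)
    (hN : ∀ X, 0 ≤ X → X ≤ 1 / v → T * (ps a X + ps b X) ≤ 2 * dd v X) :
    ∃ Z μ : ℝ, (1 / v) ^ b ≤ Z ∧ 0 < μ ∧ ∀ l, 0 < l → l < 1 → ∃ d g : ℝ,
      (∀ Y, 0 ≤ Y → Y ≤ (1 / v) ^ b →
        (Af b v T l - μ * bt Z l) + d * (Y - l) ≤ Af b v T Y - μ * bt Z Y) ∧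
      (∀ Y, 0 ≤ Y → Y ≤ Z → Y ≠ l →
        (2 * μ * bt Z l - T / a * zet ((a : ℝ) / b) l) + g * (Y - l) <
          2 * μ * bt Z Y - T / a * zet ((a : ℝ) / b) Y) := by
  have hb1 : 1 ≤ b := by omega
  have hb0 : (0 : ℝ) < b := by exact_mod_cast hb1
  have ha0 : (0 : ℝ) < a := by exact_mod_cast (by omega : 0 < a)
  obtain ⟨θ, hθ⟩ : ∃ θ, θ = (a : ℝ) / b := ⟨_, rfl⟩
  have hθ2 : 2 < θ := by
    rw [hθ, lt_div_iff₀ hb0]
    exact_mod_cast hab
  obtain ⟨S, X₀, hTS, hS, hX1, hXv, e1, e2⟩ := contact hb (by omega) hv hv1 hvc hT.le hN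
  have hX0 : 0 < X₀ := by linarith
  have hY1 : 1 < X₀ ^ b := one_lt_pow₀ hX1 (by omega)
  have hYv : X₀ ^ b < (1 / v) ^ b := pow_lt_pow_left₀ hXv hX0.le (by omega)
  have hs1 := s1 hb hab hv hv1 hS hX1 hXv e1 e2
  rw [← hθ] at hs1
  have hz : 0 < zet θ (X₀ ^ b) := zet_pos (by linarith) (by positivity) hY1.ne'
  have hz' : 0 < zet' θ (X₀ ^ b) := zet'_pos (by linarith) hY1
  obtain ⟨Z, hZ, eZ⟩ := iv hY1 hYv hz hz' (zet_two hθ2 hY1) hs1
  have hYZ : X₀ ^ b < Z := lt_of_lt_of_le hYv hZ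
  have hZ1 : 1 < Z := by linarith
  have hbt : 0 < bt Z (X₀ ^ b) := bt_pos hY1 hYZ
  obtain ⟨c, hc⟩ : ∃ c, c = S / (2 * a) := ⟨_, rfl⟩
  have hc0 : 0 < c := by
    rw [hc]
    positivity
  obtain ⟨L, hL⟩ : ∃ L, L = c * zet θ (X₀ ^ b) / bt Z (X₀ ^ b) := ⟨_, rfl⟩
  have hL0 : 0 < L := by
    rw [hL]
    positivity
  have f0 : L * bt Z (X₀ ^ b) = c * zet θ (X₀ ^ b) := by
    rw [hL, div_mul_cancel₀ _ hbt.ne']
  have f1 : L * bt' Z (X₀ ^ b) = c * zet' θ (X₀ ^ b) := by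
    have h : bt Z (X₀ ^ b) * (L * bt' Z (X₀ ^ b)) = bt Z (X₀ ^ b) * (c * zet' θ (X₀ ^ b)) := by
      calc bt Z (X₀ ^ b) * (L * bt' Z (X₀ ^ b)) = L * bt Z (X₀ ^ b) * bt' Z (X₀ ^ b) := by ring
        _ = c * (bt' Z (X₀ ^ b) * zet θ (X₀ ^ b)) := by
          rw [f0]
          ring
        _ = c * (bt Z (X₀ ^ b) * zet' θ (X₀ ^ b)) := by rw [eZ]
        _ = bt Z (X₀ ^ b) * (c * zet' θ (X₀ ^ b)) := by ring
    exact mul_left_cancel₀ hbt.ne' h
  have g0 : Af b v S (X₀ ^ b) = L * bt Z (X₀ ^ b) := by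
    rw [f0, Af_pow hb1 v S hX0.le, hc]
    have h1 := ps_sub (a := a) hb1 (by omega) hX0.le
    rw [← hθ] at h1
    have h2 : S / (2 * a) * zet θ (X₀ ^ b) = S / 2 * (zet θ (X₀ ^ b) / a) := by
      field_simp
    rw [h2, ← h1]
    linarith
  have g1 : Af' b v S (X₀ ^ b) = L * bt' Z (X₀ ^ b) := by
    rw [f1, Af'_pow hb1 v S hX0.le, hc]
    have h1 := zet'_pow (a := a) hb1 (by omega) hX0
    rw [← hθ] at h1
    rw [h1, hθ]
    have h3 : dd' v X₀ = S / 2 * ((X₀ ^ (a - 1) - 1) + (X₀ ^ (b - 1) - 1)) := by linarith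
    have h4 : X₀ ^ (a - 1) = X₀ ^ (a - b) * X₀ ^ (b - 1) := by
      rw [← pow_add]
      congr 1
      omega
    have h5 : X₀ ^ b = X₀ ^ (b - 1) * X₀ := by
      rw [← pow_succ]
      congr 1
      omega
    have h6 : X₀ ^ (b - 1) ≠ 0 := by positivity
    rw [h3, h4, h5]
    field_simp
    ring
  obtain ⟨A1, A2⟩ := a2_all hb hv hv1 hZ hL0 hY1 hYv g0 g1
  obtain ⟨B1, B2⟩ := bf_all hθ2 hY1 hYZ hL0 hc0 f0 f1
  obtain ⟨k, hk⟩ : ∃ k, k = T / S := ⟨_, rfl⟩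
  have hk0 : 0 < k := by
    rw [hk]
    positivity
  have hk1 : k ≤ 1 := by
    rw [hk, div_le_one hS]
    exact hTS
  have hkS : T = k * S := by
    rw [hk]
    field_simp
  have hTa : T / a = 2 * k * c := by
    rw [hkS, hc]
    field_simp
  refine ⟨Z, k * L, hZ, by positivity, fun l hl0 hl1 => ⟨Af' b v T l - k * L * bt' Z l,
    2 * (k * L) * bt' Z l - T / a * zet' θ l, ?_, ?_⟩⟩
  · intro Y hY0 hY1'
    by_cases hYl : Y = l
    · rw [hYl]
      linarith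
    have hω : 1 < (1 / v) ^ b := by linarith
    have hlt := tan_gen (f := fun Y => Af b v T Y - k * L * bt Z Y)
      (f' := fun Y => Af' b v T Y - k * L * bt' Z Y)
      (f'' := fun Y => Af'' b v T Y - k * L * (1 / (Z - Y))) hω
      ((continuousOn_Af hb1 hv hv1 T).sub (((continuous_bt hZ1).const_mul _).continuousOn))
      (fun x hx hx' => (hasDerivAt_Af hb1 hv hv1 T hx hx').sub
        ((hasDerivAt_bt hZ1 (by linarith)).const_mul _))
      (fun x hx hx' => (hasDerivAt_Af' hb1 hv hv1 T hx hx').sub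
        ((hasDerivAt_bt' hZ1 (by linarith)).const_mul _))
      (fun x hx hx' => by
        have h1 := A1 x hx hx'
        have h2 := Pv_dd_nonneg hb1 hv hv1 hx.le hx'.le
        show 0 ≤ Af b v T x - k * L * bt Z x
        rw [hkS, Pv_lin]
        have h3 := mul_nonneg hk0.le h1
        have h4 := mul_nonneg (sub_nonneg.2 hk1) h2
        linarith)
      (fun x hx hx' => by
        have h1 := A2 x hx hx'
        have h2 := Pv_zero'' hb1 hv hv1 hx hx'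
        show 0 < Af'' b v T x - k * L * (1 / (Z - x))
        rw [hkS, Pv_lin'']
        have h3 := mul_pos hk0 h1
        have h4 := mul_nonneg (sub_nonneg.2 hk1) h2.le
        linarith)
      (by
        show Af b v T 1 - k * L * bt Z 1 = 0
        rw [Af_one hv hv1, bt_one hZ1]
        ring)
      (by
        show Af' b v T 1 - k * L * bt' Z 1 = 0
        rw [Af'_one, bt'_one hZ1]
        ring) hl0 hl1 hY0 hY1' hYl
    exact hlt.le
  · intro Y hY0 hYZ' hYl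
    rw [← hθ]
    have hlt := tan_gen (f := fun Y => 2 * (k * L) * bt Z Y - T / a * zet θ Y)
      (f' := fun Y => 2 * (k * L) * bt' Z Y - T / a * zet' θ Y)
      (f'' := fun Y => 2 * (k * L) * (1 / (Z - Y)) - T / a * zet'' θ Y) hZ1
      ((((continuous_bt hZ1).const_mul _).sub ((continuous_zet (by linarith)).const_mul
        _)).continuousOn)
      (fun x hx hx' => ((hasDerivAt_bt hZ1 hx').const_mul _).sub
        ((hasDerivAt_zet θ hx).const_mul _))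
      (fun x hx hx' => ((hasDerivAt_bt' hZ1 hx').const_mul _).sub
        ((hasDerivAt_zet' θ hx).const_mul _))
      (fun x hx hx' => by
        have h1 := mul_nonneg hk0.le (B1 x hx hx')
        show 0 ≤ 2 * (k * L) * bt Z x - T / a * zet θ x
        rw [hTa]
        linarith)
      (fun x hx hx' => by
        have h1 := mul_pos hk0 (B2 x hx hx')
        show 0 < 2 * (k * L) * (1 / (Z - x)) - T / a * zet'' θ x
        rw [hTa]
        linarith)
      (by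
        show 2 * (k * L) * bt Z 1 - T / a * zet θ 1 = 0
        rw [bt_one hZ1, zet_one]
        ring)
      (by
        show 2 * (k * L) * bt' Z 1 - T / a * zet' θ 1 = 0
        rw [bt'_one hZ1, zet'_one]
        ring) hl0 hl1 hY0 hYZ' hYl
    exact hlt

end Pool.Agent.W_bbc525_c1
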