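import Pool.Agent.W_bbc525_c1.C0

/-!
# Superadditivity

PROOF. `f x y = (Z - Y x y) / (Z - 1)` is a bounded kernel (`BK.const`, `BK.sub`, `BK.const_mul`),
nonnegative and symmetric. `mi_nonneg` (W_bbc525_b1/Mi.lean) for `f`, multiplied by `Z - 1`, is
`2 ∫ (Z - r x) log ((Z - r x)/(Z - 1)) ≤ ∫∫ (Z - Y) log ((Z - Y)/(Z - 1))
  + (Z - l) log ((Z - l)/(Z - 1))`, `r x = ∫ Y x y dy`, `l = ∫∫ Y`, because
`∫ f x y dy = (Z - r x)/(Z - 1)`. Add the linear identity
`2 ∫ (r x - 1) = ∫∫ (Y - 1) + (l - 1)`. (`BF.iadd`, `BF.isub`, `BF.imul`, `BF.iconst` in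
W_bbc525_b1/As.lean; for the boundedness of `(Z - Y) log(..)` use `continuous_bt` and
`BK.comp`, or the lemmas `Mi_eta_BK`, `Mi_eta_BF` of W_bbc525_b1/Mi.lean.)
-/

set_option autoImplicit false

namespace Pool.Agent.W_bbc525_c1

open MeasureTheory Pool.Agent.W_MP_bbc525_pr Pool.Agent.W_bbc525_h89 Pool.Agent.W_bbc525_td
  Pool.Agent.W_bbc525_ends Pool.Agent.W_bbc525_b1

theorem Sup_bt {Z : ℝ} (hZ : 1 < Z) (t : ℝ) :
    bt Z t = (t - 1) + (Z - 1) * ((Z - t) / (Z - 1) * Real.log ((Z - t) / (Z - 1))) := by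
  have h2 : Z - 1 ≠ 0 := by linarith
  unfold bt
  rw [← mul_assoc, mul_div_cancel₀ _ h2]

theorem btK {Y : unitInterval → unitInterval → ℝ} (hY : BK Y) {Z : ℝ} (hZ : 1 < Z) :
    BK (fun x y => bt Z (Y x y)) := by
  obtain ⟨C, hC⟩ := hY.bdd
  obtain ⟨D, hD⟩ := (isCompact_Icc (a := -C) (b := C)).exists_bound_of_continuousOn
    (f := bt Z) (continuous_bt hZ).continuousOn
  exact hY.comp (φ := bt Z) (continuous_bt hZ).measurable
    ⟨D, fun x y => hD _ (abs_le.1 (hC x y))⟩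

theorem btF {r : unitInterval → ℝ} (hr : BF r) {Z : ℝ} (hZ : 1 < Z) :
    BF (fun x => bt Z (r x)) := by
  obtain ⟨C, hC⟩ := hr.bdd
  obtain ⟨D, hD⟩ := (isCompact_Icc (a := -C) (b := C)).exists_bound_of_continuousOn
    (f := bt Z) (continuous_bt hZ).continuousOn
  exact ⟨(continuous_bt hZ).measurable.comp hr.meas, D, fun x => hD _ (abs_le.1 (hC x))⟩

theorem bt_super {Y : unitInterval → unitInterval → ℝ} (hY : BK Y)
    (hs : ∀ x y, Y x y = Y y x) {Z : ℝ} (hZ : 1 < Z) (hle : ∀ x y, Y x y ≤ Z) :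
    2 * ∫ x, bt Z (∫ y, Y x y) ≤ (∫ x, ∫ y, bt Z (Y x y)) + bt Z (∫ x, ∫ y, Y x y) := by
  have hZ1 : 0 < Z - 1 := by linarith
  have hr : BF (fun x => ∫ y, Y x y) := hY.iter'
  have hf' : BK (fun x y => 1 / (Z - 1) * (Z - Y x y)) :=
    ((BK.const Z).sub hY).const_mul (1 / (Z - 1))
  have hf : BK (fun x y => (Z - Y x y) / (Z - 1)) := by
    have e : (fun x y => (Z - Y x y) / (Z - 1)) =
        fun (x y : unitInterval) => 1 / (Z - 1) * (Z - Y x y) := by
      funext x y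
      ring
    rw [e]
    exact hf'
  have hrow : ∀ x, ∫ y, (Z - Y x y) / (Z - 1) = (Z - ∫ y, Y x y) / (Z - 1) := by
    intro x
    rw [integral_div, integral_sub (integrable_const Z) (hY.row x).integrable]
    simp
  have hm : ∫ x, (Z - ∫ y, Y x y) / (Z - 1) = (Z - ∫ x, ∫ y, Y x y) / (Z - 1) := by
    rw [integral_div, integral_sub (integrable_const Z) hr.integrable]
    simp
  have hmain := mi_nonneg hf (fun x y => div_nonneg (by linarith [hle x y]) hZ1.le)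
    (fun x y => by rw [hs x y])
  simp only [hrow, hm] at hmain
  have hg : BF (fun x => (Z - ∫ y, Y x y) / (Z - 1)) := by
    have h1 := hf.iter'
    simp only [hrow] at h1
    exact h1
  have hηg := Mi_eta_BF hg
  have hηf := Mi_eta_BK hf
  have e1 : ∫ x, bt Z (∫ y, Y x y) = ((∫ x, ∫ y, Y x y) - 1) +
      (Z - 1) * ∫ x, (Z - ∫ y, Y x y) / (Z - 1) * Real.log ((Z - ∫ y, Y x y) / (Z - 1)) := by
    simp only [Sup_bt hZ]
    rw [integral_add (hr.sub (BF.const 1)).integrable (BF.const_mul (Z - 1) hηg).integrable,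
      integral_const_mul, integral_sub hr.integrable (integrable_const 1)]
    simp
  have e2 : ∫ x, ∫ y, bt Z (Y x y) = ((∫ x, ∫ y, Y x y) - 1) +
      (Z - 1) * ∫ x, ∫ y, (Z - Y x y) / (Z - 1) * Real.log ((Z - Y x y) / (Z - 1)) := by
    simp only [Sup_bt hZ]
    rw [BK.int_add (hY.sub (BK.const 1)) (hηf.const_mul (Z - 1)), BK.int_mul,
      BK.int_sub hY (BK.const 1)]
    simp
  have e3 := Sup_bt hZ (∫ x, ∫ y, Y x y)
  rw [e1, e2, e3]
  have h4 := mul_le_mul_of_nonneg_left hmain hZ1.le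
  nlinarith [h4]

end Pool.Agent.W_bbc525_c1
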