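import Pool.Agent.W_bbc525_b1.As

/-!
# The local condition beyond the cusp

PROOF of `tl_of_psi`. `local_cond` (W_bbc525_b1/Lc.lean) with `E = Finset.univ : Finset (Fin 2)`,
`k = ![a, b]`, `psm E k z = (1/2)(ps a z + ps b z)` (`Fin.sum_univ_two`), `T = 2 (c L)`,
`L = logit c - logit p ≥ 0`: it gives `2 c L (1 - c) N / 2 ≤ 2 c`, `N = (a-1) + (b-1)`; divide by
`c > 0`.

PROOF of `tl_mono`. Let `N = (a-1) + (b-1) > 0`, `Q = (a-1)^2 + (b-1)^2 ≥ N^2/2`. `hc` says
`Q (1 - c) ≤ c N` (as `a(a-1) + b(b-1) = Q + N`). For `c ≤ x < 1`: `x/(1-x) ≥ c/(1-c) ≥ Q/N ≥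
N/2`, i.e. `(1 - x) N ≤ 2 x`. The function `h x = 2/((1 - x) N) - logit x` has on `[c, v]` the
derivative `2/((1-x)^2 N) - 1/(x (1-x)) = (2 x - (1-x) N)/((1-x)^2 x N) ≥ 0`, so `h c ≤ h v`. The
hypothesis is `0 ≤ h c + logit p` and the claim is `0 ≤ h v + logit p` (multiply by `(1-x) N > 0`).
(`logit x = log x - log (1 - x)`.)
-/

set_option autoImplicit false

namespace Pool.Agent.W_bbc525_c1

open Set Pool.Agent.W_MP_bbc525_pr Pool.Agent.W_bbc525_h89 Pool.Agent.W_bbc525_td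
  Pool.Agent.W_bbc525_ends Pool.Agent.W_bbc525_b1

theorem tl_of_psi {a b : ℕ} (hb : 1 ≤ b) (hab : b < a) {p c : ℝ} (hp : 0 < p) (hpc : p ≤ c)
    (hc1 : c < 1)
    (hN : ∀ X, 0 ≤ X → X ≤ 1 → c * (logit c - logit p) * (ps a X + ps b X) ≤ 2 * dd c X) :
    (logit c - logit p) * ((1 - c) * (((a : ℝ) - 1) + ((b : ℝ) - 1))) ≤ 2 := by
  have hc : 0 < c := lt_of_lt_of_le hp hpc
  have hL : 0 ≤ logit c - logit p := by
    have h1 : Real.log p ≤ Real.log c := Real.log_le_log hp hpc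
    have h2 : Real.log (1 - c) ≤ Real.log (1 - p) := Real.log_le_log (by linarith) (by linarith)
    unfold logit
    linarith
  have key := local_cond (E := (Finset.univ : Finset (Fin 2))) (by simp) (k := ![a, b])
    (by
      intro e _
      fin_cases e
      · simp only [Fin.zero_eta, Matrix.cons_val_zero]
        omega
      · simp only [Fin.mk_one, Matrix.cons_val_one, Matrix.cons_val_fin_one]
        omega) (v := c) (T := 2 * (c * (logit c - logit p))) hc hc1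
    (by positivity)
    (by
      intro z h0 h1
      have h2 := hN z h0 h1
      unfold psm
      simp only [Finset.card_univ, Fintype.card_fin, Fin.sum_univ_two, Matrix.cons_val_zero,
        Matrix.cons_val_one, Matrix.cons_val_fin_one, Nat.cast_ofNat]
      linarith)
  simp only [Finset.card_univ, Fintype.card_fin, Fin.sum_univ_two, Matrix.cons_val_zero,
    Matrix.cons_val_one, Matrix.cons_val_fin_one, Nat.cast_ofNat] at key
  have h3 : c * ((logit c - logit p) * ((1 - c) * (((a : ℝ) - 1) + ((b : ℝ) - 1)))) ≤ c * 2 := by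
    linarith
  exact le_of_mul_le_mul_left h3 hc

private theorem Tl_deriv {N x : ℝ} (hN : 0 < N) (hx : 0 < x) (hx1 : x < 1) :
    HasDerivAt (fun y => 2 / ((1 - y) * N) - logit y)
      ((2 * x - (1 - x) * N) / ((1 - x) ^ 2 * x * N)) x := by
  have h1 : HasDerivAt (fun y : ℝ => (1 - y) * N) (-N) x := by
    have := ((hasDerivAt_id x).const_sub 1).mul_const N
    simpa using this
  have hx2 : (1 - x) ≠ 0 := by
    have : 0 < 1 - x := by linarith
    exact this.ne'
  have h2 : HasDerivAt (fun y : ℝ => 2 / ((1 - y) * N)) (2 * N / ((1 - x) * N) ^ 2) x := by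
    have h := (hasDerivAt_const x (2 : ℝ)).div h1 (mul_ne_zero hx2 hN.ne')
    have e : 2 * N / ((1 - x) * N) ^ 2 =
        (0 * ((1 - x) * N) - 2 * -N) / ((1 - x) * N) ^ 2 := by ring
    rw [e]
    exact h
  have h3 : HasDerivAt (fun y : ℝ => Real.log y) (1 / x) x := by
    have := Real.hasDerivAt_log hx.ne'
    simpa using this
  have h4 : HasDerivAt (fun y : ℝ => Real.log (1 - y)) (-1 / (1 - x)) x := by
    have := ((hasDerivAt_id x).const_sub 1).log hx2
    simpa using this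
  have h5 := h2.sub (h3.sub h4)
  have h6 : (2 * x - (1 - x) * N) / ((1 - x) ^ 2 * x * N) =
      2 * N / ((1 - x) * N) ^ 2 - (1 / x - -1 / (1 - x)) := by
    field_simp
    ring
  rw [h6]
  exact h5

theorem tl_mono {a b : ℕ} (hb : 1 ≤ b) (hab : b < a) {p c v : ℝ} (hp : 0 < p) (hpc : p ≤ c)
    (hcv : c ≤ v) (hv1 : v < 1)
    (hc : ((a : ℝ) - 1) ^ 2 + ((b : ℝ) - 1) ^ 2 ≤
      c * ((a : ℝ) * ((a : ℝ) - 1) + (b : ℝ) * ((b : ℝ) - 1)))
    (h : (logit c - logit p) * ((1 - c) * (((a : ℝ) - 1) + ((b : ℝ) - 1))) ≤ 2) :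
    (logit v - logit p) * ((1 - v) * (((a : ℝ) - 1) + ((b : ℝ) - 1))) ≤ 2 := by
  have hc0 : 0 < c := lt_of_lt_of_le hp hpc
  have hb' : (1 : ℝ) ≤ b := by exact_mod_cast hb
  have hab' : (b : ℝ) + 1 ≤ a := by exact_mod_cast hab
  obtain ⟨N, hN⟩ : ∃ N, N = ((a : ℝ) - 1) + ((b : ℝ) - 1) := ⟨_, rfl⟩
  have hN0 : 0 < N := by rw [hN]; linarith
  rw [← hN] at h ⊢
  obtain ⟨Q, hQ⟩ : ∃ Q, Q = ((a : ℝ) - 1) ^ 2 + ((b : ℝ) - 1) ^ 2 := ⟨_, rfl⟩
  have hQ1 : N ^ 2 ≤ 2 * Q := by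
    rw [hN, hQ]
    nlinarith [sq_nonneg (((a : ℝ) - 1) - ((b : ℝ) - 1))]
  have hQc : Q * (1 - c) ≤ c * N := by
    have : c * ((a : ℝ) * ((a : ℝ) - 1) + (b : ℝ) * ((b : ℝ) - 1)) = c * (Q + N) := by
      rw [hQ, hN]; ring
    rw [this, ← hQ] at hc
    linarith
  have hcN : (1 - c) * N ≤ 2 * c := by
    have h1 : N * ((1 - c) * N) ≤ N * (2 * c) := by
      have : 0 ≤ 1 - c := by linarith
      nlinarith
    exact le_of_mul_le_mul_left h1 hN0
  have hxN : ∀ x, c ≤ x → x < 1 → 0 ≤ 2 * x - (1 - x) * N := by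
    intro x h1 h2
    nlinarith
  have hmono : MonotoneOn (fun y => 2 / ((1 - y) * N) - logit y) (Set.Icc c v) := by
    apply monotoneOn_of_deriv_nonneg (convex_Icc c v)
    · intro x hx
      exact (Tl_deriv hN0 (lt_of_lt_of_le hc0 hx.1)
        (lt_of_le_of_lt hx.2 hv1)).continuousAt.continuousWithinAt
    · intro x hx
      rw [interior_Icc] at hx
      exact (Tl_deriv hN0 (lt_trans hc0 hx.1)
        (lt_trans hx.2 hv1)).differentiableAt.differentiableWithinAt
    · intro x hx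
      rw [interior_Icc] at hx
      have hx0 : 0 < x := lt_trans hc0 hx.1
      have hx1 : x < 1 := lt_trans hx.2 hv1
      rw [(Tl_deriv hN0 hx0 hx1).deriv]
      have : 0 < 1 - x := by linarith
      exact div_nonneg (hxN x hx.1.le hx1) (by positivity)
  have h1 := hmono (Set.left_mem_Icc.2 hcv) (Set.right_mem_Icc.2 hcv) hcv
  simp only at h1
  have hc2 : 0 < (1 - c) * N := by
    have : 0 < 1 - c := by linarith
    positivity
  have hv2 : 0 < (1 - v) * N := by
    have : 0 < 1 - v := by linarith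
    positivity
  have h2 : logit c - logit p ≤ 2 / ((1 - c) * N) := by
    rw [le_div_iff₀ hc2]
    exact h
  have h3 : logit v - logit p ≤ 2 / ((1 - v) * N) := by linarith
  rwa [le_div_iff₀ hv2] at h3

end Pool.Agent.W_bbc525_c1
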