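import Pool.Agent.W_bbc525_c1.Pv
import Pool.Agent.W_bbc525_c1.Sup

/-!
# The integrated inequality

PROOF. Notation `Y x y = (W x y / v)^b` (`YY W v b`, W_bbc525_ends/Asm.lean), `m x = ∫ Y x y dy`,
`l = ∫∫ Y = W.mom b / v^b` (`YY_mom`), `0 < l < 1`, `c = rt b (W.mom b)`, so `c^b = W.mom b`,
`rt b l = c / v`, `θ = a/b`, `l ^ θ = (c/v)^a`. Take `Z`, `μ` from `pv` and `d`, `g` for this
`l`. `Y x y ∈ [0, (1/v)^b]`, `(1/v)^b ≤ Z`, `m x ∈ [0, Z]`.
(D) `Af l - μ bt Z l + d (Y - l) ≤ Af Y - μ bt Z Y` integrated over `x, y` (`∫∫ (Y - l) = 0`):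
`Af l - μ bt Z l ≤ ∫∫ Af Y - μ ∫∫ bt Z Y`.
(G) with `Y = m x`, integrated over `x` (`∫ (m x - l) = 0`), strict because `m x = l` does not
hold almost everywhere (`BF.int_pos'` in W_bbc525_b1/As.lean, for the difference of the two
sides, which is `≥ 0`, with equality iff `m x = l`):
`2 μ bt Z l - (T/a) zet θ l < 2 μ ∫ bt Z (m x) - (T/a) ∫ zet θ (m x)`.
(S) `bt_super`: `2 ∫ bt Z (m x) ≤ ∫∫ bt Z Y + bt Z l`, times `μ > 0`.
Sum (D) + (G) + (S): `Af l - (T/a) zet θ l < ∫∫ Af Y - (T/a) ∫ zet θ (m x)`, i.e.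
`(T/a) (∫ zet θ (m x) - zet θ l) < ∫∫ Af Y - Af l`.
Left side: `zet θ (m x) = (m x)^θ - 1 - θ (m x - 1)`, so
`∫ zet θ (m x) - zet θ l = ∫ (m x)^θ - l^θ = mix W a b / v^a - (c/v)^a` (`mixS_eq`).
Right side: `Af b v T (Y x y) = dd v (W/v) - T ps b (W/v) = relEnt v (W x y) - T ((Y - 1)/b -
(W/v - 1))` (`Af_pow`), so `∫∫ Af Y = cost v W - (T/b) (l - 1) + T (W.mean / v - 1)`
(`cost_eq_dd`, `YY_mom`), and `cost p W = relEnt p v + cost v W + (logit v - logit p)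
(W.mean - v)` (`cost_shift`), `T = v (logit v - logit p)`: so
`∫∫ Af Y = cost p W - relEnt p v - (T/b)(l - 1)`. In the same way
`Af l = dd v (c/v) - T ((l - 1)/b - (c/v - 1))` and `relEnt p c = relEnt p v + dd v (c/v) +
(logit v - logit p)(c - v)` (`relEnt_shift`), so `Af l = relEnt p c - relEnt p v - (T/b)(l - 1)`.
The difference is `cost p W - relEnt p c`.
-/

set_option autoImplicit false

namespace Pool.Agent.W_bbc525_c1

open MeasureTheory Finset Pool.Agent.W_MP_bbc525_pr Pool.Agent.W_bbc525_h89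
  Pool.Agent.W_bbc525_td Pool.Agent.W_bbc525_ends Pool.Agent.W_bbc525_b1

theorem Wi_YY_le {v : ℝ} (hv : 0 < v) (W : Graphon) (b : ℕ) (x y : unitInterval) :
    YY W v b x y ≤ (1 / v) ^ b :=
  pow_le_pow_left₀ (div_nonneg (W.nonneg _ _) hv.le) (XX_le hv x y) b

theorem Wi_row_le {v : ℝ} (hv : 0 < v) (W : Graphon) (b : ℕ) (x : unitInterval) :
    ∫ y, YY W v b x y ≤ (1 / v) ^ b := by
  rw [YY_row, one_div_pow]
  exact div_le_div_of_nonneg_right (inn_le_one W b x) (by positivity)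

theorem Wi_Afm (b : ℕ) (v T : ℝ) : Measurable (Af b v T) := by
  unfold Af
  exact ((measurable_dd v).comp continuous_rt.measurable).sub
    (((continuous_ps b).comp continuous_rt).measurable.const_mul T)

theorem Wi_AfK {b : ℕ} (hb : 1 ≤ b) {v : ℝ} (hv : 0 < v) (hv1 : v < 1) (T : ℝ) (W : Graphon) :
    BK (fun x y => Af b v T (YY W v b x y)) := by
  apply (BK.YY hv b).comp (Wi_Afm b v T)
  obtain ⟨C, hC⟩ := (isCompact_Icc (a := (0 : ℝ)) (b := (1 / v) ^ b)).exists_bound_of_continuousOn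
    (continuousOn_Af hb hv hv1 T)
  refine ⟨C, fun x y => ?_⟩
  have := hC (YY W v b x y) ⟨YY_nonneg hv b x y, Wi_YY_le hv W b x y⟩
  rwa [Real.norm_eq_abs] at this

theorem Wi_int_const (c : ℝ) : ∫ _ : unitInterval, ∫ _ : unitInterval, c = c := by simp

theorem Wi_intX {v : ℝ} (hv : 0 < v) (W : Graphon) :
    ∫ x, ∫ y, W.W x y / v = W.mean / v := by
  have h := YY_mom (W := W) hv 1
  unfold YY at h
  simp only [pow_one] at h
  rw [h, Graphon.mom_one]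

theorem Wi_intAf {b : ℕ} (hb : 1 ≤ b) {p v T : ℝ} (hp : 0 < p) (hp1 : p < 1) (hv : 0 < v)
    (hv1 : v < 1) (hT : T = v * (logit v - logit p)) (W : Graphon) :
    ∫ x, ∫ y, Af b v T (YY W v b x y) =
      cost p W - relEnt p v - T / b * (W.mom b / v ^ b - 1) := by
  have e1 : ∀ x y, Af b v T (YY W v b x y) = dd v (W.W x y / v) -
      T * (1 / (b : ℝ) * (YY W v b x y - 1) - (W.W x y / v - 1)) := by
    intro x y
    unfold YY
    rw [Af_pow hb v T (div_nonneg (W.nonneg x y) hv.le)]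
    unfold ps
    ring
  simp only [e1]
  have k1 := (BK.YY (W := W) hv b).sub (BK.const 1)
  have k2 := (BK.XX (W := W) hv).sub (BK.const 1)
  have k3 := (BK.const_mul (1 / (b : ℝ)) k1).sub k2
  rw [BK.int_sub (BK.dd hv hv1 W) (BK.const_mul T k3), BK.int_mul,
    BK.int_sub (BK.const_mul (1 / (b : ℝ)) k1) k2, BK.int_mul,
    BK.int_sub (BK.YY (W := W) hv b) (BK.const 1), BK.int_sub (BK.XX (W := W) hv) (BK.const 1),
    YY_mom hv, Wi_intX hv, Wi_int_const, ← cost_eq_dd hv hv1]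
  have h3 := cost_shift hp hp1 hv hv1 W
  have h4 : T * (W.mean / v - 1) = (logit v - logit p) * (W.mean - v) := by
    rw [hT]
    field_simp
  linear_combination h4 - h3

theorem Wi_Afl {b : ℕ} (hb : 1 ≤ b) {p v T c : ℝ} (hp : 0 < p) (hp1 : p < 1) (hv : 0 < v)
    (hv1 : v < 1) (hT : T = v * (logit v - logit p)) (hc : 0 ≤ c) (hc1 : c ≤ 1) :
    Af b v T ((c / v) ^ b) = relEnt p c - relEnt p v - T / b * ((c / v) ^ b - 1) := by
  rw [Af_pow hb v T (div_nonneg hc hv.le)]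
  have h1 := relEnt_shift hp hp1 hv hv1 hc hc1
  have h2 : dd v (c / v) = relEnt v c := by
    unfold dd
    rw [mul_div_cancel₀ _ hv.ne']
  have h4 : T * (c / v - 1) = (logit v - logit p) * (c - v) := by
    rw [hT]
    field_simp
  rw [h2]
  unfold ps
  linear_combination h4 - h1

theorem Wi_zetF {θ : ℝ} (hθ : 0 ≤ θ) {m : unitInterval → ℝ} (hm : BF m) (hm0 : ∀ x, 0 ≤ m x) :
    BF (fun x => zet θ (m x)) :=
  ((hm.rpow hm0 hθ).sub (BF.const 1)).sub (BF.const_mul θ (hm.sub (BF.const 1)))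

theorem Wi_intzet {θ : ℝ} (hθ : 0 ≤ θ) {m : unitInterval → ℝ} (hm : BF m)
    (hm0 : ∀ x, 0 ≤ m x) :
    ∫ x, zet θ (m x) = (∫ x, m x ^ θ) - 1 - θ * ((∫ x, m x) - 1) := by
  unfold zet
  rw [BF.isub ((hm.rpow hm0 hθ).sub (BF.const 1)) (BF.const_mul θ (hm.sub (BF.const 1))),
    BF.isub (hm.rpow hm0 hθ) (BF.const 1), BF.imul, BF.isub hm (BF.const 1), BF.iconst]

/-- the sum of the three integrated inequalities -/
theorem Wi_sum {b : ℕ} (hb : 1 ≤ b) {v T μ Z θ t l d g : ℝ} (hv : 0 < v)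
    (hv1 : v < 1) (hZ : 1 < Z) (hZv : (1 / v) ^ b ≤ Z) (hμ : 0 < μ) (hθ : 0 ≤ θ) (W : Graphon)
    (hl : l = W.mom b / v ^ b)
    (hD : ∀ Y, 0 ≤ Y → Y ≤ (1 / v) ^ b →
        (Af b v T l - μ * bt Z l) + d * (Y - l) ≤ Af b v T Y - μ * bt Z Y)
    (hG : ∀ Y, 0 ≤ Y → Y ≤ Z → Y ≠ l →
        (2 * μ * bt Z l - t * zet θ l) + g * (Y - l) < 2 * μ * bt Z Y - t * zet θ Y)
    (hne : ¬ ∀ᵐ x, (∫ y, YY W v b x y) = l) :
    Af b v T l - t * zet θ l <
      (∫ x, ∫ y, Af b v T (YY W v b x y)) - t * ∫ x, zet θ (∫ y, YY W v b x y) := by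
  have hYK := BK.YY (W := W) hv b
  have hY0 := YY_nonneg (W := W) hv b
  have hY1 := Wi_YY_le hv W b
  have hA := Wi_AfK hb hv hv1 T W
  have hB : BK (fun x y => bt Z (YY W v b x y)) := btK hYK hZ
  obtain ⟨m, hm⟩ : ∃ m : unitInterval → ℝ, m = fun x => ∫ y, YY W v b x y := ⟨_, rfl⟩
  have hme : ∀ x, (∫ y, YY W v b x y) = m x := fun x => by rw [hm]
  have hmF : BF m := by
    rw [hm]
    exact hYK.iter'
  have hm0 : ∀ x, 0 ≤ m x := fun x => by
    rw [← hme]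
    exact integral_nonneg fun y => hY0 x y
  have hm1 : ∀ x, m x ≤ Z := fun x => by
    rw [← hme]
    exact (Wi_row_le hv W b x).trans hZv
  have hmom : ∫ x, ∫ y, YY W v b x y = l := by rw [YY_mom hv, hl]
  have himl : ∫ x, m x = l := by
    rw [← hmom]
    simp only [hme]
  -- (D)
  have k1 : BK (fun x y => (Af b v T l - μ * bt Z l) + d * (YY W v b x y - l)) :=
    (BK.const _).add (BK.const_mul d (hYK.sub (BK.const l)))
  have k2 : BK (fun x y => Af b v T (YY W v b x y) - μ * bt Z (YY W v b x y)) :=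
    hA.sub (BK.const_mul μ hB)
  have h1 := BK.int_mono k1 k2 (fun x y => hD _ (hY0 x y) (hY1 x y))
  rw [BK.int_add (BK.const _) (BK.const_mul d (hYK.sub (BK.const l))), BK.int_mul,
    BK.int_sub hYK (BK.const l), hmom, Wi_int_const, Wi_int_const,
    BK.int_sub hA (BK.const_mul μ hB), BK.int_mul] at h1
  -- (S)
  have h2 := bt_super hYK (YY_symm (W := W) (q := v) b) hZ
    (fun x y => (hY1 x y).trans hZv)
  rw [hmom] at h2
  simp only [hme] at h2 ⊢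
  -- (G)
  have hbF : BF (fun x => bt Z (m x)) := btF hmF hZ
  have hzF := Wi_zetF hθ hmF hm0
  have f1 : BF (fun x => (2 * μ * bt Z l - t * zet θ l) + g * (m x - l)) :=
    (BF.const _).add (BF.const_mul g (hmF.sub (BF.const l)))
  have f2 : BF (fun x => 2 * μ * bt Z (m x) - t * zet θ (m x)) :=
    (BF.const_mul (2 * μ) hbF).sub (BF.const_mul t hzF)
  have hpt : ∀ x, m x ≠ l → (2 * μ * bt Z l - t * zet θ l) + g * (m x - l) <
      2 * μ * bt Z (m x) - t * zet θ (m x) := fun x hx => hG _ (hm0 x) (hm1 x) hx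
  have hpt0 : ∀ x, 0 ≤ (2 * μ * bt Z (m x) - t * zet θ (m x)) -
      ((2 * μ * bt Z l - t * zet θ l) + g * (m x - l)) := by
    intro x
    by_cases hx : m x = l
    · rw [hx]
      simp
    · linarith [hpt x hx]
  have hpos := BF.int_pos' (f2.sub f1) hpt0 (fun hall => hne (by
    filter_upwards [hall] with x hx
    rw [hme]
    by_contra hcon
    linarith [hpt x hcon]))
  rw [BF.isub f2 f1, BF.isub (BF.const_mul (2 * μ) hbF) (BF.const_mul t hzF), BF.imul, BF.imul,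
    BF.iadd (BF.const _) (BF.const_mul g (hmF.sub (BF.const l))), BF.imul,
    BF.isub hmF (BF.const l), himl, BF.iconst, BF.iconst] at hpos
  have h3 := mul_le_mul_of_nonneg_left h2 hμ.le
  linarith

theorem wi {a b : ℕ} (hb : 2 ≤ b) (hab : 2 * b < a) {p v : ℝ} (hp : 0 < p) (hpv : p < v)
    (hv1 : v < 1)
    (hvc : v * ((a : ℝ) * ((a : ℝ) - 1) + (b : ℝ) * ((b : ℝ) - 1)) <
      ((a : ℝ) - 1) ^ 2 + ((b : ℝ) - 1) ^ 2)
    (hN : ∀ X, 0 ≤ X → X ≤ 1 / v →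
      v * (logit v - logit p) * (ps a X + ps b X) ≤ 2 * dd v X)
    (W : Graphon) (hm : 0 < W.mom b) (hmv : W.mom b < v ^ b)
    (hne : ¬ ∀ᵐ x, (∫ y, YY W v b x y) = W.mom b / v ^ b) :
    v * (logit v - logit p) * ((mix W a b - rt b (W.mom b) ^ a) / (a * v ^ a)) <
      cost p W - relEnt p (rt b (W.mom b)) := by
  have hb1 : 1 ≤ b := by omega
  have hb0 : (0 : ℝ) < b := by exact_mod_cast (by omega : 0 < b)
  have ha0 : (0 : ℝ) < a := by exact_mod_cast (by omega : 0 < a)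
  have hp1 : p < 1 := hpv.trans hv1
  have hv : 0 < v := hp.trans hpv
  obtain ⟨T, hT⟩ : ∃ T, T = v * (logit v - logit p) := ⟨_, rfl⟩
  have hT0 : 0 < T := by
    rw [hT]
    exact mul_pos hv (logit_strictMono hp hpv hv1)
  rw [← hT] at hN ⊢
  obtain ⟨Z, μ, hZv, hμ, h⟩ := pv hb hab hv hv1 hvc hT0 hN
  have hv2 : (1 : ℝ) < 1 / v := by
    rw [lt_div_iff₀ hv]
    linarith
  have hZ : 1 < Z := lt_of_lt_of_le (one_lt_pow₀ hv2 (by omega)) hZv
  have hvb : (0 : ℝ) < v ^ b := by positivity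
  obtain ⟨l, hl⟩ : ∃ l, l = W.mom b / v ^ b := ⟨_, rfl⟩
  have hl0 : 0 < l := by
    rw [hl]
    positivity
  have hl1 : l < 1 := by
    rw [hl, div_lt_one hvb]
    exact hmv
  obtain ⟨d, g, hD, hG⟩ := h l hl0 hl1
  rw [← hl] at hne
  have hθ : 0 ≤ (a : ℝ) / b := by positivity
  have hs := Wi_sum hb1 hv hv1 hZ hZv hμ hθ W hl hD hG hne
  obtain ⟨c, hc⟩ : ∃ c, c = rt b (W.mom b) := ⟨_, rfl⟩
  have hc0 : 0 ≤ c := by
    rw [hc]
    exact rt_nonneg b hm.le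
  have hcv : c ≤ v := by
    rw [hc]
    exact rt_le hb1 hm.le hv.le hmv.le
  have hcb : (c / v) ^ b = l := by
    rw [div_pow, hc, rt_pow hb1 hm.le, hl]
  have hlθ : l ^ ((a : ℝ) / b) = (c / v) ^ a := by
    have h0 : 0 ≤ c / v := div_nonneg hc0 hv.le
    rw [← hcb, ← Real.rpow_natCast (c / v) b, ← Real.rpow_mul h0, mul_div_cancel₀ _ hb0.ne',
      Real.rpow_natCast]
  have hAl := Wi_Afl hb1 hp hp1 hv hv1 hT hc0 (hcv.trans hv1.le)
  rw [hcb] at hAl
  have hY0 := YY_nonneg (W := W) hv b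
  have hmom : ∫ x, ∫ y, YY W v b x y = l := by rw [YY_mom hv, hl]
  rw [hAl, Wi_intAf hb1 hp hp1 hv hv1 hT W, ← hl,
    Wi_intzet hθ (BK.YY (W := W) hv b).iter' (fun x => integral_nonneg fun y => hY0 x y),
    mixS_eq hv (by omega), hmom] at hs
  unfold zet at hs
  rw [hlθ] at hs
  rw [← hc]
  have e : T * ((mix W a b - c ^ a) / (a * v ^ a)) = T / a * (mix W a b / v ^ a - (c / v) ^ a) := by
    rw [div_pow]
    field_simp
  rw [e]
  linarith

end Pool.Agent.W_bbc525_c1
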