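import Pool.Agent.W_bbc525_c1.C0

/-!
# The function zeta

PROOFS. `zet_pow`: `(X^b)^(a/b) = X^a` (`Real.rpow_natCast`, `Real.rpow_mul`, `b ≠ 0`).
`zet'_pow`: `(X^b)^(a/b - 1) = X^(a-b)` (`b * (a/b - 1) = a - b`, cast of the natural
subtraction, `b ≤ a`).
`zet'_pos`: `Y^(θ-1) > 1` (`Real.one_lt_rpow`).
`zet_pos`: strict Bernoulli (`one_add_mul_self_lt_rpow_one_add` with `s = Y - 1`).
`zet_two`: `g Y = (Y - 1) zet' θ Y - 2 zet θ Y` has `g 1 = 0`,
`g' Y = (Y - 1) zet'' θ Y - zet' θ Y`, and `g' Y > 0` for `Y > 1` because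
`zet' θ Y = ∫_1^Y zet''` and `zet''` is strictly increasing: by the mean value theorem
`zet' θ Y = zet' θ Y - zet' θ 1 = (Y - 1) zet'' θ c` with `1 < c < Y`, and
`zet'' θ c < zet'' θ Y` (`Real.rpow_lt_rpow`, `θ - 2 > 0`). So `g` is strictly increasing on
`[1, Y]` (`strictMonoOn_of_deriv_pos`) and `g Y > 0`.
`ps_sub`: unfold `ps` and use `zet_pow`.
-/

set_option autoImplicit false

namespace Pool.Agent.W_bbc525_c1

open Set Pool.Agent.W_MP_bbc525_pr Pool.Agent.W_bbc525_h89 Pool.Agent.W_bbc525_td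
  Pool.Agent.W_bbc525_ends

theorem zet_pow {a b : ℕ} (hb : 1 ≤ b) {X : ℝ} (hX : 0 ≤ X) :
    zet ((a : ℝ) / b) (X ^ b) = X ^ a - 1 - (a : ℝ) / b * (X ^ b - 1) := by
  have hb0 : (b : ℝ) ≠ 0 := by exact_mod_cast (by omega : b ≠ 0)
  unfold zet
  have h1 : (X ^ b) ^ ((a : ℝ) / b) = X ^ a := by
    rw [← Real.rpow_natCast X b, ← Real.rpow_mul hX, mul_div_cancel₀ _ hb0, Real.rpow_natCast]
  rw [h1]

theorem zet'_pow {a b : ℕ} (hb : 1 ≤ b) (hab : b ≤ a) {X : ℝ} (hX : 0 < X) :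
    zet' ((a : ℝ) / b) (X ^ b) = (a : ℝ) / b * (X ^ (a - b) - 1) := by
  have hb0 : (b : ℝ) ≠ 0 := by exact_mod_cast (by omega : b ≠ 0)
  unfold zet'
  have h1 : (X ^ b) ^ ((a : ℝ) / b - 1) = X ^ (a - b) := by
    rw [← Real.rpow_natCast X b, ← Real.rpow_mul hX.le, mul_sub, mul_div_cancel₀ _ hb0, mul_one,
      ← Nat.cast_sub hab, Real.rpow_natCast]
  rw [h1]

theorem zet'_pos {θ Y : ℝ} (hθ : 1 < θ) (hY : 1 < Y) : 0 < zet' θ Y := by
  unfold zet'
  have h1 : 1 < Y ^ (θ - 1) := Real.one_lt_rpow hY (by linarith)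
  exact mul_pos (by linarith) (by linarith)

theorem zet_pos {θ Y : ℝ} (hθ : 1 < θ) (hY0 : 0 ≤ Y) (hY : Y ≠ 1) : 0 < zet θ Y := by
  unfold zet
  have h1 : 1 + θ * (Y - 1) < (1 + (Y - 1)) ^ θ :=
    one_add_mul_self_lt_rpow_one_add (by linarith) (sub_ne_zero.2 hY) hθ
  have h2 : 1 + (Y - 1) = Y := by ring
  rw [h2] at h1
  linarith

theorem zet_two {θ Y : ℝ} (hθ : 2 < θ) (hY : 1 < Y) : 2 * zet θ Y < (Y - 1) * zet' θ Y := by
  have hd : ∀ y : ℝ, 0 < y → HasDerivAt (fun y => (y - 1) * zet' θ y - 2 * zet θ y)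
      ((y - 1) * zet'' θ y - zet' θ y) y := by
    intro y hy
    have h1 := (((hasDerivAt_id y).sub_const 1).mul (hasDerivAt_zet' θ hy)).sub
      ((hasDerivAt_zet θ hy).const_mul 2)
    refine h1.congr_deriv ?_
    simp only [id]
    ring
  have hpos : ∀ y : ℝ, 1 < y → 0 < (y - 1) * zet'' θ y - zet' θ y := by
    intro y hy
    obtain ⟨c, hc, hc2⟩ := exists_hasDerivAt_eq_slope (zet' θ) (zet'' θ) hy
      (fun x hx => (hasDerivAt_zet' θ (by linarith [hx.1])).continuousAt.continuousWithinAt)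
      (fun x hx => hasDerivAt_zet' θ (by linarith [hx.1]))
    rw [zet'_one, sub_zero, eq_div_iff (by linarith)] at hc2
    have h1 : zet'' θ c < zet'' θ y := by
      unfold zet''
      have h2 : c ^ (θ - 2) < y ^ (θ - 2) :=
        Real.rpow_lt_rpow (by linarith [hc.1]) hc.2 (by linarith)
      exact mul_lt_mul_of_pos_left h2 (mul_pos (by linarith) (by linarith))
    have h3 : zet'' θ c * (y - 1) < zet'' θ y * (y - 1) :=
      mul_lt_mul_of_pos_right h1 (by linarith)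
    linarith
  have hmono : StrictMonoOn (fun y => (y - 1) * zet' θ y - 2 * zet θ y) (Icc 1 Y) := by
    refine strictMonoOn_of_deriv_pos (convex_Icc 1 Y) ?_ ?_
    · intro x hx
      exact (hd x (by linarith [hx.1])).continuousAt.continuousWithinAt
    · intro x hx
      rw [interior_Icc] at hx
      rw [(hd x (by linarith [hx.1])).deriv]
      exact hpos x hx.1
  have h1 := hmono (left_mem_Icc.2 hY.le) (right_mem_Icc.2 hY.le) hY
  simp only [sub_self, zero_mul, zet_one, mul_zero] at h1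
  linarith

theorem ps_sub {a b : ℕ} (hb : 1 ≤ b) (hab : b ≤ a) {X : ℝ} (hX : 0 ≤ X) :
    ps a X - ps b X = zet ((a : ℝ) / b) (X ^ b) / a := by
  have hb0 : (b : ℝ) ≠ 0 := by exact_mod_cast (by omega : b ≠ 0)
  have ha0 : (a : ℝ) ≠ 0 := by exact_mod_cast (by omega : a ≠ 0)
  rw [zet_pow hb hX]
  unfold ps
  field_simp
  ring

end Pool.Agent.W_bbc525_c1
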